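import Mathlib

/-!
# Almost strongly compact cardinals: definitions

Definitions used in the results about the least almost strongly compact cardinal.
-/

open Cardinal Ordinal Filter Set

universe u

namespace Pool.Agent.Helper801_ASC

/-- `κ` is `δ`-strongly compact: `δ ≤ κ` are uncountable cardinals and every (proper) `κ`-complete
filter on any set can be extended to a `δ`-complete ultrafilter on that set. -/
def DeltaStronglyCompact (δ κ : Cardinal.{u}) : Prop :=
  ℵ₀ < δ ∧ δ ≤ κ ∧ ∀ (I : Type u) (F : Filter I), F.NeBot → CardinalInterFilter F κ →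
    ∃ U : Ultrafilter I, (U : Filter I) ≤ F ∧ CardinalInterFilter (U : Filter I) δ

/-- `κ` is strongly compact. -/
def StronglyCompact (κ : Cardinal.{u}) : Prop :=
  DeltaStronglyCompact κ κ

/-- `κ` is `ω₁`-strongly compact. -/
def OmegaOneStronglyCompact (κ : Cardinal.{u}) : Prop :=
  DeltaStronglyCompact ℵ₁ κ

/-- `κ` is almost strongly compact: `κ > ω₁` is `δ`-strongly compact for every uncountable
cardinal `δ < κ`. -/
def AlmostStronglyCompact (κ : Cardinal.{u}) : Prop :=
  ℵ₁ < κ ∧ ∀ δ : Cardinal.{u}, ℵ₀ < δ → δ < κ → DeltaStronglyCompact δ κ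

/-- Some (equivalently every) set of cardinality `lam` carries a uniform `δ`-complete
ultrafilter: all of its members have cardinality `lam`, and it is closed under the intersections
of fewer than `δ` of its members. -/
def CarriesUniform (δ lam : Cardinal.{u}) : Prop :=
  ∃ (I : Type u) (U : Ultrafilter I), #I = lam ∧ CardinalInterFilter (U : Filter I) δ ∧
    ∀ A ∈ U, #A = lam

/-- The `α`-th cardinal successor `θ^{+α}` of the cardinal `θ`: in the increasing enumeration
`preAleph` of all cardinals by the ordinals, it is `α` places after `θ`. -/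
noncomputable def plusCard (θ : Cardinal.{u}) (α : Ordinal.{u}) : Cardinal.{u} :=
  preAleph (preAleph.symm θ + α)

/-- `C` is a closed unbounded subset of the cardinal `κ` (as a set of ordinals). -/
def IsClubBelow (κ : Cardinal.{u}) (C : Set Ordinal.{u}) : Prop :=
  (∀ α ∈ C, α < κ.ord) ∧ (∀ α < κ.ord, ∃ β ∈ C, α < β) ∧
    ∀ γ < κ.ord, γ ≠ 0 → (∀ α < γ, ∃ β ∈ C, α < β ∧ β < γ) → γ ∈ C

/-- `S` is a stationary subset of the cardinal `κ`: it meets every closed unbounded subset
of `κ`. -/
def IsStationaryBelow (κ : Cardinal.{u}) (S : Set Ordinal.{u}) : Prop :=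
  ∀ C, IsClubBelow κ C → (S ∩ C).Nonempty

/-- The ultrafilter `U` is `lam`-decomposable: there is a function from the underlying set to a
set of cardinality `lam` which pushes `U` forward to an ultrafilter all of whose members have
cardinality `lam`. -/
def Decomp {I : Type u} (U : Ultrafilter I) (lam : Cardinal.{u}) : Prop :=
  ∃ (T : Type u) (f : I → T), #T = lam ∧ ∀ A : Set T, #A < lam → f ⁻¹' A ∉ U

end Pool.Agent.Helper801_ASC
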