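import Mathlib
import Pool.Agent.Helper801_ASC.Defs

open Cardinal Ordinal Filter Set

universe u

namespace Pool.Agent.Helper801_ASC

variable {I J T : Type u}

/-! ### Complete ultrafilters -/

theorem cif_mono {F : Filter I} {a c : Cardinal.{u}} (h : CardinalInterFilter F c) (hac : a ≤ c) :
    CardinalInterFilter F a :=
  CardinalInterFilter.of_cardinalInterFilter_of_le F hac

theorem ev_forall {F : Filter I} {c : Cardinal.{u}} (h : CardinalInterFilter F c)
    {T : Type u} (hT : #T < c) {p : I → T → Prop} (hp : ∀ t, ∀ᶠ x in F, p x t) :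
    ∀ᶠ x in F, ∀ t, p x t :=
  (eventually_cardinal_forall hT).2 hp

theorem ultra_exists {U : Ultrafilter I} {c : Cardinal.{u}}
    (h : CardinalInterFilter (U : Filter I) c) {T : Type u} (hT : #T < c) {p : I → T → Prop}
    (hp : ∀ᶠ x in U, ∃ t, p x t) : ∃ t, ∀ᶠ x in U, p x t := by
  by_contra hcon
  have h1 : ∀ t, ∀ᶠ x in U, ¬ p x t := fun t =>
    Ultrafilter.eventually_not.2 (fun h => hcon ⟨t, h⟩)
  have h2 := ev_forall h hT h1
  obtain ⟨x, hx⟩ := (h2.and hp).exists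
  obtain ⟨t, ht⟩ := hx.2
  exact hx.1 t ht

theorem ultra_const {U : Ultrafilter I} {c : Cardinal.{u}}
    (h : CardinalInterFilter (U : Filter I) c) {T : Type u} (hT : #T < c) (f : I → T) :
    ∃ t, ∀ᶠ x in U, f x = t :=
  ultra_exists h hT (Filter.Eventually.of_forall fun x => ⟨f x, rfl⟩)

theorem cif_map {U : Ultrafilter I} {c : Cardinal.{u}}
    (h : CardinalInterFilter (U : Filter I) c) (f : I → J) :
    CardinalInterFilter ((U.map f : Ultrafilter J) : Filter J) c := by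
  refine ⟨fun S hS hmem => ?_⟩
  have h1 : ∀ᶠ x in (U : Filter I), ∀ s : S, f x ∈ (s : Set J) :=
    ev_forall h hS (fun s => Ultrafilter.mem_map.1 (hmem s.1 s.2))
  rw [Ultrafilter.mem_coe, Ultrafilter.mem_map]
  filter_upwards [h1] with x hx
  rw [mem_preimage, mem_sInter]
  exact fun s hs => hx ⟨s, hs⟩

theorem mem_bind {U : Ultrafilter I} {V : I → Ultrafilter J} {s : Set J} :
    s ∈ U.bind V ↔ ∀ᶠ x in U, s ∈ V x := by
  rfl

theorem cif_bind {U : Ultrafilter I} {V : I → Ultrafilter J} {c : Cardinal.{u}}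
    (h : CardinalInterFilter (U : Filter I) c)
    (hV : ∀ᶠ x in U, CardinalInterFilter (V x : Filter J) c) :
    CardinalInterFilter ((U.bind V : Ultrafilter J) : Filter J) c := by
  refine ⟨fun S hS hmem => ?_⟩
  have h1 : ∀ᶠ x in (U : Filter I), ∀ s : S, (s : Set J) ∈ V x :=
    ev_forall h hS (fun s => hmem s.1 s.2)
  rw [Ultrafilter.mem_coe, mem_bind]
  filter_upwards [h1, hV] with x hx hVx
  exact hVx.cardinal_sInter_mem S hS (fun s hs => hx ⟨s, hs⟩)

theorem cif_pure (a : I) (c : Cardinal.{u}) :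
    CardinalInterFilter ((pure a : Ultrafilter I) : Filter I) c := by
  refine ⟨fun S _ hmem => ?_⟩
  rw [Ultrafilter.mem_coe, Ultrafilter.mem_pure, mem_sInter]
  intro s hs
  have := hmem s hs
  rwa [Ultrafilter.mem_coe, Ultrafilter.mem_pure] at this

theorem cif_countable {F : Filter I} (h : CardinalInterFilter F ℵ₁) : CountableInterFilter F :=
  cardinalInterFilter_aleph_one_iff.1 h

/-! ### Well-foundedness of ultrapowers -/

theorem wf_lt {U : Ultrafilter I} (h : CardinalInterFilter (U : Filter I) ℵ₁) :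
    WellFounded (fun f g : I → Ordinal.{u} => ∀ᶠ x in U, f x < g x) := by
  have := cif_countable h
  rw [wellFounded_iff_isEmpty_descending_chain]
  refine ⟨fun ⟨f, hf⟩ => ?_⟩
  have h1 : ∀ᶠ x in (U : Filter I), ∀ n, f (n + 1) x < f n x := eventually_countable_forall.2 hf
  obtain ⟨x, hx⟩ := h1.exists
  exact (wellFounded_iff_isEmpty_descending_chain.1 (wellFounded_lt (α := Ordinal.{u}))).false
    ⟨fun n => f n x, hx⟩

theorem exists_min {U : Ultrafilter I} (h : CardinalInterFilter (U : Filter I) ℵ₁)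
    {P : (I → Ordinal.{u}) → Prop} (hP : ∃ f, P f) :
    ∃ f, P f ∧ ∀ g, P g → ¬ ∀ᶠ x in U, g x < f x := by
  obtain ⟨f, hf, hmin⟩ := (wf_lt h).has_min {f | P f} hP
  exact ⟨f, hf, fun g hg => hmin g hg⟩

/-! ### Decomposability -/

theorem exists_decomp (U : Ultrafilter I) (f : I → T) :
    ∃ lam, Decomp U lam ∧ (∃ X ∈ U, #(f '' X) = lam) ∧ ∀ Y ∈ U, lam ≤ #(f '' Y) := by
  classical
  obtain ⟨X, hX, hmin⟩ := (InvImage.wf (fun X : Set I => #(f '' X))
    (wellFounded_lt (α := Cardinal.{u}))).has_min {X | X ∈ U} ⟨univ, Filter.univ_mem⟩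
  have hmin' : ∀ Y ∈ U, #(f '' X) ≤ #(f '' Y) := fun Y hY => not_lt.1 (hmin Y hY)
  refine ⟨#(f '' X), ?_, ⟨X, hX, rfl⟩, hmin'⟩
  obtain ⟨x₀, hx₀⟩ := U.nonempty_of_mem hX
  refine ⟨f '' X, fun x => if h : x ∈ X then ⟨f x, mem_image_of_mem f h⟩ else
    ⟨f x₀, mem_image_of_mem f hx₀⟩, rfl, fun A hA hmem => ?_⟩
  have h1 : X ∩ ((fun x => if h : x ∈ X then (⟨f x, mem_image_of_mem f h⟩ : f '' X) else
    ⟨f x₀, mem_image_of_mem f hx₀⟩) ⁻¹' A) ∈ U := Filter.inter_mem hX hmem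
  have h2 := hmin' _ h1
  refine absurd (h2.trans ?_) (not_le.2 hA)
  refine (Cardinal.mk_le_mk_of_subset (t := Subtype.val '' A) ?_).trans Cardinal.mk_image_le
  rintro _ ⟨x, ⟨hx, hxA⟩, rfl⟩
  simp only [mem_preimage, hx, dite_true] at hxA
  exact ⟨_, hxA, rfl⟩

theorem Decomp.carriesUniform {U : Ultrafilter I} {lam δ : Cardinal.{u}} (h : Decomp U lam)
    (hU : CardinalInterFilter (U : Filter I) δ) : CarriesUniform δ lam := by
  obtain ⟨T, f, hT, hf⟩ := h
  refine ⟨T, U.map f, hT, cif_map hU f, fun A hA => ?_⟩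
  rw [Ultrafilter.mem_map] at hA
  refine le_antisymm (hT ▸ Cardinal.mk_set_le A) ?_
  by_contra hlt
  exact hf A (not_le.1 hlt) hA

theorem not_decomp_of_lt {U : Ultrafilter I} {lam δ : Cardinal.{u}}
    (hU : CardinalInterFilter (U : Filter I) δ) (h1 : 1 < lam) (h2 : lam < δ) :
    ¬ Decomp U lam := by
  rintro ⟨T, f, hT, hf⟩
  obtain ⟨t, ht⟩ := ultra_const hU (hT ▸ h2) f
  refine hf {t} (by simpa using h1) ?_
  filter_upwards [ht] with x hx
  simpa using hx

theorem CarriesUniform.mono {lam δ δ' : Cardinal.{u}} (h : CarriesUniform δ lam) (hle : δ' ≤ δ) :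
    CarriesUniform δ' lam := by
  obtain ⟨I, U, hI, hU, hun⟩ := h
  exact ⟨I, U, hI, cif_mono hU hle, hun⟩

end Pool.Agent.Helper801_ASC
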