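import Mathlib
import Pool.Agent.Helper801_ASC.Basic

open Cardinal Ordinal Filter Set Order

universe u

namespace Pool.Agent.Helper801_ASC

variable {I J T : Type u}

theorem sup_lt_cof {a : Ordinal.{u}} {ι : Type u} (hι : #ι < a.cof) {f : ι → Ordinal.{u}}
    (hf : ∀ i, f i < a) : ∃ β < a, ∀ i, f i < β :=
  ⟨⨆ i, f i + 1, iSup_add_one_lt_of_lt_cof hι hf, fun i => Ordinal.lt_iSup_add_one f i⟩

theorem exists_cofinal_fun (o : Ordinal.{u}) : ∃ (C : Type u) (c : C → Ordinal.{u}),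
    #C = o.cof ∧ (∀ i, c i < o) ∧ ∀ α < o, ∃ i, α ≤ c i := by
  obtain ⟨s, hs, hs'⟩ := Order.exists_cof_eq o.ToType
  rw [cof_toType] at hs'
  refine ⟨s, fun i => (i.1.toOrd : Ordinal), hs', fun i => i.1.toOrd.2, fun α hα => ?_⟩
  obtain ⟨b, hb, hb'⟩ := hs (ToType.mk ⟨α, hα⟩)
  refine ⟨⟨b, hb⟩, ?_⟩
  have := ToType.mk.symm.monotone hb'
  rw [OrderIso.symm_apply_apply] at this
  exact this

/-- `f` is bounded by `lam` and unbounded in `lam` modulo `U`. -/
def Unb (U : Ultrafilter I) (lam : Cardinal.{u}) (f : I → Ordinal.{u}) : Prop :=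
  (∀ᶠ x in U, f x < lam.ord) ∧ ∀ α < lam.ord, ∀ᶠ x in U, α ≤ f x

/-- every function which is below `f` modulo `U` is bounded by some `β < lam` -/
def WN (U : Ultrafilter I) (lam : Cardinal.{u}) (f : I → Ordinal.{u}) : Prop :=
  ∀ g : I → Ordinal.{u}, (∀ᶠ x in U, g x < f x) → ∃ β < lam.ord, ∀ᶠ x in U, g x < β

/-- `U` is `(ρ, |T|)`-regular -/
def RegUF (U : Ultrafilter I) (ρ : Cardinal.{u}) (T : Type u) : Prop :=
  ∃ r : I → Set T, (∀ x, #(r x) < ρ) ∧ ∀ t, ∀ᶠ x in U, t ∈ r x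

theorem decomp_of_unb {U : Ultrafilter I} {lam : Cardinal.{u}} (hreg : lam.IsRegular)
    {f : I → Ordinal.{u}} (hf : Unb U lam f) : Decomp U lam := by
  classical
  have h0 : (0 : Ordinal) < lam.ord := hreg.ord_pos
  refine ⟨lam.ord.ToType, fun x => if h : f x < lam.ord then ToType.mk ⟨f x, h⟩ else
    ToType.mk ⟨0, h0⟩, mk_ord_toType lam, fun A hA hmem => ?_⟩
  obtain ⟨β, hβ, hβ'⟩ := sup_lt_cof (a := lam.ord) (ι := A) (by rwa [hreg.cof_ord])
    (f := fun a => (a.1.toOrd : Ordinal)) (fun a => a.1.toOrd.2)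
  obtain ⟨x, hx1, hx2, hx3⟩ := (hf.1.and ((hf.2 β hβ).and hmem)).exists
  simp only [hx1, dite_true] at hx3
  have := hβ' ⟨_, hx3⟩
  simp only [OrderIso.symm_apply_apply] at this
  exact absurd this (not_lt.2 hx2)

theorem unb_of_decomp {U : Ultrafilter I} {lam : Cardinal.{u}}
    (h : Decomp U lam) : ∃ f, Unb U lam f := by
  obtain ⟨T, f, hT, hf⟩ := h
  obtain ⟨e⟩ : Nonempty (T ≃ lam.ord.ToType) := by
    rw [← Cardinal.eq, hT, mk_ord_toType]
  refine ⟨fun x => (e (f x)).toOrd, Filter.Eventually.of_forall fun x => (e (f x)).toOrd.2,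
    fun α hα => ?_⟩
  by_contra hcon
  have h1 : ∀ᶠ x in U, ¬ (α ≤ ((e (f x)).toOrd : Ordinal)) := Ultrafilter.eventually_not.2 hcon
  refine hf {t | ((e t).toOrd : Ordinal) < α} ?_ ?_
  · have h2 : #{t | ((e t).toOrd : Ordinal) < α} ≤ #α.ToType := by
      refine Cardinal.mk_le_of_injective (f := fun t => ToType.mk ⟨((e t.1).toOrd : Ordinal), t.2⟩)
        ?_
      intro s t hst
      have := congrArg (fun z => (z.toOrd : Ordinal)) hst
      simp only [OrderIso.symm_apply_apply] at this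
      have h3 := Subtype.ext this
      have h4 := ToType.mk.symm.injective h3
      exact Subtype.ext (e.injective h4)
    refine h2.trans_lt ?_
    rw [mk_toType]
    exact lt_ord.1 hα
  · filter_upwards [h1] with x hx
    simpa using hx

theorem exists_wn {U : Ultrafilter I} {lam : Cardinal.{u}}
    (hU : CardinalInterFilter (U : Filter I) ℵ₁) (h : ∃ f, Unb U lam f) :
    ∃ f, Unb U lam f ∧ WN U lam f := by
  obtain ⟨f, hf, hmin⟩ := exists_min hU h
  refine ⟨f, hf, fun g hg => ?_⟩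
  by_contra hcon
  push Not at hcon
  refine hmin g ⟨?_, fun α hα => ?_⟩ hg
  · filter_upwards [hg, hf.1] with x h1 h2 using h1.trans h2
  · have := hcon α hα
    have h2 : ∀ᶠ x in U, ¬ g x < α := by
      simpa using this
    filter_upwards [h2] with x hx using not_lt.1 hx

theorem reg_of_cof {U : Ultrafilter I} {lam ρ : Cardinal.{u}} (hreg : lam.IsRegular)
    {f : I → Ordinal.{u}} (hf : Unb U lam f) (hwn : WN U lam f)
    (hcof : ∀ᶠ x in U, (f x).cof < ρ) : RegUF U ρ lam.ord.ToType := by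
  classical
  choose C c hC hlt hcf using fun o : Ordinal.{u} => exists_cofinal_fun o
  have hlim : IsSuccLimit lam.ord := isSuccLimit_ord hreg.aleph0_le
  -- step 1
  have h1 : ∀ α, ∃ β < lam.ord, α < lam.ord →
      ∀ᶠ x in U, ∃ i : C (f x), α ≤ c (f x) i ∧ c (f x) i < β := by
    intro α
    by_cases hα : α < lam.ord
    · obtain ⟨β, hβ, hβ'⟩ := hwn (fun x => if h : α < f x then c (f x) (hcf (f x) α h).choose else 0)
        (by
          filter_upwards [hf.2 (succ α) (hlim.succ_lt hα)] with x hx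
          have hx' : α < f x := succ_le_iff.1 hx
          simp only [hx', dite_true]
          exact hlt _ _)
      refine ⟨β, hβ, fun _ => ?_⟩
      filter_upwards [hβ', hf.2 (succ α) (hlim.succ_lt hα)] with x hx1 hx
      have hx' : α < f x := succ_le_iff.1 hx
      simp only [hx', dite_true] at hx1
      exact ⟨_, (hcf (f x) α hx').choose_spec, hx1⟩
    · exact ⟨0, hreg.ord_pos, fun h => absurd h hα⟩
  choose h hh1 hh2 using h1
  -- step 2 : recursion
  let e : lam.ord.ToType → Ordinal.{u} :=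
    (wellFounded_lt (α := lam.ord.ToType)).fix (fun t ih => ⨆ s : Iio t, h (ih s.1 s.2))
  have he : ∀ t, e t = ⨆ s : Iio t, h (e s.1) := fun t =>
    (wellFounded_lt (α := lam.ord.ToType)).fix_eq _ t
  have he1 : ∀ t, e t < lam.ord := by
    intro t
    rw [he]
    refine Ordinal.iSup_lt_of_lt_cof ?_ (fun s => hh1 _)
    rw [hreg.cof_ord]
    exact mk_Iio_toType_ord_lt t
  have he2 : ∀ s t, s < t → h (e s) ≤ e t := by
    intro s t hst
    rw [he t]
    exact le_ciSup (f := fun s : Iio t => h (e s.1)) bddAbove_of_small ⟨s, hst⟩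
  -- step 3
  obtain ⟨x₀, hx₀⟩ := hcof.exists
  have hρ : 0 < ρ := pos_of_gt hx₀
  refine ⟨fun x => if (f x).cof < ρ then
    {t | ∃ i : C (f x), e t ≤ c (f x) i ∧ c (f x) i < h (e t)} else ∅, fun x => ?_, fun t => ?_⟩
  · by_cases hx : (f x).cof < ρ
    · simp only [hx, if_true]
      refine lt_of_le_of_lt ?_ hx
      rw [← hC]
      refine Cardinal.mk_le_of_injective (f := fun t : {t | ∃ i : C (f x), e t ≤ c (f x) i ∧
        c (f x) i < h (e t)} => t.2.choose) ?_
      intro s t hst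
      have hs := s.2.choose_spec
      have ht := t.2.choose_spec
      simp only at hst
      rw [hst] at hs
      rcases lt_trichotomy s.1 t.1 with hlt' | heq | hlt'
      · exact absurd (hs.2.trans_le ((he2 _ _ hlt').trans ht.1)) (lt_irrefl _)
      · exact Subtype.ext heq
      · exact absurd (ht.2.trans_le ((he2 _ _ hlt').trans hs.1)) (lt_irrefl _)
    · simp only [hx, if_false]
      simpa using hρ
  · filter_upwards [hcof, hh2 (e t) (he1 t)] with x hx hx2
    simp only [hx, if_true]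
    exact hx2

theorem RegUF.mono {U : Ultrafilter I} {ρ : Cardinal.{u}} {S T : Type u} (h : RegUF U ρ T)
    (hST : #S ≤ #T) : RegUF U ρ S := by
  obtain ⟨r, hr1, hr2⟩ := h
  obtain ⟨e⟩ : Nonempty (S ↪ T) := hST
  refine ⟨fun x => e ⁻¹' (r x), fun x => ?_, fun s => hr2 (e s)⟩
  exact (Cardinal.mk_preimage_of_injective _ _ e.injective).trans_lt (hr1 x)

theorem RegUF.mono_left {U : Ultrafilter I} {ρ ρ' : Cardinal.{u}} {T : Type u} (h : RegUF U ρ T)
    (hρ : ρ ≤ ρ') : RegUF U ρ' T := by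
  obtain ⟨r, hr1, hr2⟩ := h
  exact ⟨r, fun x => (hr1 x).trans_le hρ, hr2⟩

theorem RegUF.decomp {U : Ultrafilter I} {ρ τ : Cardinal.{u}} {T : Type u} (h : RegUF U ρ T)
    (hτ : τ.IsRegular) (h1 : ρ ≤ τ) (h2 : τ ≤ #T) : Decomp U τ := by
  have h3 : RegUF U ρ τ.ord.ToType := h.mono (by rwa [mk_ord_toType])
  obtain ⟨r, hr1, hr2⟩ := h3
  have h4 : ∀ x, ∃ β < τ.ord, ∀ t : r x, (t.1.toOrd : Ordinal) < β := fun x =>
    sup_lt_cof (a := τ.ord) (ι := r x) (by rw [hτ.cof_ord]; exact (hr1 x).trans_le h1)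
      (f := fun t => (t.1.toOrd : Ordinal)) (fun t => t.1.toOrd.2)
  choose g hg1 hg2 using h4
  refine decomp_of_unb hτ (f := g) ⟨Filter.Eventually.of_forall hg1, fun α hα => ?_⟩
  filter_upwards [hr2 (ToType.mk ⟨α, hα⟩)] with x hx
  have := hg2 x ⟨_, hx⟩
  simp only [OrderIso.symm_apply_apply] at this
  exact this.le

theorem decomp_of_cof_eq {U : Ultrafilter I} {lam τ : Cardinal.{u}} (hreg : lam.IsRegular)
    (hτ : τ.IsRegular) (hlt : τ < lam) {f : I → Ordinal.{u}} (hf : Unb U lam f)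
    (hwn : WN U lam f) (hcof : ∀ᶠ x in U, (f x).cof = τ) : Decomp U τ := by
  classical
  by_contra hcon
  have hlim : IsSuccLimit lam.ord := isSuccLimit_ord hreg.aleph0_le
  have h1 : ∀ x, ∃ c : τ.ord.ToType → Ordinal.{u}, (f x).cof = τ →
      (∀ i, c i < f x) ∧ ∀ α < f x, ∃ i, α ≤ c i := by
    intro x
    by_cases hx : (f x).cof = τ
    · obtain ⟨C, c, hC, hc1, hc2⟩ := exists_cofinal_fun (f x)
      obtain ⟨e⟩ : Nonempty (τ.ord.ToType ≃ C) := by
        rw [← Cardinal.eq, hC, hx, mk_ord_toType]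
      refine ⟨fun i => c (e i), fun _ => ⟨fun i => hc1 _, fun α hα => ?_⟩⟩
      obtain ⟨i, hi⟩ := hc2 α hα
      exact ⟨e.symm i, by simpa using hi⟩
    · exact ⟨fun _ => 0, fun h => absurd h hx⟩
  choose c hc using h1
  have h2 : ∀ α < lam.ord, ∃ β < τ.ord, ∀ᶠ x in U, ∃ i, (i.toOrd : Ordinal) < β ∧ α ≤ c x i := by
    intro α hα
    by_contra hcon2
    push Not at hcon2
    have hex : ∀ᶠ x in U, ∃ i, α ≤ c x i := by
      filter_upwards [hcof, hf.2 (succ α) (hlim.succ_lt hα)] with x hx hx2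
      exact (hc x hx).2 α (succ_le_iff.1 hx2)
    refine hcon (decomp_of_unb hτ (f := fun x => if h : ∃ i, α ≤ c x i then
      (((wellFounded_lt (α := τ.ord.ToType)).min {i | α ≤ c x i} h).toOrd : Ordinal) else 0)
      ⟨Filter.Eventually.of_forall fun x => ?_, fun β hβ => ?_⟩)
    · dsimp only
      split_ifs with h
      · exact (ToType.toOrd _).2
      · exact hτ.ord_pos
    · filter_upwards [hex, hcon2 β hβ] with x hx hx3
      simp only [hx, dite_true]
      by_contra hlt2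
      exact absurd (hx3 _ (not_le.1 hlt2)) (not_lt.2
        ((wellFounded_lt (α := τ.ord.ToType)).min_mem {i | α ≤ c x i} hx))
  have h3 : ∃ β < τ.ord, ∀ α < lam.ord, ∀ᶠ x in U, ∃ i, (i.toOrd : Ordinal) < β ∧ α ≤ c x i := by
    by_contra hcon3
    have h4 : ∀ b : τ.ord.ToType, ∃ α < lam.ord,
        ¬ ∀ᶠ x in U, ∃ i, (i.toOrd : Ordinal) < (b.toOrd : Ordinal) ∧ α ≤ c x i := by
      intro b
      by_contra hcon4
      refine hcon3 ⟨b.toOrd, b.toOrd.2, fun α hα => ?_⟩
      by_contra hcon5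
      exact hcon4 ⟨α, hα, hcon5⟩
    choose a ha1 ha2 using h4
    obtain ⟨α, hα, hα'⟩ := sup_lt_cof (a := lam.ord) (ι := τ.ord.ToType)
      (by rw [hreg.cof_ord, mk_ord_toType]; exact hlt) (f := a) ha1
    obtain ⟨β, hβ, hβ'⟩ := h2 α hα
    refine ha2 (ToType.mk ⟨β, hβ⟩) ?_
    filter_upwards [hβ'] with x ⟨i, hi, hi2⟩
    exact ⟨i, by simpa using hi, (hα' _).le.trans hi2⟩
  obtain ⟨β, hβ, hβ'⟩ := h3
  have h5 : ∀ x, ∃ γ, (f x).cof = τ → γ < f x ∧ ∀ i : τ.ord.ToType, (i.toOrd : Ordinal) < β →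
      c x i < γ := by
    intro x
    by_cases hx : (f x).cof = τ
    · obtain ⟨γ, hγ, hγ'⟩ := sup_lt_cof (a := f x) (ι := {i : τ.ord.ToType // (i.toOrd : Ordinal) < β})
        (f := fun i => c x i.1) (by
          rw [hx]
          refine lt_of_le_of_lt ?_ (lt_ord.1 hβ)
          rw [← mk_toType]
          refine Cardinal.mk_le_of_injective (f := fun t => ToType.mk ⟨(t.1.toOrd : Ordinal), t.2⟩)
            ?_
          intro s t hst
          have := congrArg (fun z => (z.toOrd : Ordinal)) hst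
          simp only [OrderIso.symm_apply_apply] at this
          have h3 := Subtype.ext this
          exact Subtype.ext (ToType.mk.symm.injective h3)) (fun i => (hc x hx).1 _)
      exact ⟨γ, fun _ => ⟨hγ, fun i hi => hγ' ⟨i, hi⟩⟩⟩
    · exact ⟨0, fun h => absurd h hx⟩
  choose g hg using h5
  obtain ⟨γ, hγ, hγ'⟩ := hwn g (by filter_upwards [hcof] with x hx using (hg x hx).1)
  obtain ⟨x, hx1, ⟨i, hi1, hi2⟩, hx3⟩ := (hγ'.and ((hβ' γ hγ).and hcof)).exists
  exact absurd ((hi2.trans_lt ((hg x hx3).2 i hi1)).trans hx1) (lt_irrefl _)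

end Pool.Agent.Helper801_ASC
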