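import Mathlib
import Pool.Agent.Helper801_ASC.Reg

open Cardinal Ordinal Filter Set Order

universe u

namespace Pool.Agent.Helper801_ASC

variable {I J T : Type u}

theorem cof_le_of_lt_succ {η : Cardinal.{u}} {o : Ordinal.{u}} (h : o < (succ η).ord) :
    o.cof ≤ η :=
  (cof_le_card o).trans (lt_succ_iff.1 (lt_ord.1 h))

/-- **Kunen–Prikry** for countably complete ultrafilters: a `η⁺`-decomposable ultrafilter is
`η`-decomposable if `η` is regular. -/
theorem decomp_of_decomp_succ {U : Ultrafilter I} (hU : CardinalInterFilter (U : Filter I) ℵ₁)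
    {η : Cardinal.{u}} (hη : η.IsRegular) (h : Decomp U (succ η)) : Decomp U η := by
  have hreg : (succ η).IsRegular := isRegular_succ hη.aleph0_le
  obtain ⟨f, hf, hwn⟩ := exists_wn hU (unb_of_decomp h)
  by_cases hc : ∀ᶠ x in U, (f x).cof = η
  · exact decomp_of_cof_eq hreg hη (lt_succ η) hf hwn hc
  · have hc' : ∀ᶠ x in U, ¬ (f x).cof = η := Ultrafilter.eventually_not.2 hc
    have h1 : ∀ᶠ x in U, (f x).cof < η := by
      filter_upwards [hc', hf.1] with x hx hx2
      exact lt_of_le_of_ne (cof_le_of_lt_succ hx2) hx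
    refine (reg_of_cof hreg hf hwn h1).decomp hη le_rfl ?_
    rw [mk_ord_toType]
    exact le_succ η

/-- If `η` is singular, `cf(η) < δ` and the `δ`-complete ultrafilter `U` is `η⁺`-decomposable, then
`U` is `(ρ, η⁺)`-regular for some `ρ < η`. -/
theorem reg_of_decomp_succ {U : Ultrafilter I} {δ : Cardinal.{u}}
    (hU : CardinalInterFilter (U : Filter I) δ)
    (hU1 : CardinalInterFilter (U : Filter I) ℵ₁)
    {η : Cardinal.{u}} (hη : η.IsSingular) (hcof : η.ord.cof < δ) (h : Decomp U (succ η)) :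
    ∃ ρ < η, RegUF U ρ (succ η).ord.ToType := by
  have hreg : (succ η).IsRegular := isRegular_succ hη.aleph0_le
  obtain ⟨f, hf, hwn⟩ := exists_wn hU1 (unb_of_decomp h)
  have hne : ∀ o : Ordinal.{u}, o.cof ≠ η := by
    intro o ho
    refine hη.cof_ord_ne ?_
    rw [← ho]
    exact cof_ord_cof o
  obtain ⟨C, c, hC, hc1, hc2⟩ := exists_cofinal_fun η.ord
  have h1 : ∀ᶠ x in U, ∃ i : C, (f x).cof ≤ (c i).card := by
    filter_upwards [hf.1] with x hx
    have h2 : (f x).cof < η := lt_of_le_of_ne (cof_le_of_lt_succ hx) (hne _)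
    obtain ⟨i, hi⟩ := hc2 (f x).cof.ord (ord_lt_ord.2 h2)
    exact ⟨i, by rw [← ord_le]; exact hi⟩
  obtain ⟨i, hi⟩ := ultra_exists hU (hC ▸ hcof) h1
  refine ⟨succ (c i).card, hη.isSuccLimit.succ_lt (lt_ord.1 (hc1 i)), ?_⟩
  refine reg_of_cof hreg hf hwn ?_
  filter_upwards [hi] with x hx
  exact lt_succ_iff.2 hx

/-- An ultrafilter which is `lam`-decomposable for a singular cardinal `lam` is
`cf(lam)`-decomposable. -/
theorem decomp_cof {U : Ultrafilter I} {lam : Cardinal.{u}} (hlam : lam.IsSingular)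
    (h : Decomp U lam) : Decomp U lam.ord.cof := by
  classical
  obtain ⟨C, c, hC, hc1, hc2⟩ := exists_cofinal_fun lam.ord
  obtain ⟨f, hf⟩ := unb_of_decomp h
  obtain ⟨T, g, hT, hg⟩ := h
  obtain ⟨e⟩ : Nonempty (T ≃ lam.ord.ToType) := by
    rw [← Cardinal.eq, hT, mk_ord_toType]
  have hlim : IsSuccLimit lam.ord := isSuccLimit_ord hlam.aleph0_le
  have h1 : ∀ x, ∃ i : C, ((e (g x)).toOrd : Ordinal) < c i := by
    intro x
    obtain ⟨i, hi⟩ := hc2 (succ ((e (g x)).toOrd : Ordinal)) (hlim.succ_lt (e (g x)).toOrd.2)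
    exact ⟨i, succ_le_iff.1 hi⟩
  choose k hk using h1
  refine ⟨C, k, hC, fun A hA hmem => ?_⟩
  obtain ⟨β, hβ, hβ'⟩ := sup_lt_cof (a := lam.ord) (ι := A) hA (f := fun a => c a.1)
    (fun a => hc1 _)
  refine hg {t | ((e t).toOrd : Ordinal) < β} ?_ ?_
  · have h2 : #{t | ((e t).toOrd : Ordinal) < β} ≤ #β.ToType := by
      refine Cardinal.mk_le_of_injective (f := fun t => ToType.mk ⟨((e t.1).toOrd : Ordinal), t.2⟩)
        ?_
      intro s t hst
      have := congrArg (fun z => (z.toOrd : Ordinal)) hst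
      simp only [OrderIso.symm_apply_apply] at this
      have h3 := Subtype.ext this
      have h4 := ToType.mk.symm.injective h3
      exact Subtype.ext (e.injective h4)
    refine h2.trans_lt ?_
    rw [mk_toType]
    exact lt_ord.1 hβ
  · filter_upwards [hmem] with x hx
    exact (hk x).trans (hβ' ⟨k x, hx⟩)

/-- If `U` is `lam`-decomposable for cardinals `lam` unbounded in `θ`, then `U` is
`lam`-decomposable for some `lam` in the interval `[θ, 2 ^ θ]`. -/
theorem exists_decomp_between {U : Ultrafilter I} {θ : Cardinal.{u}} (hθ : ℵ₀ ≤ θ)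
    (h : ∀ ν < θ, ∃ lam, ν < lam ∧ lam < θ ∧ Decomp U lam) :
    ∃ lam, θ ≤ lam ∧ lam ≤ 2 ^ θ ∧ Decomp U lam := by
  have h1 : ∀ t : θ.ord.ToType, ∃ lam, (t.toOrd : Ordinal).card < lam ∧ lam < θ ∧ Decomp U lam :=
    fun t => h _ (lt_ord.1 t.toOrd.2)
  choose lam hlam1 hlam2 hlam3 using h1
  choose T f hT hf using hlam3
  obtain ⟨m, hm, ⟨X, hX, hXm⟩, -⟩ := exists_decomp U (fun x => fun t => f t x)
  have hle : ∀ t, lam t ≤ m := by
    intro t
    by_contra hcon
    rw [not_le, ← hXm] at hcon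
    refine hf t (f t '' X) ?_ (Filter.mem_of_superset hX (subset_preimage_image _ _))
    refine lt_of_le_of_lt ?_ hcon
    have : f t '' X = (fun g : (∀ t, T t) => g t) '' ((fun x => fun t => f t x) '' X) := by
      rw [image_image]
    rw [this]
    exact Cardinal.mk_image_le
  refine ⟨m, ?_, ?_, hm⟩
  · by_contra hcon
    rw [not_le] at hcon
    have := hle (ToType.mk ⟨m.ord, ord_lt_ord.2 hcon⟩)
    have h2 := hlam1 (ToType.mk ⟨m.ord, ord_lt_ord.2 hcon⟩)
    simp only [OrderIso.symm_apply_apply, card_ord] at h2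
    exact absurd this (not_le.2 h2)
  · rw [← hXm]
    refine (Cardinal.mk_set_le _).trans ?_
    rw [Cardinal.mk_pi]
    refine (Cardinal.prod_le_prod (fun t => #(T t)) (fun _ => θ) (fun t => ?_)).trans ?_
    · rw [hT]
      exact (hlam2 t).le
    · rw [Cardinal.prod_const, mk_ord_toType, Cardinal.lift_id, Cardinal.power_self_eq hθ]

end Pool.Agent.Helper801_ASC
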