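import Mathlib
import Pool.Agent.Helper801_ASC.Succ

open Cardinal Ordinal Filter Set Order

universe u

namespace Pool.Agent.Helper801_ASC

variable {I J T : Type u}

theorem isSuccLimit_of_preAleph {o : Ordinal.{u}} (h : IsSuccLimit (preAleph o)) :
    IsSuccLimit o := by
  have := InitialSeg.isSuccLimit_apply_iff (preAleph.{u} : Ordinal ≃o Cardinal).toInitialSeg
    (a := o)
  exact this.1 h

theorem cof_preAleph_add {o ε : Ordinal.{u}} (hε : ε ≠ 0) (h : IsSuccLimit (o + ε)) :
    (preAleph (o + ε)).ord.cof = ε.cof := by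
  rw [ord_preAleph, cof_preOmega h.isSuccPrelimit, cof_add _ hε]

theorem decomp_ord_cof {U : Ultrafilter I} {lam : Cardinal.{u}} (hlam : ℵ₀ ≤ lam)
    (h : Decomp U lam) : Decomp U lam.ord.cof := by
  rcases isRegular_or_isSingular hlam with hr | hs
  · rwa [hr.cof_ord]
  · exact decomp_cof hs h

theorem aleph0_le_cof_ord {lam : Cardinal.{u}} (hlam : ℵ₀ ≤ lam) : ℵ₀ ≤ lam.ord.cof := by
  exact aleph0_le_cof.2 (isSuccLimit_ord hlam)

/-- Descent: a `δ`-complete ultrafilter which is `lam`-decomposable for some `lam` strictly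
between `θ` and `θ^{+δ}` is `θ`-decomposable if `θ` is regular and `(ρ, θ⁺)`-regular for some
`ρ < θ` if `θ` is singular of cofinality less than `δ`. -/
theorem descent {U : Ultrafilter I} {δ θ lam : Cardinal.{u}}
    (hU : CardinalInterFilter (U : Filter I) δ) (hδ : ℵ₁ ≤ δ) (hθ : ℵ₀ ≤ θ)
    (h1 : θ < lam) (h2 : lam < plusCard θ δ.ord) (h : Decomp U lam) :
    (θ.IsRegular → Decomp U θ) ∧
    (θ.IsSingular → θ.ord.cof < δ → ∃ ρ < θ, RegUF U ρ (succ θ).ord.ToType) := by
  classical
  have hU1 : CardinalInterFilter (U : Filter I) ℵ₁ := cif_mono hU hδ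
  obtain ⟨lam', ⟨h1', h2', h'⟩, hmin⟩ := (wellFounded_lt (α := Cardinal.{u})).has_min
    {μ | θ < μ ∧ μ < plusCard θ δ.ord ∧ Decomp U μ} ⟨lam, h1, h2, h⟩
  clear h1 h2 h lam
  have hmin' : ∀ μ, θ < μ → μ < lam' → ¬ Decomp U μ := by
    intro μ hμ1 hμ2 hμ3
    exact hmin μ ⟨hμ1, hμ2.trans h2', hμ3⟩ hμ2
  clear hmin
  set o := preAleph.symm θ with ho
  have hθo : preAleph o = θ := by rw [ho, OrderIso.apply_symm_apply]
  obtain ⟨a, ha⟩ : ∃ a, preAleph a = lam' := ⟨preAleph.symm lam', OrderIso.apply_symm_apply _ _⟩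
  have hoa : o < a := by
    rw [← preAleph_lt_preAleph, hθo, ha]; exact h1'
  have hao : a < o + δ.ord := by
    rw [← preAleph_lt_preAleph, ha]; exact h2'
  obtain ⟨ε, hε⟩ : ∃ ε, o + ε = a := ⟨a - o, Ordinal.add_sub_cancel_of_le hoa.le⟩
  have hεδ : ε < δ.ord := by
    rw [← hε] at hao
    exact (add_lt_add_iff_left o).1 hao
  have hε0 : ε ≠ 0 := by
    rintro rfl
    rw [add_zero] at hε
    exact hoa.ne hε
  rcases zero_or_succ_or_isSuccLimit ε with h0 | ⟨ε', hε'⟩ | hlim
  · exact absurd h0 hε0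
  · -- successor case
    have hlam : lam' = succ (preAleph (o + ε')) := by
      rw [succ_preAleph, ← ha, ← hε, ← hε', add_assoc]
      rfl
    by_cases hz : ε' = 0
    · have hη : lam' = succ θ := by rw [hlam, hz, add_zero, hθo]
      rw [hη] at h'
      exact ⟨fun hr => decomp_of_decomp_succ hU1 hr h',
        fun hs hc => reg_of_decomp_succ hU hU1 hs hc h'⟩
    · exfalso
      set η := preAleph (o + ε') with hη
      have hθη : θ < η := by
        rw [hη, ← hθo, preAleph_lt_preAleph]
        exact lt_add_of_pos_right o (pos_iff_ne_zero.2 hz)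
      have hηl : η < lam' := by rw [hlam]; exact lt_succ η
      have hηi : ℵ₀ ≤ η := hθ.trans hθη.le
      rcases isRegular_or_isSingular hηi with hr | hs
      · refine hmin' η hθη hηl (decomp_of_decomp_succ hU1 hr ?_)
        rwa [← hlam]
      · have hlim' : IsSuccLimit (o + ε') := isSuccLimit_of_preAleph hs.isSuccLimit
        have hcof : η.ord.cof < δ := by
          rw [hη, cof_preAleph_add hz hlim']
          refine (cof_le_card _).trans_lt (lt_ord.1 (lt_of_le_of_lt ?_ hεδ))
          rw [← hε']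
          exact le_succ ε'
        rw [hlam] at h'
        obtain ⟨ρ, hρ, hreg⟩ := reg_of_decomp_succ hU hU1 hs hcof h'
        have hm : max ρ θ < η := max_lt hρ hθη
        refine hmin' (succ (max ρ θ)) (lt_succ_iff.2 (le_max_right _ _))
          ((hs.isSuccLimit.succ_lt hm).trans hηl)
          (hreg.decomp (isRegular_succ (hθ.trans (le_max_right _ _)))
            ((le_max_left _ _).trans (le_succ _)) ?_)
        rw [mk_ord_toType]
        exact succ_le_succ hm.le
  · -- limit case
    exfalso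
    have hlim' : IsSuccLimit (o + ε) := isSuccLimit_add o hlim
    have hcof : lam'.ord.cof < δ := by
      rw [← ha, ← hε, cof_preAleph_add hε0 hlim']
      exact (cof_le_card _).trans_lt (lt_ord.1 hεδ)
    have hi : ℵ₀ ≤ lam' := hθ.trans h1'.le
    exact not_decomp_of_lt hU (one_lt_aleph0.trans_le (aleph0_le_cof_ord hi)) hcof
      (decomp_ord_cof hi h')

end Pool.Agent.Helper801_ASC
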