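import Mathlib
import Pool.Agent.Helper801_ASC.Descent

open Cardinal Ordinal Filter Set Order

universe u

namespace Pool.Agent.Helper801_ASC

variable {I J T : Type u}

/-- A function into a small set has small range on a set in an indecomposable ultrafilter. -/
theorem small_range {U : Ultrafilter I} {γ κ : Cardinal.{u}}
    (hU : ∀ lam, γ < lam → lam < κ → ¬ Decomp U lam) (hT : #T < κ) (f : I → T) :
    ∃ X ∈ U, #(f '' X) ≤ γ := by
  obtain ⟨lam, hlam, ⟨X, hX, hXl⟩, -⟩ := exists_decomp U f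
  refine ⟨X, hX, ?_⟩
  rw [hXl]
  by_contra hcon
  refine hU lam (not_le.1 hcon) ?_ hlam
  rw [← hXl]
  exact (Cardinal.mk_set_le _).trans_lt hT

/-- **Silver's factoring lemma.** If `U` is not `lam`-decomposable for the cardinals
`γ < lam < κ`, where `γ` is infinite and below the strong limit cardinal `κ`, then there is one
function `p` with small range through which all functions with range of size less than `κ` factor
modulo `U`. -/
theorem silver {U : Ultrafilter I} {γ κ : Cardinal.{u}} (hγ : ℵ₀ ≤ γ) (hγκ : γ < κ)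
    (hκ : ∀ c < κ, 2 ^ c < κ) (hU : ∀ lam, γ < lam → lam < κ → ¬ Decomp U lam) :
    ∃ (G : Type u) (p : I → G), #G < κ ∧ ∀ (T : Type u) (f : I → T), #T < κ →
      ∃ X ∈ U, ∀ x ∈ X, ∀ y ∈ X, p x = p y → f x = f y := by
  classical
  by_contra hcon
  have h0 : ∀ (G : Type u) (p : I → G), #G < κ → ∃ (T : Type u) (f : I → T), #T < κ ∧
      ∀ X ∈ U, ∃ x ∈ X, ∃ y ∈ X, p x = p y ∧ f x ≠ f y := by
    intro G p hG
    by_contra h
    refine hcon ⟨G, p, hG, fun T f hT => ?_⟩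
    by_contra h'
    refine h ⟨T, f, hT, fun X hX => ?_⟩
    by_contra h''
    refine h' ⟨X, hX, fun x hx y hy hxy => ?_⟩
    by_contra h3
    exact h'' ⟨x, hx, y, hy, hxy, h3⟩
  let G₀ : Type u := γ.ord.ToType
  have hG₀ : #G₀ = γ := mk_ord_toType γ
  have hne : Nonempty G₀ := by
    rw [← mk_ne_zero_iff, hG₀]
    exact (aleph0_pos.trans_le hγ).ne'
  have h1 : ∀ (G : Type u) (p : I → G), #G < κ → ∃ (f : I → G₀),
      ∀ X ∈ U, ∃ x ∈ X, ∃ y ∈ X, p x = p y ∧ f x ≠ f y := by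
    intro G p hG
    obtain ⟨T, f, hT, hf⟩ := h0 G p hG
    obtain ⟨X₀, hX₀, hX₀'⟩ := small_range hU hT f
    rw [← hG₀] at hX₀'
    obtain ⟨e⟩ : Nonempty (f '' X₀ ↪ G₀) := hX₀'
    refine ⟨fun x => if h : x ∈ X₀ then e ⟨f x, mem_image_of_mem f h⟩ else Classical.arbitrary G₀,
      fun X hX => ?_⟩
    obtain ⟨x, hx, y, hy, hxy, hfxy⟩ := hf (X ∩ X₀) (Filter.inter_mem hX hX₀)
    refine ⟨x, hx.1, y, hy.1, hxy, ?_⟩
    simp only [hx.2, hy.2, dite_true]
    intro h
    exact hfxy (Subtype.ext_iff.1 (e.injective h))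
  have hs : succ γ < κ := (succ_le_of_lt (cantor γ)).trans_lt (hκ γ hγκ)
  let W : Type u := (succ γ).ord.ToType
  have hIio : ∀ t : W, #(Iio t → G₀) < κ := by
    intro t
    have h2 : #(Iio t) ≤ γ := lt_succ_iff.1 (mk_Iio_toType_ord_lt t)
    rw [Cardinal.mk_arrow, hG₀, Cardinal.lift_id, Cardinal.lift_id]
    refine (Cardinal.power_le_power_left (aleph0_pos.trans_le hγ).ne' h2).trans_lt ?_
    rw [Cardinal.power_self_eq hγ]
    exact hκ γ hγκ
  choose step hstep using fun t : W => fun (p : I → (Iio t → G₀)) => h1 _ p (hIio t)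
  let p : W → (I → G₀) := (wellFounded_lt (α := W)).fix
    (fun t ih => step t (fun x s => ih s.1 s.2 x))
  have hp : ∀ t, p t = step t (fun x s => p s.1 x) := fun t =>
    (wellFounded_lt (α := W)).fix_eq _ t
  have hp2 : ∀ t, ∀ X ∈ U, ∃ x ∈ X, ∃ y ∈ X, (∀ s, s < t → p s x = p s y) ∧ p t x ≠ p t y := by
    intro t X hX
    obtain ⟨x, hx, y, hy, hxy, hfxy⟩ := hstep t (fun x s => p s.1 x) X hX
    refine ⟨x, hx, y, hy, fun s hs => congrFun hxy ⟨s, hs⟩, ?_⟩
    rw [hp t]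
    exact hfxy
  have hW : #(W → G₀) < κ := by
    rw [Cardinal.mk_arrow, hG₀, Cardinal.lift_id, Cardinal.lift_id, mk_ord_toType]
    refine (Cardinal.power_le_power_right (le_succ γ)).trans_lt ?_
    rw [Cardinal.power_self_eq (hγ.trans (le_succ γ))]
    exact hκ _ hs
  obtain ⟨X, hX, hX'⟩ := small_range hU hW (fun x => fun t => p t x)
  set F : I → (W → G₀) := fun x => fun t => p t x with hF
  have hdiff : ∀ ab : (F '' X) × (F '' X), ∃ s : W, ab.1.1 ≠ ab.2.1 → ab.1.1 s ≠ ab.2.1 s := by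
    intro ab
    by_cases h : ab.1.1 = ab.2.1
    · obtain ⟨s⟩ : Nonempty W := by
        rw [← mk_ne_zero_iff, mk_ord_toType]
        exact (aleph0_pos.trans_le (hγ.trans (le_succ γ))).ne'
      exact ⟨s, fun h' => absurd h h'⟩
    · obtain ⟨s, hs⟩ := Function.ne_iff.1 h
      exact ⟨s, fun _ => hs⟩
  choose d hd using hdiff
  have hreg : (succ γ).IsRegular := isRegular_succ hγ
  obtain ⟨β, hβ, hβ'⟩ := sup_lt_cof (a := (succ γ).ord) (ι := (F '' X) × (F '' X)) (by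
    rw [hreg.cof_ord, Cardinal.mk_prod, Cardinal.lift_id]
    refine lt_succ_iff.2 ((mul_le_mul' hX' hX').trans ?_)
    rw [Cardinal.mul_eq_self hγ]) (f := fun ab => ((d ab).toOrd : Ordinal)) (fun ab => (d ab).toOrd.2)
  obtain ⟨x, hx, y, hy, hxy, hfxy⟩ := hp2 (ToType.mk ⟨β, hβ⟩) X hX
  have hne2 : F x ≠ F y := fun h => hfxy (congrFun h _)
  have h3 := hd (⟨F x, mem_image_of_mem F hx⟩, ⟨F y, mem_image_of_mem F hy⟩) hne2
  have h4 := hβ' (⟨F x, mem_image_of_mem F hx⟩, ⟨F y, mem_image_of_mem F hy⟩)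
  refine h3 (hxy _ ?_)
  rw [← ToType.mk.symm.lt_iff_lt, OrderIso.symm_apply_apply]
  exact h4

end Pool.Agent.Helper801_ASC
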