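import Mathlib
import Pool.Agent.Helper801_ASC.Silver

open Cardinal Ordinal Filter Set Order

universe u

namespace Pool.Agent.Helper801_ASC

variable {I J T : Type u}

/-- Fine ultrafilters on `P_κ(S)` for a regular `δ`-strongly compact cardinal `κ`. -/
theorem exists_fine {δ κ : Cardinal.{u}} (hκ : κ.IsRegular) (h : DeltaStronglyCompact δ κ)
    (S : Type u) : ∃ W : Ultrafilter {e : Set S // #e < κ},
      CardinalInterFilter (W : Filter {e : Set S // #e < κ}) δ ∧
      ∀ s : S, ∀ᶠ e : {e : Set S // #e < κ} in (W : Filter {e : Set S // #e < κ}), s ∈ e.1 := by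
  classical
  let F : Filter {e : Set S // #e < κ} :=
    { sets := {A | ∃ s : Set S, #s < κ ∧ ∀ e : {e : Set S // #e < κ}, s ⊆ e.1 → e ∈ A}
      univ_sets := ⟨∅, by simpa using hκ.pos, fun _ _ => mem_univ _⟩
      sets_of_superset := by
        rintro A B ⟨s, hs, hs'⟩ hAB
        exact ⟨s, hs, fun e he => hAB (hs' e he)⟩
      inter_sets := by
        rintro A B ⟨s, hs, hs'⟩ ⟨t, ht, ht'⟩
        refine ⟨s ∪ t, (mk_union_le s t).trans_lt (add_lt_of_lt hκ.aleph0_le hs ht), fun e he =>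
          ⟨hs' e (subset_union_left.trans he), ht' e (subset_union_right.trans he)⟩⟩ }
  have hF : ∀ A, A ∈ F ↔ ∃ s : Set S, #s < κ ∧
    ∀ e : {e : Set S // #e < κ}, s ⊆ e.1 → e ∈ A := fun A => Iff.rfl
  have hne : F.NeBot := by
    refine ⟨fun hbot => ?_⟩
    have : (∅ : Set {e : Set S // #e < κ}) ∈ F := by rw [hbot]; exact mem_bot
    obtain ⟨s, hs, hs'⟩ := (hF _).1 this
    exact hs' ⟨s, hs⟩ Subset.rfl
  have hcomp : CardinalInterFilter F κ := by
    refine ⟨fun C hC hmem => ?_⟩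
    choose s hs hs' using fun c : C => (hF c.1).1 (hmem c.1 c.2)
    refine (hF _).2 ⟨⋃ c, s c, (card_iUnion_lt_iff_forall_of_isRegular hκ hC).2 hs, fun e he => ?_⟩
    rw [mem_sInter]
    intro A hA
    exact hs' ⟨A, hA⟩ e ((subset_iUnion s ⟨A, hA⟩).trans he)
  obtain ⟨W, hW, hW'⟩ := h.2.2 _ F hne hcomp
  refine ⟨W, hW', fun s => hW ((hF _).2 ⟨{s}, ?_, fun e he => he rfl⟩)⟩
  rw [mk_singleton]
  exact one_lt_aleph0.trans_le hκ.aleph0_le

/-- Uniform `δ`-complete ultrafilters on a regular `δ`-strongly compact cardinal. -/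
theorem exists_uniform {δ κ : Cardinal.{u}} (hκ : κ.IsRegular) (h : DeltaStronglyCompact δ κ)
    (K : Type u) (hK : #K = κ) : ∃ U : Ultrafilter K,
      CardinalInterFilter (U : Filter K) δ ∧ ∀ A : Set K, #A < κ → A ∉ U := by
  have hne : (cocardinal K hκ).NeBot := by
    refine ⟨fun hbot => ?_⟩
    have : (∅ : Set K) ∈ cocardinal K hκ := by rw [hbot]; exact mem_bot
    rw [mem_cocardinal, compl_empty, mk_univ, hK] at this
    exact lt_irrefl _ this
  obtain ⟨U, hU, hU'⟩ := h.2.2 _ (cocardinal K hκ) hne inferInstance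
  refine ⟨U, hU', fun A hA hmem => ?_⟩
  have h1 : Aᶜ ∈ U := hU (by rw [mem_cocardinal, compl_compl]; exact hA)
  exact Ultrafilter.compl_notMem_iff.2 hmem h1

/-- If `κ` is regular and `ω₁`-strongly compact and all sets of size less than `κ` have
countably complete `(ρ, ·)`-regular ultrafilters, then `max ρ ℵ₁` is `ω₁`-strongly compact. -/
theorem omegaOne_of_reg {κ ρ : Cardinal.{u}} (hκ : κ.IsRegular) (h : OmegaOneStronglyCompact κ)
    (hreg : ∀ T : Type u, #T < κ → ∃ (X : Type u) (U : Ultrafilter X),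
      CardinalInterFilter (U : Filter X) ℵ₁ ∧ RegUF U ρ T) :
    OmegaOneStronglyCompact (max ρ ℵ₁) := by
  classical
  refine ⟨h.1, le_max_right _ _, fun I F hF hcomp => ?_⟩
  obtain ⟨W, hW, hfine⟩ := exists_fine hκ h {A : Set I // A ∈ F}
  have h1 : ∀ e : {e : Set {A : Set I // A ∈ F} // #e < κ}, ∃ V : Ultrafilter I,
      CardinalInterFilter (V : Filter I) ℵ₁ ∧ ∀ A ∈ e.1, A.1 ∈ V := by
    intro e
    obtain ⟨X, U, hU, r, hr1, hr2⟩ := hreg e.1 e.2
    have h2 : ∀ x, ∃ i : I, ∀ A ∈ r x, i ∈ A.1.1 := by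
      intro x
      have h3 : ⋂₀ ((fun A : e.1 => A.1.1) '' (r x)) ∈ F := by
        refine hcomp.cardinal_sInter_mem _ ?_ ?_
        · exact (mk_image_le.trans_lt (hr1 x)).trans_le (le_max_left _ _)
        · rintro _ ⟨A, -, rfl⟩
          exact A.1.2
      obtain ⟨i, hi⟩ := hF.nonempty_of_mem h3
      exact ⟨i, fun A hA => hi _ ⟨A, hA, rfl⟩⟩
    choose g hg using h2
    refine ⟨U.map g, cif_map hU g, fun A hA => ?_⟩
    rw [Ultrafilter.mem_map]
    filter_upwards [hr2 ⟨A, hA⟩] with x hx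
    exact hg x _ hx
  choose V hV1 hV2 using h1
  refine ⟨W.bind V, fun A hA => ?_, cif_bind hW (Filter.Eventually.of_forall hV1)⟩
  rw [Ultrafilter.mem_coe, mem_bind]
  filter_upwards [hfine ⟨A, hA⟩] with e he
  exact hV2 e _ he

/-- A cardinal `κ` which is `δ`-strongly compact for some `δ > cf(κ)` and is the least
`ω₁`-strongly compact cardinal is regular. -/
theorem isRegular_of_least {κ : Cardinal.{u}} (hκ : AlmostStronglyCompact κ)
    (hleast : ∀ μ < κ, ¬ OmegaOneStronglyCompact μ) : κ.IsRegular := by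
  classical
  have hinf : ℵ₀ ≤ κ := (aleph0_lt_aleph_one.trans hκ.1).le
  rcases isRegular_or_isSingular hinf with hr | hs
  · exact hr
  exfalso
  obtain ⟨C, c, hC, hc1, hc2⟩ := exists_cofinal_fun κ.ord
  have hcof : κ.ord.cof < κ := lt_of_le_of_ne (cof_ord_le κ) hs.cof_ord_ne
  have hlim : IsSuccLimit κ := hs.isSuccLimit
  -- the bad filters
  have hbad : ∀ i : C, ∃ (J : Type u) (F : Filter J), F.NeBot ∧
      CardinalInterFilter F (max ℵ₁ (c i).card) ∧ ∀ U : Ultrafilter J, (U : Filter J) ≤ F →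
        ¬ CardinalInterFilter (U : Filter J) ℵ₁ := by
    intro i
    by_contra hcon
    refine hleast (max ℵ₁ (c i).card) (max_lt hκ.1 (lt_ord.1 (hc1 i))) ⟨aleph0_lt_aleph_one,
      le_max_left _ _, fun J F hF hF' => ?_⟩
    by_contra hcon2
    refine hcon ⟨J, F, hF, hF', fun U hU hU' => hcon2 ⟨U, hU, hU'⟩⟩
  choose J F hF1 hF2 hF3 using hbad
  have : ∀ i, (F i).NeBot := hF1
  -- the product filter
  let B : (∀ i, Set (J i)) → Set (∀ i, J i) := fun Y =>
    {s | ∃ β < κ.ord, ∀ i, β ≤ c i → s i ∈ Y i}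
  have hBmono : ∀ Y Z : ∀ i, Set (J i), (∀ i, Y i ⊆ Z i) → B Y ⊆ B Z := by
    rintro Y Z h s ⟨β, hβ, hβ'⟩
    exact ⟨β, hβ, fun i hi => h i (hβ' i hi)⟩
  let G : Filter (∀ i, J i) :=
    { sets := {A | ∃ Y : ∀ i, Set (J i), (∀ i, Y i ∈ F i) ∧ B Y ⊆ A}
      univ_sets := ⟨fun _ => univ, fun _ => Filter.univ_mem, subset_univ _⟩
      sets_of_superset := by
        rintro A A' ⟨Y, hY, hY'⟩ h
        exact ⟨Y, hY, hY'.trans h⟩
      inter_sets := by
        rintro A A' ⟨Y, hY, hY'⟩ ⟨Z, hZ, hZ'⟩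
        refine ⟨fun i => Y i ∩ Z i, fun i => Filter.inter_mem (hY i) (hZ i), fun s hs => ?_⟩
        exact ⟨hY' (hBmono _ _ (fun i => inter_subset_left) hs),
          hZ' (hBmono _ _ (fun i => inter_subset_right) hs)⟩ }
  have hG : ∀ A, A ∈ G ↔ ∃ Y : ∀ i, Set (J i), (∀ i, Y i ∈ F i) ∧ B Y ⊆ A := fun A => Iff.rfl
  have h0 : (0 : Ordinal) < κ.ord := by
    exact (isSuccLimit_ord hinf).bot_lt
  have hGne : G.NeBot := by
    refine ⟨fun hbot => ?_⟩
    have : (∅ : Set (∀ i, J i)) ∈ G := by rw [hbot]; exact mem_bot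
    obtain ⟨Y, hY, hY'⟩ := (hG _).1 this
    choose s hs using fun i => (F i).nonempty_of_mem (hY i)
    exact hY' (⟨0, h0, fun i _ => hs i⟩ : s ∈ B Y)
  have hGcomp : CardinalInterFilter G κ := by
    refine ⟨fun S hS hmem => ?_⟩
    choose Y hY hY' using fun t : S => (hG t.1).1 (hmem t.1 t.2)
    refine (hG _).2 ⟨fun i => if #S < (c i).card then ⋂ t, Y t i else univ, fun i => ?_, ?_⟩
    · dsimp only
      split_ifs with h
      · have := hF2 i
        exact (cardinal_iInter_mem (h.trans_le (le_max_right ℵ₁ _))).2 (fun t => hY t i)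
      · exact Filter.univ_mem
    · rintro s ⟨β, hβ, hβ'⟩
      rw [mem_sInter]
      intro A hA
      refine hY' ⟨A, hA⟩ ⟨max β (succ #S).ord, max_lt hβ (ord_lt_ord.2 (hlim.succ_lt hS)),
        fun i hi => ?_⟩
      have h1 := hβ' i ((le_max_left _ _).trans hi)
      have h2 : #S < (c i).card := by
        rw [← succ_le_iff, ← ord_le]
        exact (le_max_right _ _).trans hi
      simp only [h2, if_true, mem_iInter] at h1
      exact h1 _
  -- the extension
  have hδ : max ℵ₁ (succ κ.ord.cof) < κ := max_lt hκ.1 (hlim.succ_lt hcof)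
  obtain ⟨U, hU, hU'⟩ := (hκ.2 _ (aleph0_lt_aleph_one.trans_le (le_max_left _ _)) hδ).2.2 _ G hGne
    hGcomp
  have h1 : ∀ i, ∃ Y ∈ F i, ∀ᶠ s : (∀ i, J i) in (U : Filter (∀ i, J i)), s i ∉ Y := by
    intro i
    by_contra hcon
    push Not at hcon
    refine hF3 i (U.map (fun s => s i)) (fun Y hY => ?_) (cif_map (cif_mono hU' (le_max_left _ _)) _)
    have := hcon Y hY
    exact this
  choose Y hY hY' using h1
  have h2 : ∀ᶠ s : (∀ i, J i) in (U : Filter (∀ i, J i)), ∀ i, s i ∉ Y i :=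
    ev_forall hU' (by rw [hC]; exact (lt_succ _).trans_le (le_max_right _ _)) hY'
  have h3 : ∀ᶠ s : (∀ i, J i) in (U : Filter (∀ i, J i)), s ∈ B Y := hU ((hG _).2 ⟨Y, hY, Subset.rfl⟩)
  obtain ⟨s, hs1, β, hβ, hβ'⟩ := (h2.and h3).exists
  obtain ⟨i, hi⟩ := hc2 β hβ
  exact hs1 i (hβ' i hi)

/-- A regular limit cardinal which is almost strongly compact is a strong limit cardinal. -/
theorem strongLimit_of_limit {κ : Cardinal.{u}} (hκ : AlmostStronglyCompact κ)
    (hreg : κ.IsRegular) (hlim : IsSuccLimit κ) : ∀ c < κ, 2 ^ c < κ := by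
  classical
  intro c hc
  by_contra hcon
  rw [not_lt] at hcon
  have hδ : max ℵ₁ (succ c) < κ := max_lt hκ.1 (hlim.succ_lt hc)
  obtain ⟨U, hU, hU'⟩ := exists_uniform hreg
    (hκ.2 _ (aleph0_lt_aleph_one.trans_le (le_max_left _ _)) hδ) κ.ord.ToType (mk_ord_toType κ)
  have h1 : #κ.ord.ToType ≤ #(Set c.ord.ToType) := by
    rw [mk_set, mk_ord_toType, mk_ord_toType]
    exact hcon
  obtain ⟨e⟩ : Nonempty (κ.ord.ToType ↪ Set c.ord.ToType) := h1
  have h2 : ∀ t : c.ord.ToType, ∃ b : Prop, ∀ᶠ x in U, (t ∈ e x) = b := by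
    intro t
    by_cases h : ∀ᶠ x in U, t ∈ e x
    · exact ⟨True, by filter_upwards [h] with x hx using eq_true hx⟩
    · exact ⟨False, by
        filter_upwards [Ultrafilter.eventually_not.2 h] with x hx using eq_false hx⟩
  choose b hb using h2
  have h3 : ∀ᶠ x in U, ∀ t, (t ∈ e x) = b t :=
    ev_forall hU (by rw [mk_ord_toType]; exact (lt_succ _).trans_le (le_max_right _ _)) hb
  refine hU' {x | ∀ t, (t ∈ e x) = b t} ?_ h3
  have h4 : Set.Subsingleton {x | ∀ t, (t ∈ e x) = b t} := by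
    intro x hx y hy
    apply e.injective
    ext t
    rw [hx t, hy t]
  refine (mk_le_one_iff_set_subsingleton.2 h4).trans_lt ?_
  exact one_lt_aleph0.trans_le hreg.aleph0_le

end Pool.Agent.Helper801_ASC
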