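import Mathlib
import Pool.Agent.Helper801_ASC.Fine

open Cardinal Ordinal Filter Set Order

universe u

namespace Pool.Agent.Helper801_ASC

variable {I J T : Type u}

theorem mk_initial_le {K : Type u} {o : Ordinal.{u}} {e : K → o.ToType}
    (he : Function.Injective e) (α : Ordinal.{u}) :
    #{k | ((e k).toOrd : Ordinal) < α} ≤ α.card := by
  rw [← mk_toType]
  refine Cardinal.mk_le_of_injective
    (f := fun t => ToType.mk ⟨((e t.1).toOrd : Ordinal), t.2⟩) ?_
  intro s t hst
  have := congrArg (fun z => (z.toOrd : Ordinal)) hst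
  simp only [OrderIso.symm_apply_apply] at this
  have h3 := Subtype.ext this
  have h4 := ToType.mk.symm.injective h3
  exact Subtype.ext (he h4)

/-- The key amalgamation argument: let `κ` be an almost strongly compact inaccessible cardinal. If
`U` is a uniform ultrafilter on a set `K` of cardinality `κ` such that every function on `K` with
small range factors modulo `U` through one function `p` with small range, then there is a
`κ`-complete nonprincipal ultrafilter on `K`. -/
theorem measurable_of_factor {κ : Cardinal.{u}} (hκ : AlmostStronglyCompact κ)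
    (hreg : κ.IsRegular) (hsl : ∀ c < κ, 2 ^ c < κ) {K : Type u}
    {U : Ultrafilter K} (hU : ∀ A : Set K, #A < κ → A ∉ U) {G : Type u} (p : K → G)
    (hG : #G < κ) (hp : ∀ (T : Type u) (f : K → T), #T < κ →
      ∃ X ∈ U, ∀ x ∈ X, ∀ y ∈ X, p x = p y → f x = f y) :
    ∃ V : Ultrafilter K, CardinalInterFilter (V : Filter K) κ ∧ ∀ x, {x} ∉ V := by
  classical
  have h2G : 2 ^ #G < κ := hsl _ hG
  have hδ : max ℵ₁ (succ (2 ^ #G)) < κ := by
    refine max_lt hκ.1 ?_
    exact (succ_le_of_lt (cantor _)).trans_lt (hsl _ h2G)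
  obtain ⟨W, hW, hfine⟩ := exists_fine hreg
    (hκ.2 _ (aleph0_lt_aleph_one.trans_le (le_max_left _ _)) hδ) (Set K)
  set D : Ultrafilter G := U.map p with hD
  -- the choice functions
  have hα : ∀ e : {e : Set (Set K) // #e < κ}, ∃ α : G → K, (∀ᶠ g in D, p (α g) = g) ∧
      ∀ X ∈ e.1, X ∈ U → ∀ᶠ g in D, α g ∈ X := by
    intro e
    obtain ⟨Y, hY, hY'⟩ := hp (Set e.1) (fun x => {X | x ∈ X.1}) (by
      rw [mk_set]; exact hsl _ e.2)
    obtain ⟨k₀, -⟩ := U.nonempty_of_mem hY
    refine ⟨fun g => if h : ∃ y ∈ Y, p y = g then h.choose else k₀, ?_, fun X hX hXU => ?_⟩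
    · have h1 : p '' Y ∈ D := by
        rw [hD, Ultrafilter.mem_map]
        exact Filter.mem_of_superset hY (subset_preimage_image _ _)
      filter_upwards [h1] with g hg
      have hg' : ∃ y ∈ Y, p y = g := hg
      simp only [hg', dite_true]
      exact hg'.choose_spec.2
    · have h1 : p '' (X ∩ Y) ∈ D := by
        rw [hD, Ultrafilter.mem_map]
        exact Filter.mem_of_superset (Filter.inter_mem hXU hY) (subset_preimage_image _ _)
      filter_upwards [h1] with g hg
      obtain ⟨x, hx, hxg⟩ := hg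
      have hg' : ∃ y ∈ Y, p y = g := ⟨x, hx.2, hxg⟩
      simp only [hg', dite_true]
      have h2 := hg'.choose_spec
      have h3 := hY' _ h2.1 x hx.2 (h2.2.trans hxg.symm)
      have h4 : (⟨X, hX⟩ : e.1) ∈ {X : e.1 | x ∈ X.1} := hx.1
      rw [← h3] at h4
      exact h4
  choose α hα1 hα2 using hα
  have hconst : ∀ Q : {e : Set (Set K) // #e < κ} → G → Prop,
      (∀ᶠ e in W, ∀ᶠ g in D, Q e g) → ∀ᶠ g in D, ∀ᶠ e in W, Q e g := by
    intro Q hQ
    obtain ⟨A, hA⟩ := ultra_const hW (T := Set G) (by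
      rw [mk_set]; exact (lt_succ _).trans_le (le_max_right _ _)) (fun e => {g | Q e g})
    obtain ⟨e, he1, he2⟩ := (hA.and hQ).exists
    have hAD : A ∈ D := by rw [← he1]; exact he2
    filter_upwards [hAD] with g hg
    filter_upwards [hA] with e he
    rw [← he] at hg
    exact hg
  let V : G → Ultrafilter K := fun g => W.map (fun e => α e g)
  have hV : ∀ g X, X ∈ V g ↔ ∀ᶠ e in W, α e g ∈ X := fun g X => Iff.rfl
  have c1 : ∀ X ∈ U, ∀ᶠ g in D, X ∈ V g := by
    intro X hX
    refine hconst (fun e g => α e g ∈ X) ?_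
    filter_upwards [hfine X] with e he
    exact hα2 e X he hX
  have c2 : ∀ᶠ g in D, {x | p x = g} ∈ V g :=
    hconst (fun e g => p (α e g) = g) (Filter.Eventually.of_forall hα1)
  -- completeness
  have c3 : ∀ᶠ g in D, CardinalInterFilter (V g : Filter K) κ := by
    by_contra hcon
    have hcon' : ∀ᶠ g in D, ¬ CardinalInterFilter (V g : Filter K) κ :=
      Ultrafilter.eventually_not.2 hcon
    have hS : ∀ g, ∃ S : Set (Set K), #S < κ ∧ (¬ CardinalInterFilter (V g : Filter K) κ →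
        (∀ s ∈ S, s ∈ V g) ∧ ⋂₀ S ∉ V g) := by
      intro g
      by_cases h : CardinalInterFilter (V g : Filter K) κ
      · exact ⟨∅, by simpa using hreg.pos, fun h' => absurd h h'⟩
      · have : ∃ S : Set (Set K), #S < κ ∧ (∀ s ∈ S, s ∈ V g) ∧ ⋂₀ S ∉ V g := by
          by_contra h2
          refine h ⟨fun S hS hS' => ?_⟩
          by_contra h3
          exact h2 ⟨S, hS, hS', h3⟩
        obtain ⟨S, hS1, hS2⟩ := this
        exact ⟨S, hS1, fun _ => hS2⟩
    choose S hS1 hS2 using hS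
    let f : K → Option (Σ g : G, S g) := fun x =>
      if h : ∃ s : S (p x), x ∉ s.1 then some ⟨p x, h.choose⟩ else none
    have hT : #(Option (Σ g : G, S g)) < κ := by
      rw [mk_option, mk_sigma]
      exact add_lt_of_lt hreg.aleph0_le (sum_lt_of_isRegular hreg hG hS1)
        (one_lt_aleph0.trans_le hreg.aleph0_le)
    obtain ⟨Y, hY, hY'⟩ := hp _ f hT
    obtain ⟨g, hg1, hg2, hg3⟩ := ((c1 Y hY).and (c2.and hcon')).exists
    obtain ⟨hS3, hS4⟩ := hS2 g hg3
    have h5 : (⋂₀ S g)ᶜ ∈ V g := Ultrafilter.compl_mem_iff_notMem.2 hS4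
    have h6 := Filter.inter_mem (Filter.inter_mem hg1 hg2) h5
    obtain ⟨x, ⟨hx1, hx2⟩, hx3⟩ := (V g).nonempty_of_mem h6
    have hx2' : p x = g := hx2
    have key : ∀ y, y ∈ Y → p y = g → y ∉ ⋂₀ S g → ∃ s : S g, f y = some ⟨g, s⟩ ∧ y ∉ s.1 := by
      intro y _ hyg hyS
      subst hyg
      have h7 : ∃ s : S (p y), y ∉ s.1 := by
        rw [mem_sInter] at hyS
        push Not at hyS
        obtain ⟨s, hs, hs'⟩ := hyS
        exact ⟨⟨s, hs⟩, hs'⟩
      refine ⟨h7.choose, ?_, h7.choose_spec⟩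
      simp only [f, h7, dite_true]
    obtain ⟨s, hs1, hs2⟩ := key x hx1 hx2' hx3
    obtain ⟨y, ⟨⟨hy1, hy2⟩, hy3⟩, hy4⟩ := (V g).nonempty_of_mem (Filter.inter_mem h6
      (hS3 s.1 s.2))
    obtain ⟨s', hs1', hs2'⟩ := key y hy1 hy2 hy3
    have h8 := hY' x hx1 y hy1 (hx2'.trans (Eq.symm hy2))
    rw [hs1, hs1'] at h8
    have h9 : s = s' := by simpa using h8
    rw [← h9] at hs2'
    exact hs2' hy4
  -- nonprincipality
  have c4 : ∀ᶠ g in D, ∀ x, {x} ∉ V g := by
    by_contra hcon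
    have hcon' : ∀ᶠ g in D, ¬ ∀ x, {x} ∉ V g := Ultrafilter.eventually_not.2 hcon
    have hx : ∀ g, ∃ x, (¬ ∀ x, {x} ∉ V g) → {x} ∈ V g := by
      intro g
      by_cases h : ∀ x, {x} ∉ V g
      · obtain ⟨x, -⟩ := U.nonempty_of_mem Filter.univ_mem
        exact ⟨x, fun h' => absurd h h'⟩
      · push Not at h
        obtain ⟨x, hx⟩ := h
        exact ⟨x, fun _ => hx⟩
    choose x hx using hx
    have h1 : (range x)ᶜ ∈ U :=
      Ultrafilter.compl_mem_iff_notMem.2 (hU _ (mk_range_le.trans_lt hG))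
    obtain ⟨g, hg1, hg2⟩ := ((c1 _ h1).and hcon').exists
    have h2 := hx g hg2
    obtain ⟨y, hy1, hy2⟩ := (V g).nonempty_of_mem (Filter.inter_mem hg1 h2)
    exact hy1 ⟨g, (mem_singleton_iff.1 hy2).symm⟩
  obtain ⟨g, hg1, hg2⟩ := (c3.and c4).exists
  exact ⟨V g, hg1, hg2⟩

/-- An almost strongly compact limit cardinal `κ` which carries a `κ`-complete nonprincipal
ultrafilter is strongly compact. -/
theorem stronglyCompact_of_measurable {κ : Cardinal.{u}} (hκ : AlmostStronglyCompact κ)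
    (hlim : IsSuccLimit κ) {K : Type u} (hK : #K = κ) {V : Ultrafilter K}
    (hV : CardinalInterFilter (V : Filter K) κ) (hV' : ∀ x, {x} ∉ V) : StronglyCompact κ := by
  classical
  refine ⟨aleph0_lt_aleph_one.trans hκ.1, le_rfl, fun I F hF hF' => ?_⟩
  obtain ⟨e⟩ : Nonempty (K ≃ κ.ord.ToType) := by
    rw [← Cardinal.eq, hK, mk_ord_toType]
  have hsmall : ∀ A : Set K, #A < κ → A ∉ V := by
    intro A hA hmem
    have h1 : ∀ᶠ x in V, ∀ a : A, x ≠ a.1 := by
      refine ev_forall hV hA (fun a => ?_)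
      have := Ultrafilter.compl_mem_iff_notMem.2 (hV' a.1)
      filter_upwards [this] with x hx
      exact hx
    obtain ⟨x, hx1, hx2⟩ := (h1.and hmem).exists
    exact hx1 ⟨x, hx2⟩ rfl
  have hex : ∀ k : K, ∃ U : Ultrafilter I, (U : Filter I) ≤ F ∧
      CardinalInterFilter (U : Filter I) (succ ((e k).toOrd : Ordinal).card) := by
    intro k
    have hδ : max ℵ₁ (succ ((e k).toOrd : Ordinal).card) < κ :=
      max_lt hκ.1 (hlim.succ_lt (lt_ord.1 (e k).toOrd.2))
    obtain ⟨U, hU, hU'⟩ := (hκ.2 _ (aleph0_lt_aleph_one.trans_le (le_max_left _ _)) hδ).2.2 I F hF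
      hF'
    exact ⟨U, hU, cif_mono hU' (le_max_right _ _)⟩
  choose U hU1 hU2 using hex
  refine ⟨V.bind U, fun A hA => ?_, ?_⟩
  · rw [Ultrafilter.mem_coe, mem_bind]
    exact Filter.Eventually.of_forall fun k => hU1 k hA
  · refine ⟨fun S hS hmem => ?_⟩
    rw [Ultrafilter.mem_coe, mem_bind]
    have h1 : ∀ᶠ k in V, ∀ s : S, s.1 ∈ U k := ev_forall hV hS (fun s => hmem s.1 s.2)
    have h2 : ∀ᶠ k in V, #S < succ ((e k).toOrd : Ordinal).card := by
      have h3 : {k | ((e k).toOrd : Ordinal) < (#S).ord}ᶜ ∈ V := by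
        refine Ultrafilter.compl_mem_iff_notMem.2 (hsmall _ ?_)
        refine lt_of_le_of_lt (mk_initial_le e.injective _) ?_
        rwa [card_ord]
      filter_upwards [h3] with k hk
      have hk' : (#S).ord ≤ ((e k).toOrd : Ordinal) := not_lt.1 hk
      exact lt_succ_iff.2 (ord_le.1 hk')
    filter_upwards [h1, h2] with k hk1 hk2
    exact (hU2 k).cardinal_sInter_mem S hk2 (fun s hs => hk1 ⟨s, hs⟩)

/-- An almost strongly compact inaccessible cardinal which carries a uniform ultrafilter that is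
not `lam`-decomposable for `γ < lam < κ` is strongly compact. -/
theorem stronglyCompact_of_indecomposable {κ : Cardinal.{u}} (hκ : AlmostStronglyCompact κ)
    (hreg : κ.IsRegular) (hlim : IsSuccLimit κ) {K : Type u} (hK : #K = κ) {U : Ultrafilter K}
    (hU : ∀ A : Set K, #A < κ → A ∉ U) {γ : Cardinal.{u}} (hγκ : γ < κ)
    (hdec : ∀ lam, γ < lam → lam < κ → ¬ Decomp U lam) : StronglyCompact κ := by
  have hsl := strongLimit_of_limit hκ hreg hlim
  obtain ⟨G, p, hG, hp⟩ := silver (γ := max ℵ₀ γ) (le_max_left _ _)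
    (max_lt (aleph0_lt_aleph_one.trans hκ.1) hγκ) hsl
    (fun lam h1 h2 => hdec lam ((le_max_right _ _).trans_lt h1) h2)
  obtain ⟨V, hV1, hV2⟩ := measurable_of_factor hκ hreg hsl hU p hG hp
  exact stronglyCompact_of_measurable hκ hlim hK hV1 hV2

end Pool.Agent.Helper801_ASC
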