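import Mathlib
import Pool.Agent.Helper801_ASC.Defs

/-!
# The least cardinal above a given one which carries a uniform complete ultrafilter
-/

open Cardinal Ordinal Set

universe u

namespace Pool.Agent.Helper801_ASC

/-- `lam` is the least cardinal `≥ θ` which carries a uniform `δ`-complete ultrafilter, and it is
either weakly inaccessible (a regular limit cardinal), or one of `η`, `η⁺` for a singular cardinal
`η` whose cofinality is in the interval `[δ, θ)` and carries a uniform `δ`-complete
ultrafilter. -/
def FirstUniform (δ θ lam : Cardinal.{u}) : Prop :=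
  IsLeast {μ : Cardinal.{u} | θ ≤ μ ∧ CarriesUniform δ μ} lam ∧
  ((lam.IsRegular ∧ Order.IsSuccLimit lam) ∨
    ∃ η : Cardinal.{u}, η.IsSingular ∧ δ ≤ η.ord.cof ∧ η.ord.cof < θ ∧
      CarriesUniform δ η.ord.cof ∧ (lam = η ∨ lam = Order.succ η))

end Pool.Agent.Helper801_ASC
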