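import Mathlib
import Pool.Agent.Helper801_ASC.Defs

/-!
# Lists on `P_κ(lam)`: definitions
-/

open Cardinal Ordinal Set

universe u

namespace Pool.Agent.Helper801_ASC

/-- `P_κ(lam)`: the subsets of (the set of ordinals below) `lam` of cardinality less than `κ`. -/
abbrev PK (κ lam : Cardinal.{u}) : Type u := {a : Set lam.ord.ToType // #a < κ}

/-- The set of the traces on `b` of the members of the list `d`: all sets `d a ∩ b` where
`a ⊇ b`. -/
def traces {κ lam : Cardinal.{u}} (d : PK κ lam → Set lam.ord.ToType) (b : PK κ lam) :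
    Set (Set lam.ord.ToType) :=
  {t | ∃ a : PK κ lam, b.1 ⊆ a.1 ∧ t = d a ∩ b.1}

/-- `D` is a cofinal branch of the list `d`: every restriction of `D` to a member `b` of `P_κ(lam)`
is a trace of the list on `b`. -/
def IsCofinalBranch {κ lam : Cardinal.{u}} (d : PK κ lam → Set lam.ord.ToType)
    (D : Set lam.ord.ToType) : Prop :=
  ∀ b : PK κ lam, D ∩ b.1 ∈ traces d b

/-- `C` is a closed unbounded subset of `P_κ(lam)`: it is cofinal under inclusion, and the
union of a nonempty chain of fewer than `κ` members of `C` is in `C`. -/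
def IsClubPK {κ lam : Cardinal.{u}} (C : Set (PK κ lam)) : Prop :=
  (∀ a : PK κ lam, ∃ c ∈ C, a.1 ⊆ c.1) ∧
  ∀ X : Set (PK κ lam), X ⊆ C → X.Nonempty → #X < κ →
    (∀ a ∈ X, ∀ b ∈ X, a.1 ⊆ b.1 ∨ b.1 ⊆ a.1) → ∃ c ∈ C, c.1 = ⋃ a ∈ X, a.1

/-- `S` is a stationary subset of `P_κ(lam)`: it meets every closed unbounded subset. -/
def IsStationaryPK {κ lam : Cardinal.{u}} (S : Set (PK κ lam)) : Prop :=
  ∀ C : Set (PK κ lam), IsClubPK C → (S ∩ C).Nonempty

/-- The intersection of `b` with `κ` is the (initial ordinal of the) cardinal `θ < κ`. -/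
def MeetIs {κ lam : Cardinal.{u}} (b : PK κ lam) (θ : Cardinal.{u}) : Prop :=
  θ < κ ∧ ∀ x : lam.ord.ToType, (x.toOrd : Ordinal) < κ.ord →
    (x ∈ b.1 ↔ (x.toOrd : Ordinal) < θ.ord)

end Pool.Agent.Helper801_ASC
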