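import Mathlib
import Pool.Agent.Helper801_ASC.Amalg

open Cardinal Ordinal Filter Set Order

universe u

namespace Pool.Agent.Helper801_ASC

variable {I J T : Type u}

/-- The set of nonzero ordinals below `κ` which are closed under the binary function `H`. -/
def ClosedUnder (κ : Cardinal.{u}) (H : Ordinal.{u} → Ordinal.{u} → Ordinal.{u}) :
    Set Ordinal.{u} :=
  {β | β < κ.ord ∧ β ≠ 0 ∧ ∀ ε < β, ∀ α < β, H ε α < β}

theorem isClubBelow_closedUnder {κ : Cardinal.{u}} (hκ : κ.IsRegular) (hκ' : ℵ₀ < κ)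
    {H : Ordinal.{u} → Ordinal.{u} → Ordinal.{u}}
    (hH : ∀ ε < κ.ord, ∀ α < κ.ord, H ε α < κ.ord) : IsClubBelow κ (ClosedUnder κ H) := by
  classical
  have hlim : IsSuccLimit κ.ord := isSuccLimit_ord hκ.aleph0_le
  refine ⟨fun α hα => hα.1, fun α hα => ?_, fun γ hγ hγ0 h => ⟨hγ, hγ0, fun ε hε α hα => ?_⟩⟩
  · -- unboundedness
    have step : ∀ γ < κ.ord, ∃ γ' < κ.ord, γ < γ' ∧ ∀ ε < γ, ∀ α < γ, H ε α < γ' := by
      intro γ hγ
      obtain ⟨β, hβ, hβ'⟩ := sup_lt_cof (a := κ.ord) (ι := γ.ToType × γ.ToType) (by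
        rw [hκ.cof_ord, mk_prod, Cardinal.lift_id, mk_toType]
        exact mul_lt_of_lt hκ.aleph0_le (lt_ord.1 hγ) (lt_ord.1 hγ))
        (f := fun p => H (p.1.toOrd : Ordinal) (p.2.toOrd : Ordinal))
        (fun p => hH _ (p.1.toOrd.2.trans hγ) _ (p.2.toOrd.2.trans hγ))
      refine ⟨max β (succ γ), max_lt hβ (hlim.succ_lt hγ), lt_max_of_lt_right (lt_succ γ),
        fun ε hε α hα => lt_max_of_lt_left ?_⟩
      have := hβ' (ToType.mk ⟨ε, hε⟩, ToType.mk ⟨α, hα⟩)
      simpa only [OrderIso.symm_apply_apply] using this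
    choose! s hs1 hs2 hs3 using step
    let b : ℕ → Ordinal.{u} := fun n => Nat.rec (succ α) (fun _ x => s x) n
    have hb0 : b 0 = succ α := rfl
    have hbs : ∀ n, b (n + 1) = s (b n) := fun n => rfl
    have hb : ∀ n, b n < κ.ord := by
      intro n
      induction n with
      | zero => exact hlim.succ_lt hα
      | succ n ih => rw [hbs]; exact hs1 _ ih
    obtain ⟨β, hβ, hβ'⟩ := sup_lt_cof (a := κ.ord) (ι := ULift.{u} ℕ)
      (by rw [hκ.cof_ord]; simpa using hκ') (f := fun n => b n.down) (fun n => hb _)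
    have hne : {β | ∀ n, b n < β}.Nonempty := ⟨β, fun n => hβ' ⟨n⟩⟩
    obtain ⟨β', hβ1, hβ2⟩ := (wellFounded_lt (α := Ordinal.{u})).has_min {β | ∀ n, b n < β} hne
    have hβ3 : β' ≤ β := not_lt.1 (hβ2 β (fun n => hβ' ⟨n⟩))
    have hmono : ∀ n, b n < b (n + 1) := fun n => by rw [hbs]; exact hs2 _ (hb n)
    have hb4 : ∀ ε < β', ∃ n, ε < b n := by
      intro ε hε
      by_contra hcon
      push Not at hcon
      exact hβ2 ε (fun n => (hmono n).trans_le (hcon (n + 1))) hε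
    have hmono' : StrictMono b := strictMono_nat_of_lt_succ hmono
    refine ⟨β', ⟨hβ3.trans_lt hβ, (pos_of_gt (hβ1 0)).ne', fun ε hε α' hα' => ?_⟩,
      (lt_succ α).trans (hβ1 0)⟩
    obtain ⟨n, hn⟩ := hb4 ε hε
    obtain ⟨m, hm⟩ := hb4 α' hα'
    have h1 : ε < b (max n m) := hn.trans_le (hmono'.monotone (le_max_left _ _))
    have h2 : α' < b (max n m) := hm.trans_le (hmono'.monotone (le_max_right _ _))
    refine lt_trans ?_ (hβ1 (max n m + 1))
    rw [hbs]
    exact hs3 _ (hb _) ε h1 α' h2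
  · obtain ⟨β, hβ, hβ1, hβ2⟩ := h (max ε α) (max_lt hε hα)
    exact (hβ.2.2 ε ((le_max_left _ _).trans_lt hβ1) α ((le_max_right _ _).trans_lt hβ1)).trans hβ2

theorem ClosedUnder.mono {κ : Cardinal.{u}} {H H' : Ordinal.{u} → Ordinal.{u} → Ordinal.{u}}
    (h : ∀ ε α, H ε α ≤ H' ε α) : ClosedUnder κ H' ⊆ ClosedUnder κ H := by
  rintro β ⟨h1, h2, h3⟩
  exact ⟨h1, h2, fun ε hε α hα => (h ε α).trans_lt (h3 ε hε α hα)⟩

/-- `no small cardinal has regular ultrafilters at unboundedly many places`: if `κ` is the least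
`ω₁`-strongly compact cardinal, then for every `ρ < κ` there is a bound `b < κ` on the cardinals
`θ < κ` for which there are countably complete `(ρ, θ)`-regular ultrafilters. -/
theorem exists_bound {κ : Cardinal.{u}} (hreg : κ.IsRegular) (h1 : ℵ₁ < κ)
    (hκ : OmegaOneStronglyCompact κ) (hleast : ∀ μ < κ, ¬ OmegaOneStronglyCompact μ)
    (ρ : Cardinal.{u}) (hρ : ρ < κ) :
    ∃ b < κ, ∀ (T : Type u), #T < κ → ∀ (X : Type u) (U : Ultrafilter X),
      CardinalInterFilter (U : Filter X) ℵ₁ → RegUF U ρ T → #T < b := by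
  by_contra hcon
  refine hleast _ (max_lt hρ h1) (omegaOne_of_reg hreg hκ fun T hT => ?_)
  by_contra h2
  refine hcon ⟨#T, hT, fun T' hT' X U hU hr => ?_⟩
  by_contra h3
  exact h2 ⟨X, U, hU, hr.mono (not_lt.1 h3)⟩

end Pool.Agent.Helper801_ASC
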