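import Mathlib
import Pool.Agent.Helper801_ASC.Club

open Cardinal Ordinal Filter Set Order

universe u

namespace Pool.Agent.Helper801_ASC

variable {I J T : Type u}

/-- The ordinal `o` carries a cofinal countably complete ultrafilter. -/
def CarriesCof (o : Ordinal.{u}) : Prop :=
  ∃ (J : Type u) (V : Ultrafilter J) (g : J → Ordinal.{u}),
    CardinalInterFilter (V : Filter J) ℵ₁ ∧ (∀ᶠ j in V, g j < o) ∧ ∀ α < o, ∀ᶠ j in V, α ≤ g j

/-- Cofinal countably complete ultrafilters on the well-order `K`. -/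
def CofUF {K : Type u} [LinearOrder K] (U : Ultrafilter K) : Prop :=
  CardinalInterFilter (U : Filter K) ℵ₁ ∧ ∀ a : K, ∀ᶠ x in (U : Filter K), a ≤ x

/-- the Ketonen type relation between ultrafilters on a well-order -/
def KRel {K : Type u} [LinearOrder K] (W U : Ultrafilter K) : Prop :=
  CofUF U ∧ ∃ w : K → Ultrafilter K, (∀ᶠ x in U, CardinalInterFilter (w x : Filter K) ℵ₁ ∧
    ∀ᶠ y in w x, y < x) ∧ W = U.bind w

theorem krel_wf {K : Type u} [LinearOrder K] [WellFoundedLT K] :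
    WellFounded (KRel (K := K)) := by
  classical
  rw [wellFounded_iff_isEmpty_descending_chain]
  refine ⟨fun ⟨U, hU⟩ => ?_⟩
  have hU1 : ∀ n, CardinalInterFilter (U n : Filter K) ℵ₁ := fun n => (hU n).1.1
  choose w hw hw' using fun n => (hU n).2
  -- the good sets
  let G : ℕ → ℕ → Set K := fun m => Nat.rec (fun _ => Set.univ)
    (fun _ S n => {x | (CardinalInterFilter (w n x : Filter K) ℵ₁ ∧ ∀ᶠ y in w n x, y < x) ∧
      ∀ᶠ y in w n x, y ∈ S (n + 1)}) m
  have hG0 : ∀ n, G 0 n = Set.univ := fun _ => rfl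
  have hGs : ∀ m n, G (m + 1) n = {x | (CardinalInterFilter (w n x : Filter K) ℵ₁ ∧
    ∀ᶠ y in w n x, y < x) ∧ ∀ᶠ y in w n x, y ∈ G m (n + 1)} := fun _ _ => rfl
  have hmem : ∀ m n, ∀ᶠ x in U n, x ∈ G m n := by
    intro m
    induction m with
    | zero => exact fun n => Filter.Eventually.of_forall fun x => by rw [hG0]; exact mem_univ x
    | succ m ih =>
      intro n
      have h1 : ∀ᶠ x in U n, ∀ᶠ y in w n x, y ∈ G m (n + 1) := by
        have := ih (n + 1)
        rw [hw' n] at this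
        exact this
      filter_upwards [hw n, h1] with x hx1 hx2
      rw [hGs]
      exact ⟨hx1, hx2⟩
  have hall : ∀ n, ∀ᶠ x in U n, ∀ m, x ∈ G m n := by
    intro n
    have := cif_countable (hU1 n)
    exact eventually_countable_forall.2 (fun m => hmem m n)
  obtain ⟨x₀, hx₀⟩ := (hall 0).exists
  obtain ⟨x, ⟨n, hx⟩, hmin⟩ := (wellFounded_lt (α := K)).has_min {x | ∃ n, ∀ m, x ∈ G m n}
    ⟨x₀, 0, hx₀⟩
  have h1 := hx (0 + 1)
  rw [hGs] at h1
  have h2 : ∀ᶠ y in w n x, ∀ m, y ∈ G m (n + 1) := by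
    have := cif_countable h1.1.1
    refine eventually_countable_forall.2 (fun m => ?_)
    have := hx (m + 1)
    rw [hGs] at this
    exact this.2
  obtain ⟨y, hy1, hy2⟩ := (h2.and h1.1.2).exists
  exact hmin y ⟨n + 1, hy1⟩ hy2

/-- Existence of minimal cofinal countably complete ultrafilters. -/
theorem exists_ketonen_min {K : Type u} [LinearOrder K] [WellFoundedLT K]
    (h : ∃ U : Ultrafilter K, CofUF U) : ∃ U : Ultrafilter K, CofUF U ∧
      ∀ w : K → Ultrafilter K, (∀ᶠ x in U, CardinalInterFilter (w x : Filter K) ℵ₁ ∧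
        ∀ᶠ y in w x, y < x) → ¬ CofUF (U.bind w) := by
  obtain ⟨U, hU, hmin⟩ := (krel_wf (K := K)).has_min {U | CofUF U} h
  exact ⟨U, hU, fun w hw hcof => hmin _ hcof ⟨hU, w, hw, rfl⟩⟩

/-- A limit ordinal whose cofinality carries a countably complete uniform ultrafilter carries
a cofinal countably complete ultrafilter. -/
theorem carriesCof_of_cof {o : Ordinal.{u}} (ho : ℵ₀ ≤ o.cof)
    (h : CarriesUniform ℵ₁ o.cof) : CarriesCof o := by
  classical
  obtain ⟨J, V, hJ, hV, hun⟩ := h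
  obtain ⟨C, c, hC, hc1, hc2⟩ := exists_cofinal_fun o
  have hlim : IsSuccLimit o := aleph0_le_cof.1 ho
  have hreg : o.cof.IsRegular := isRegular_cof hlim
  obtain ⟨e⟩ : Nonempty (J ≃ o.cof.ord.ToType) := by
    rw [← Cardinal.eq, hJ, mk_ord_toType]
  obtain ⟨d⟩ : Nonempty (o.cof.ord.ToType ≃ C) := by
    rw [← Cardinal.eq, hC, mk_ord_toType]
  have h1 : ∀ i : o.cof.ord.ToType, ∃ β < o, ∀ s : Iio i, c (d s.1) < β := fun i =>
    sup_lt_cof (mk_Iio_toType_ord_lt i) (fun s => hc1 _)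
  choose g hg1 hg2 using h1
  refine ⟨J, V, fun j => g (e j), hV, Filter.Eventually.of_forall fun j => hg1 _,
    fun α hα => ?_⟩
  by_contra hcon
  have hcon' : ∀ᶠ j in V, ¬ α ≤ g (e j) := Ultrafilter.eventually_not.2 hcon
  obtain ⟨i, hi⟩ := hc2 α hα
  have h2 : {j | ¬ α ≤ g (e j)} ⊆ {j | ((e j).toOrd : Ordinal) < succ ((d.symm i).toOrd : Ordinal)} := by
    intro j hj
    by_contra hj2
    refine hj ?_
    have h3 : d.symm i < e j := by
      rw [← ToType.mk.symm.lt_iff_lt]
      have h4 : succ ((d.symm i).toOrd : Ordinal) ≤ ((e j).toOrd : Ordinal) := not_lt.1 hj2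
      have h5 : ((d.symm i).toOrd : Ordinal) < ((e j).toOrd : Ordinal) := succ_le_iff.1 h4
      exact h5
    have := hg2 (e j) ⟨d.symm i, h3⟩
    simp only [Equiv.apply_symm_apply] at this
    exact hi.trans this.le
  have h5 := hun _ hcon'
  have h6 : #{j | ¬ α ≤ g (e j)} < o.cof := by
    refine ((mk_le_mk_of_subset h2).trans (mk_initial_le e.injective _)).trans_lt ?_
    rw [← lt_ord]
    have h7 : ((d.symm i).toOrd : Ordinal) < o.cof.ord := (d.symm i).toOrd.2
    exact (isSuccLimit_ord hreg.aleph0_le).succ_lt h7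
  exact h6.ne h5

end Pool.Agent.Helper801_ASC
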