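import Mathlib
import Pool.Agent.Helper801_ASC.Ketonen

open Cardinal Ordinal Filter Set Order

universe u

namespace Pool.Agent.Helper801_ASC

variable {I J T : Type u}

theorem toOrd_mk {o α : Ordinal.{u}} (h : α < o) :
    (((ToType.mk ⟨α, h⟩ : o.ToType).toOrd : Iio o) : Ordinal) = α :=
  congrArg Subtype.val (ToType.mk.symm_apply_apply ⟨α, h⟩)

theorem toOrd_lt_toOrd {o : Ordinal.{u}} {x y : o.ToType} :
    ((x.toOrd : Iio o) : Ordinal) < (y.toOrd : Iio o) ↔ x < y := by
  rw [← ToType.mk.symm.lt_iff_lt]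
  exact Iff.rfl

theorem toOrd_le_toOrd {o : Ordinal.{u}} {x y : o.ToType} :
    ((x.toOrd : Iio o) : Ordinal) ≤ (y.toOrd : Iio o) ↔ x ≤ y := by
  rw [← ToType.mk.symm.le_iff_le]
  exact Iff.rfl

/-- Properties of the minimal cofinal countably complete ultrafilters on `κ`. -/
theorem ketonen_props {κ : Cardinal.{u}} (hreg : κ.IsRegular)
    (hκ : OmegaOneStronglyCompact κ) :
    ∃ U : Ultrafilter κ.ord.ToType, CardinalInterFilter (U : Filter κ.ord.ToType) ℵ₁ ∧
      Unb U κ (fun x => (x.toOrd : Ordinal)) ∧ WN U κ (fun x => (x.toOrd : Ordinal)) ∧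
      ∀ᶠ x in (U : Filter κ.ord.ToType), ¬ CarriesCof (x.toOrd : Ordinal) := by
  classical
  have hlim : IsSuccLimit κ.ord := isSuccLimit_ord hreg.aleph0_le
  obtain ⟨U₀, hU₀, hU₀'⟩ := exists_uniform hreg hκ κ.ord.ToType (mk_ord_toType κ)
  have hex : ∃ U : Ultrafilter κ.ord.ToType, CofUF U := by
    refine ⟨U₀, hU₀, fun a => ?_⟩
    by_contra hcon
    have hcon' : ∀ᶠ x in (U₀ : Filter κ.ord.ToType), ¬ a ≤ x := Ultrafilter.eventually_not.2 hcon
    refine hU₀' {x | ¬ a ≤ x} ?_ hcon'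
    have h1 : {x : κ.ord.ToType | ¬ a ≤ x} ⊆ {x | ((id x).toOrd : Ordinal) < (a.toOrd : Ordinal)} :=
      fun x hx => toOrd_lt_toOrd.2 (not_le.1 hx)
    exact ((mk_le_mk_of_subset h1).trans (mk_initial_le Function.injective_id _)).trans_lt
      (lt_ord.1 a.toOrd.2)
  obtain ⟨U, hU, hmin⟩ := exists_ketonen_min hex
  have hunb : Unb U κ (fun x => (x.toOrd : Ordinal)) := by
    refine ⟨Filter.Eventually.of_forall fun x => x.toOrd.2, fun α hα => ?_⟩
    filter_upwards [hU.2 (ToType.mk ⟨α, hα⟩)] with x hx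
    have := toOrd_le_toOrd.2 hx
    rwa [toOrd_mk] at this
  refine ⟨U, hU.1, hunb, fun g hg => ?_, ?_⟩
  · -- weak normality
    let h : κ.ord.ToType → κ.ord.ToType := fun x =>
      if hx : g x < κ.ord then ToType.mk ⟨g x, hx⟩ else x
    have h1 : ∀ᶠ x in (U : Filter κ.ord.ToType), h x < x := by
      filter_upwards [hg] with x hx
      have hx' : g x < κ.ord := hx.trans x.toOrd.2
      simp only [h, hx', dite_true]
      rw [← toOrd_lt_toOrd, toOrd_mk]
      exact hx
    have h2 := hmin (fun x => pure (h x)) (by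
      filter_upwards [h1] with x hx
      exact ⟨cif_pure _ _, hx⟩)
    have h3 : ∃ a, ¬ ∀ᶠ y in ((U.bind fun x => pure (h x) : Ultrafilter κ.ord.ToType) :
        Filter κ.ord.ToType), a ≤ y := by
      by_contra hcon
      push Not at hcon
      exact h2 ⟨cif_bind hU.1 (Filter.Eventually.of_forall fun x => cif_pure _ _), hcon⟩
    obtain ⟨a, ha⟩ := h3
    have h4 : ∀ᶠ x in (U : Filter κ.ord.ToType), ¬ a ≤ h x := by
      refine Ultrafilter.eventually_not.2 (fun hcon => ha ?_)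
      exact hcon
    refine ⟨a.toOrd, a.toOrd.2, ?_⟩
    filter_upwards [h4, hg] with x hx1 hx2
    have hx' : g x < κ.ord := hx2.trans x.toOrd.2
    simp only [h, hx', dite_true, not_le] at hx1
    have := toOrd_lt_toOrd.2 hx1
    rwa [toOrd_mk] at this
  · -- no cofinal ultrafilters below
    by_contra hcon
    have hcon' : ∀ᶠ x in (U : Filter κ.ord.ToType), CarriesCof (x.toOrd : Ordinal) := by
      have := Ultrafilter.eventually_not.2 hcon
      filter_upwards [this] with x hx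
      exact not_not.1 hx
    have hw : ∀ x : κ.ord.ToType, ∃ w : Ultrafilter κ.ord.ToType,
        CarriesCof (x.toOrd : Ordinal) →
        CardinalInterFilter (w : Filter κ.ord.ToType) ℵ₁ ∧
        (∀ᶠ y in (w : Filter κ.ord.ToType), y < x) ∧
        ∀ a : κ.ord.ToType, a < x → ∀ᶠ y in (w : Filter κ.ord.ToType), a ≤ y := by
      intro x
      by_cases hx : CarriesCof (x.toOrd : Ordinal)
      · obtain ⟨J, V, g, hV, hg1, hg2⟩ := hx
        let h : J → κ.ord.ToType := fun j => if hj : g j < κ.ord then ToType.mk ⟨g j, hj⟩ else x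
        have hh : ∀ᶠ j in (V : Filter J), ((h j).toOrd : Ordinal) = g j := by
          filter_upwards [hg1] with j hj
          have hj' : g j < κ.ord := hj.trans x.toOrd.2
          simp only [h, hj', dite_true]
          exact toOrd_mk hj'
        refine ⟨V.map h, fun _ => ⟨cif_map hV h, ?_, fun a ha => ?_⟩⟩
        · change ∀ᶠ j in (V : Filter J), h j < x
          filter_upwards [hh, hg1] with j hj1 hj2
          rw [← toOrd_lt_toOrd, hj1]
          exact hj2
        · change ∀ᶠ j in (V : Filter J), a ≤ h j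
          filter_upwards [hh, hg2 _ (toOrd_lt_toOrd.2 ha)] with j hj1 hj2
          rw [← toOrd_le_toOrd, hj1]
          exact hj2
      · exact ⟨U, fun h => absurd h hx⟩
    choose w hw using hw
    refine hmin w ?_ ⟨cif_bind hU.1 ?_, fun a => ?_⟩
    · filter_upwards [hcon'] with x hx
      exact ⟨(hw x hx).1, (hw x hx).2.1⟩
    · filter_upwards [hcon'] with x hx
      exact (hw x hx).1
    · change ∀ᶠ x in (U : Filter κ.ord.ToType), ∀ᶠ y in (w x : Filter κ.ord.ToType), a ≤ y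
      filter_upwards [hcon', hunb.2 (succ (a.toOrd : Ordinal)) (hlim.succ_lt a.toOrd.2)]
        with x hx1 hx2
      exact (hw x hx1).2.2 a (toOrd_lt_toOrd.1 (succ_le_iff.1 hx2))

/-- The least `ω₁`-strongly compact cardinal, if regular, is a limit cardinal. -/
theorem isSuccLimit_of_least {κ : Cardinal.{u}} (hreg : κ.IsRegular) (h1 : ℵ₁ < κ)
    (hκ : OmegaOneStronglyCompact κ) (hleast : ∀ μ < κ, ¬ OmegaOneStronglyCompact μ) :
    IsSuccLimit κ := by
  classical
  by_contra hlim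
  have hinf := hreg.aleph0_le
  -- `κ = succ τ`
  obtain ⟨τ, hτ⟩ : ∃ τ, κ = succ τ := by
    have h2 : ¬ IsSuccPrelimit κ := by
      intro h
      refine hlim ⟨?_, h⟩
      intro hmin
      have := hmin (bot_le : (⊥ : Cardinal) ≤ κ)
      exact absurd (this.trans_lt (aleph0_pos.trans_le hinf)) (lt_irrefl _)
    obtain ⟨τ, hτ⟩ := mem_range_succ_of_not_isSuccPrelimit h2
    exact ⟨τ, hτ.symm⟩
  have hτκ : τ < κ := by rw [hτ]; exact lt_succ τ
  have h1τ : ℵ₁ ≤ τ := by rw [hτ] at h1; exact lt_succ_iff.1 h1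
  have hτinf : ℵ₀ ≤ τ := (aleph0_lt_aleph_one.trans_le h1τ).le
  obtain ⟨U, hU1, hU2, hU3, hU4⟩ := ketonen_props hreg hκ
  have hle : ∀ᶠ x in (U : Filter κ.ord.ToType), (x.toOrd : Ordinal).cof ≤ τ := by
    refine Filter.Eventually.of_forall fun x => ?_
    have : (x.toOrd : Ordinal) < (succ τ).ord := by
      rw [← hτ]; exact x.toOrd.2
    exact cof_le_of_lt_succ this
  by_cases hc : ∀ᶠ x in (U : Filter κ.ord.ToType), (x.toOrd : Ordinal).cof = τ
  · obtain ⟨x, hx1, hx2⟩ := (hc.and hU4).exists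
    have hτreg : τ.IsRegular := by
      rw [← hx1]
      refine isRegular_cof (aleph0_le_cof.1 ?_)
      rw [hx1]
      exact hτinf
    have hd := (decomp_of_cof_eq hreg hτreg hτκ hU2 hU3 hc).carriesUniform hU1
    refine hx2 (carriesCof_of_cof ?_ ?_)
    · rw [hx1]; exact hτinf
    · rw [hx1]; exact hd
  · have hc' : ∀ᶠ x in (U : Filter κ.ord.ToType), ¬ (x.toOrd : Ordinal).cof = τ :=
      Ultrafilter.eventually_not.2 hc
    have hlt : ∀ᶠ x in (U : Filter κ.ord.ToType), (x.toOrd : Ordinal).cof < τ := by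
      filter_upwards [hle, hc'] with x hx1 hx2
      exact lt_of_le_of_ne hx1 hx2
    have hr := reg_of_cof hreg hU2 hU3 hlt
    refine hleast _ (max_lt hτκ h1) (omegaOne_of_reg hreg hκ fun T hT => ⟨_, U, hU1,
      hr.mono (by rw [mk_ord_toType]; exact hT.le)⟩)

/-- The minimal ultrafilter on the least `ω₁`-strongly compact cardinal concentrates on regular
cardinals without uniform countably complete ultrafilters. -/
theorem ketonen_regular {κ : Cardinal.{u}} (hreg : κ.IsRegular) (h1 : ℵ₁ < κ)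
    (hκ : OmegaOneStronglyCompact κ) (hleast : ∀ μ < κ, ¬ OmegaOneStronglyCompact μ) :
    ∃ U : Ultrafilter κ.ord.ToType, CardinalInterFilter (U : Filter κ.ord.ToType) ℵ₁ ∧
      Unb U κ (fun x => (x.toOrd : Ordinal)) ∧ WN U κ (fun x => (x.toOrd : Ordinal)) ∧
      ∀ᶠ x in (U : Filter κ.ord.ToType), ∃ θ : Cardinal.{u}, θ.IsRegular ∧
        (x.toOrd : Ordinal) = θ.ord ∧ ¬ CarriesUniform ℵ₁ θ := by
  classical
  have hlim : IsSuccLimit κ := isSuccLimit_of_least hreg h1 hκ hleast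
  have hlim' : IsSuccLimit κ.ord := isSuccLimit_ord hreg.aleph0_le
  obtain ⟨U, hU1, hU2, hU3, hU4⟩ := ketonen_props hreg hκ
  refine ⟨U, hU1, hU2, hU3, ?_⟩
  have hcof : ∀ᶠ x in (U : Filter κ.ord.ToType),
      ¬ (x.toOrd : Ordinal).cof.ord < (x.toOrd : Ordinal) := by
    refine Ultrafilter.eventually_not.2 (fun hcon => ?_)
    obtain ⟨β, hβ, hβ'⟩ := hU3 (fun x => (x.toOrd : Ordinal).cof.ord) hcon
    have h2 : ∀ᶠ x in (U : Filter κ.ord.ToType), (x.toOrd : Ordinal).cof < succ β.card := by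
      filter_upwards [hβ'] with x hx
      rw [lt_succ_iff]
      have := Ordinal.card_le_card hx.le
      rwa [card_ord] at this
    have hr := reg_of_cof hreg hU2 hU3 h2
    refine hleast _ (max_lt (hlim.succ_lt (lt_ord.1 hβ)) h1) (omegaOne_of_reg hreg hκ fun T hT =>
      ⟨_, U, hU1, hr.mono (by rw [mk_ord_toType]; exact hT.le)⟩)
  filter_upwards [hcof, hU4, hU2.2 ω (by
    have := ord_lt_ord.2 ((aleph0_lt_aleph_one).trans h1)
    rwa [ord_aleph0] at this)] with x hx1 hx2 hx3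
  have hle : (x.toOrd : Ordinal).cof.ord ≤ (x.toOrd : Ordinal) :=
    (ord_le_ord.2 (cof_le_card _)).trans (ord_card_le _)
  have heq : (x.toOrd : Ordinal).cof.ord = (x.toOrd : Ordinal) :=
    le_antisymm hle (not_lt.1 hx1)
  have hinf : ℵ₀ ≤ (x.toOrd : Ordinal).cof := by
    rw [← heq] at hx3
    have := Ordinal.card_le_card hx3
    rwa [card_omega0, card_ord] at this
  refine ⟨(x.toOrd : Ordinal).cof, isRegular_cof (aleph0_le_cof.1 hinf), heq.symm, fun h => ?_⟩
  exact hx2 (carriesCof_of_cof hinf h)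

/-- The minimal ultrafilters contain all closed unbounded sets. -/
theorem club_mem {κ : Cardinal.{u}} (hreg : κ.IsRegular) {U : Ultrafilter κ.ord.ToType}
    (hU2 : Unb U κ (fun x => (x.toOrd : Ordinal))) (hU3 : WN U κ (fun x => (x.toOrd : Ordinal)))
    {C : Set Ordinal.{u}} (hC : IsClubBelow κ C) :
    ∀ᶠ x in (U : Filter κ.ord.ToType), (x.toOrd : Ordinal) ∈ C := by
  classical
  have hlim' : IsSuccLimit κ.ord := isSuccLimit_ord hreg.aleph0_le
  by_contra hcon
  have hcon' : ∀ᶠ x in (U : Filter κ.ord.ToType), (x.toOrd : Ordinal) ∉ C :=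
    Ultrafilter.eventually_not.2 hcon
  have h0 : ∀ᶠ x in (U : Filter κ.ord.ToType), (x.toOrd : Ordinal) ≠ 0 := by
    have h1 : (1 : Ordinal) < κ.ord := by
      have := hlim'.succ_lt (hlim'.bot_lt)
      simpa using this
    filter_upwards [hU2.2 1 h1] with x hx
    exact (zero_lt_one.trans_le hx).ne'
  have hex : ∀ x : κ.ord.ToType, ∃ α, (x.toOrd : Ordinal) ∉ C → (x.toOrd : Ordinal) ≠ 0 →
      α < (x.toOrd : Ordinal) ∧ ∀ β ∈ C, α < β → ¬ β < (x.toOrd : Ordinal) := by
    intro x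
    by_contra h
    push Not at h
    have hx := h 0
    refine hx.1 (hC.2.2 _ x.toOrd.2 hx.2.1 fun α hα => ?_)
    obtain ⟨β, hβ1, hβ2, hβ3⟩ := (h α).2.2 hα
    exact ⟨β, hβ1, hβ2, hβ3⟩
  choose g hg using hex
  obtain ⟨β, hβ, hβ'⟩ := hU3 g (by
    filter_upwards [hcon', h0] with x hx1 hx2
    exact (hg x hx1 hx2).1)
  obtain ⟨γ, hγ, hγ'⟩ := hC.2.1 β hβ
  obtain ⟨x, ⟨hx1, hx2⟩, hx3, hx4⟩ := ((hcon'.and h0).and (hβ'.and
    (hU2.2 (succ γ) (hlim'.succ_lt (hC.1 γ hγ))))).exists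
  exact (hg x hx1 hx2).2 γ hγ (hx3.trans hγ') (succ_le_iff.1 hx4)

end Pool.Agent.Helper801_ASC
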