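import Mathlib
import Pool.Agent.Helper801_ASC.KMin

open Cardinal Ordinal Filter Set Order

universe u

namespace Pool.Agent.Helper801_ASC

variable {I J T : Type u}

/-- Iterating: if `θ^{+δ} ≤ 2^θ` for all large `δ < θ` then `θ^{+θ} < 2^θ`. -/
theorem plusCard_lt_two_power {θ μ : Cardinal.{u}} (hθ : ℵ₀ ≤ θ) (hlim : IsSuccLimit θ)
    (hμ : μ < θ) (h : ∀ δ, μ ≤ δ → δ < θ → plusCard θ δ.ord ≤ 2 ^ θ) :
    plusCard θ θ.ord < 2 ^ θ := by
  have hlim' : IsSuccLimit θ.ord := isSuccLimit_ord hθ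
  set b := preAleph.symm (2 ^ θ) with hb
  have hbθ : preAleph b = 2 ^ θ := by rw [hb, OrderIso.apply_symm_apply]
  have h1 : preAleph.symm θ + θ.ord ≤ b := by
    rw [add_le_iff_of_isSuccLimit hlim']
    intro c hc
    have h2 : c ≤ (max μ (succ c.card)).ord :=
      (lt_ord_succ_card c).le.trans (ord_le_ord.2 (le_max_right _ _))
    have h3 : max μ (succ c.card) < θ := max_lt hμ (hlim.succ_lt (lt_ord.1 hc))
    have h4 := h _ (le_max_left _ _) h3
    rw [← hbθ, plusCard, preAleph_le_preAleph] at h4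
    exact (add_le_add_right h2 _).trans h4
  have h5 : plusCard θ θ.ord ≤ 2 ^ θ := by
    rw [← hbθ, plusCard, preAleph_le_preAleph]
    exact h1
  refine lt_of_le_of_ne h5 (fun heq => ?_)
  have h6 : (plusCard θ θ.ord).ord.cof = θ.ord.cof :=
    cof_preAleph_add hlim'.bot_lt.ne' (isSuccLimit_add _ hlim')
  have h7 := lt_cof_ord_power (b := 2) hθ (by norm_num)
  rw [← heq, h6] at h7
  exact absurd h7 (not_lt.2 (cof_ord_le θ))

/-- The structural information about the least `ω₁`-strongly compact cardinal `κ` in case it is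
almost strongly compact and not strongly compact. -/
theorem structure_thm {κ : Cardinal.{u}} (hκ : AlmostStronglyCompact κ)
    (hleast : ∀ μ < κ, ¬ OmegaOneStronglyCompact μ) (hns : ¬ StronglyCompact κ) :
    κ.IsInaccessible ∧ ∃ H : Ordinal.{u} → Ordinal.{u} → Ordinal.{u},
      (∀ ε < κ.ord, ∀ α < κ.ord, H ε α < κ.ord) ∧ ∀ θ : Cardinal.{u},
        θ.ord ∈ ClosedUnder κ H → (∀ c < θ, 2 ^ c < θ) ∧
        (∀ ρ < θ, ∀ T : Type u, #T < κ → ∀ (X : Type u) (U : Ultrafilter X),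
          CardinalInterFilter (U : Filter X) ℵ₁ → RegUF U ρ T → #T < θ) ∧
        ∀ δ < θ, ∃ U : Ultrafilter κ.ord.ToType,
          CardinalInterFilter (U : Filter κ.ord.ToType) δ ∧
          ∀ ν < θ, ∃ lam, ν < lam ∧ lam < θ ∧ Decomp U lam := by
  classical
  have h1 : ℵ₁ < κ := hκ.1
  have h0 : ℵ₀ < κ := aleph0_lt_aleph_one.trans h1
  have hκ1 : OmegaOneStronglyCompact κ := hκ.2 ℵ₁ aleph0_lt_aleph_one h1
  have hreg : κ.IsRegular := isRegular_of_least hκ hleast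
  have hlim : IsSuccLimit κ := isSuccLimit_of_least hreg h1 hκ1 hleast
  have hsl := strongLimit_of_limit hκ hreg hlim
  refine ⟨⟨h0, hreg.le_cof_ord, fun c hc => hsl c hc⟩, ?_⟩
  have hb : ∀ ρ : Cardinal.{u}, ∃ b < κ, ρ < κ → ∀ (T : Type u), #T < κ → ∀ (X : Type u)
      (U : Ultrafilter X), CardinalInterFilter (U : Filter X) ℵ₁ → RegUF U ρ T → #T < b := by
    intro ρ
    by_cases hρ : ρ < κ
    · obtain ⟨b, hb, hb'⟩ := exists_bound hreg h1 hκ1 hleast ρ hρ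
      exact ⟨b, hb, fun _ => hb'⟩
    · exact ⟨0, aleph0_pos.trans h0, fun h => absurd h hρ⟩
  choose b hb1 hb2 using hb
  have hU : ∀ δ : Cardinal.{u}, ∃ U : Ultrafilter κ.ord.ToType, δ < κ →
      CardinalInterFilter (U : Filter κ.ord.ToType) δ ∧
        ∀ A : Set κ.ord.ToType, #A < κ → A ∉ U := by
    intro δ
    by_cases hδ : δ < κ
    · obtain ⟨U, hU1, hU2⟩ := exists_uniform hreg (hκ.2 (max ℵ₁ δ)
        (aleph0_lt_aleph_one.trans_le (le_max_left _ _)) (max_lt h1 hδ)) κ.ord.ToType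
        (mk_ord_toType κ)
      exact ⟨U, fun _ => ⟨cif_mono hU1 (le_max_right _ _), hU2⟩⟩
    · obtain ⟨U, hU1, hU2⟩ := exists_uniform hreg hκ1 κ.ord.ToType (mk_ord_toType κ)
      exact ⟨U, fun h => absurd h hδ⟩
  choose U hU using hU
  have hn : ∀ δ ν : Cardinal.{u}, ∃ lam < κ, δ < κ → ν < κ → ν < lam ∧ Decomp (U δ) lam := by
    intro δ ν
    by_cases h : δ < κ ∧ ν < κ
    · by_contra hcon
      refine hns (stronglyCompact_of_indecomposable hκ hreg hlim (mk_ord_toType κ) (hU δ h.1).2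
        h.2 (fun lam hl1 hl2 hl3 => ?_))
      exact hcon ⟨lam, hl2, fun _ _ => ⟨hl1, hl3⟩⟩
    · exact ⟨0, aleph0_pos.trans h0, fun h1 h2 => absurd ⟨h1, h2⟩ h⟩
  choose n hn1 hn2 using hn
  refine ⟨fun ε α => max (max (b α.card).ord (n ε.card α.card).ord)
    (if α < κ.ord then (2 ^ α.card : Cardinal.{u}).ord else 0), fun ε _ α hα => ?_,
    fun θ hθ => ?_⟩
  · simp only [hα, if_true]
    exact max_lt (max_lt (ord_lt_ord.2 (hb1 _)) (ord_lt_ord.2 (hn1 _ _)))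
      (ord_lt_ord.2 (hsl _ (lt_ord.1 hα)))
  · obtain ⟨hθ1, hθ2, hθ3⟩ := hθ
    have hθκ : θ < κ := ord_lt_ord.1 hθ1
    have h0θ : (0 : Ordinal) < θ.ord := pos_iff_ne_zero.2 hθ2
    refine ⟨fun c hc => ?_, fun ρ hρ T hT X V hV hr => ?_, fun δ hδ => ⟨U δ, ?_, fun ν hν => ?_⟩⟩
    · have h2 := hθ3 0 h0θ c.ord (ord_lt_ord.2 hc)
      simp only [ord_lt_ord.2 (hc.trans hθκ), if_true, card_ord] at h2
      exact ord_lt_ord.1 ((le_max_right _ _).trans_lt h2)
    · have h2 := hθ3 0 h0θ ρ.ord (ord_lt_ord.2 hρ)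
      simp only [card_ord] at h2
      have h3 := ord_lt_ord.1 (((le_max_left _ _).trans (le_max_left _ _)).trans_lt h2)
      exact (hb2 ρ (hρ.trans hθκ) T hT X V hV hr).trans h3
    · exact (hU δ (hδ.trans hθκ)).1
    · have h2 := hθ3 δ.ord (ord_lt_ord.2 hδ) ν.ord (ord_lt_ord.2 hν)
      simp only [card_ord] at h2
      have h3 := ord_lt_ord.1 (((le_max_right _ _).trans (le_max_left _ _)).trans_lt h2)
      have h4 := hn2 δ ν (hδ.trans hθκ) (hν.trans hθκ)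
      exact ⟨n δ ν, h4.1, h3, h4.2⟩

theorem CarriesUniform.exists_decomp {δ lam : Cardinal.{u}} (h : CarriesUniform δ lam) :
    ∃ (I : Type u) (V : Ultrafilter I), CardinalInterFilter (V : Filter I) δ ∧ Decomp V lam := by
  obtain ⟨I, V, hI, hV, hun⟩ := h
  refine ⟨I, V, hV, I, id, hI, fun A hA hmem => ?_⟩
  rw [preimage_id] at hmem
  exact hA.ne (hun A hmem)

/-- The gap at `θ` for `δ`-complete uniform ultrafilters. -/
theorem gap_of_structure {κ θ δ : Cardinal.{u}} (hlim : IsSuccLimit κ) (hθκ : θ < κ)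
    (hδ : ℵ₁ ≤ δ) (hθ : ℵ₀ ≤ θ)
    (hb : ∀ ρ < θ, ∀ T : Type u, #T < κ → ∀ (X : Type u) (U : Ultrafilter X),
          CardinalInterFilter (U : Filter X) ℵ₁ → RegUF U ρ T → #T < θ)
    (hU : ∃ (K : Type u) (U : Ultrafilter K), CardinalInterFilter (U : Filter K) δ ∧
          ∀ ν < θ, ∃ lam, ν < lam ∧ lam < θ ∧ Decomp U lam)
    (hc : (θ.IsSingular ∧ θ.ord.cof < δ) ∨ (θ.IsRegular ∧ ¬ CarriesUniform δ θ)) :
    (∀ lam, θ ≤ lam → lam < plusCard θ δ.ord → ¬ CarriesUniform δ lam) ∧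
    ∃ lam, plusCard θ δ.ord ≤ lam ∧ lam ≤ 2 ^ θ ∧ CarriesUniform δ lam := by
  have h1 : ∀ lam, θ ≤ lam → lam < plusCard θ δ.ord → ¬ CarriesUniform δ lam := by
    intro lam hl1 hl2 hl3
    obtain ⟨I, V, hV, hd⟩ := hl3.exists_decomp
    rcases hl1.lt_or_eq with hlt | heq
    · have hdesc := descent hV hδ hθ hlt hl2 hd
      rcases hc with ⟨hs, hcof⟩ | ⟨hr, hnc⟩
      · obtain ⟨ρ, hρ, hreg⟩ := hdesc.2 hs hcof
        have h2 := hb ρ hρ _ (by rw [mk_ord_toType]; exact hlim.succ_lt hθκ) _ V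
          (cif_mono hV hδ) hreg
        rw [mk_ord_toType] at h2
        exact absurd (le_succ θ) (not_le.2 h2)
      · exact hnc ((hdesc.1 hr).carriesUniform hV)
    · rcases hc with ⟨hs, hcof⟩ | ⟨hr, hnc⟩
      · rw [← heq] at hd
        exact not_decomp_of_lt hV (one_lt_aleph0.trans_le (aleph0_le_cof_ord hθ)) hcof
          (decomp_cof hs hd)
      · exact hnc (heq ▸ hl3)
  refine ⟨h1, ?_⟩
  obtain ⟨K, U, hU1, hU2⟩ := hU
  obtain ⟨lam, hl1, hl2, hl3⟩ := exists_decomp_between hθ hU2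
  have hl4 := hl3.carriesUniform hU1
  exact ⟨lam, not_lt.1 (fun h => h1 lam hl1 h hl4), hl2, hl4⟩

end Pool.Agent.Helper801_ASC
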