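import Mathlib
import Pool.Agent.Helper801_ASC.Main
import Pool.Agent.Helper801_ASC.ListDefs

open Cardinal Ordinal Filter Set Order

universe u

namespace Pool.Agent.Helper801_ASC

variable {I J T S : Type u}

/-- Fine ultrafilters on `P_κ(S)`, strong form. -/
theorem exists_fine_strong {δ κ : Cardinal.{u}} (hκ : κ.IsRegular)
    (h : DeltaStronglyCompact δ κ) (S : Type u) : ∃ W : Ultrafilter {e : Set S // #e < κ},
      CardinalInterFilter (W : Filter {e : Set S // #e < κ}) δ ∧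
      ∀ s : Set S, #s < κ →
        ∀ᶠ e : {e : Set S // #e < κ} in (W : Filter {e : Set S // #e < κ}), s ⊆ e.1 := by
  classical
  let F : Filter {e : Set S // #e < κ} :=
    { sets := {A | ∃ s : Set S, #s < κ ∧ ∀ e : {e : Set S // #e < κ}, s ⊆ e.1 → e ∈ A}
      univ_sets := ⟨∅, by simpa using hκ.pos, fun _ _ => mem_univ _⟩
      sets_of_superset := by
        rintro A B ⟨s, hs, hs'⟩ hAB
        exact ⟨s, hs, fun e he => hAB (hs' e he)⟩
      inter_sets := by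
        rintro A B ⟨s, hs, hs'⟩ ⟨t, ht, ht'⟩
        refine ⟨s ∪ t, (mk_union_le s t).trans_lt (add_lt_of_lt hκ.aleph0_le hs ht), fun e he =>
          ⟨hs' e (subset_union_left.trans he), ht' e (subset_union_right.trans he)⟩⟩ }
  have hF : ∀ A, A ∈ F ↔ ∃ s : Set S, #s < κ ∧
    ∀ e : {e : Set S // #e < κ}, s ⊆ e.1 → e ∈ A := fun A => Iff.rfl
  have hne : F.NeBot := by
    refine ⟨fun hbot => ?_⟩
    have : (∅ : Set {e : Set S // #e < κ}) ∈ F := by rw [hbot]; exact mem_bot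
    obtain ⟨s, hs, hs'⟩ := (hF _).1 this
    exact hs' ⟨s, hs⟩ Subset.rfl
  have hcomp : CardinalInterFilter F κ := by
    refine ⟨fun C hC hmem => ?_⟩
    choose s hs hs' using fun c : C => (hF c.1).1 (hmem c.1 c.2)
    refine (hF _).2 ⟨⋃ c, s c, (card_iUnion_lt_iff_forall_of_isRegular hκ hC).2 hs, fun e he => ?_⟩
    rw [mem_sInter]
    intro A hA
    exact hs' ⟨A, hA⟩ e ((subset_iUnion s ⟨A, hA⟩).trans he)
  obtain ⟨W, hW, hW'⟩ := h.2.2 _ F hne hcomp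
  exact ⟨W, hW', fun s hs => hW ((hF _).2 ⟨s, hs, fun e he => he⟩)⟩

/-- Silver's lemma for lists: if all the restrictions of the list `d` have small range modulo
`U`, then one restriction determines all others modulo `U`. -/
theorem silver_list {κ : Cardinal.{u}} (hκ : κ.IsRegular) {X : Type u} {U : Ultrafilter X}
    (d : X → Set S) {γ : Cardinal.{u}} (hγ : ℵ₀ ≤ γ) (hγκ : succ γ < κ)
    (hU : ∀ b : Set S, #b < κ → ∃ Y ∈ U, #((fun x => d x ∩ b) '' Y) ≤ γ) :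
    ∃ b₀ : Set S, #b₀ < κ ∧ ∀ b : Set S, #b < κ → ∃ Y ∈ U, ∀ x ∈ Y, ∀ y ∈ Y,
      d x ∩ b₀ = d y ∩ b₀ → d x ∩ b = d y ∩ b := by
  classical
  by_contra hcon
  have h0 : ∀ b₀ : Set S, ∃ b : Set S, #b < κ ∧ (#b₀ < κ → ∀ Y ∈ U, ∃ x ∈ Y, ∃ y ∈ Y,
      d x ∩ b₀ = d y ∩ b₀ ∧ d x ∩ b ≠ d y ∩ b) := by
    intro b₀
    by_cases hb₀ : #b₀ < κ
    · by_contra h
      refine hcon ⟨b₀, hb₀, fun b hb => ?_⟩
      by_contra h'
      refine h ⟨b, hb, fun _ Y hY => ?_⟩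
      by_contra h''
      refine h' ⟨Y, hY, fun x hx y hy hxy => ?_⟩
      by_contra h3
      exact h'' ⟨x, hx, y, hy, hxy, h3⟩
    · exact ⟨∅, by simpa using hκ.pos, fun h => absurd h hb₀⟩
  choose step hstep1 hstep2 using h0
  let W : Type u := (succ γ).ord.ToType
  let b : W → Set S := (wellFounded_lt (α := W)).fix
    (fun t ih => step (⋃ s : Iio t, ih s.1 s.2))
  have hb : ∀ t, b t = step (⋃ s : Iio t, b s.1) := fun t =>
    (wellFounded_lt (α := W)).fix_eq _ t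
  have hbκ : ∀ t, #(b t) < κ := fun t => by rw [hb]; exact hstep1 _
  have hBt : ∀ t : W, #(⋃ s : Iio t, b s.1 : Set S) < κ := by
    intro t
    refine (card_iUnion_lt_iff_forall_of_isRegular hκ ?_).2 (fun s => hbκ _)
    exact (mk_Iio_toType_ord_lt t).trans hγκ
  have hb2 : ∀ t, ∀ Y ∈ U, ∃ x ∈ Y, ∃ y ∈ Y, (∀ s, s < t → d x ∩ b s = d y ∩ b s) ∧
      d x ∩ b t ≠ d y ∩ b t := by
    intro t Y hY
    obtain ⟨x, hx, y, hy, hxy, hne⟩ := hstep2 _ (hBt t) Y hY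
    refine ⟨x, hx, y, hy, fun s hs => ?_, ?_⟩
    · have h1 : b s ⊆ ⋃ s : Iio t, b s.1 := subset_iUnion (fun s : Iio t => b s.1) ⟨s, hs⟩
      rw [← inter_eq_right.2 h1, ← inter_assoc, ← inter_assoc, hxy]
    · rw [hb t]
      exact hne
  have hB : #(⋃ t : W, b t : Set S) < κ := by
    refine (card_iUnion_lt_iff_forall_of_isRegular hκ ?_).2 hbκ
    rw [mk_ord_toType]
    exact hγκ
  set B : Set S := ⋃ t : W, b t with hBdef
  obtain ⟨Y, hY, hY'⟩ := hU B hB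
  set F : X → Set S := fun x => d x ∩ B with hF
  have hdiff : ∀ pq : (F '' Y) × (F '' Y), ∃ s : W, pq.1.1 ≠ pq.2.1 →
      pq.1.1 ∩ b s ≠ pq.2.1 ∩ b s := by
    rintro ⟨⟨_, x, hx, rfl⟩, ⟨_, y, hy, rfl⟩⟩
    by_cases h : F x = F y
    · obtain ⟨s⟩ : Nonempty W := by
        rw [← mk_ne_zero_iff, mk_ord_toType]
        exact (aleph0_pos.trans_le (hγ.trans (le_succ γ))).ne'
      exact ⟨s, fun h' => absurd h h'⟩
    · by_contra hcon2
      push Not at hcon2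
      refine h ?_
      have h2 : ∀ s, F x ∩ b s = F y ∩ b s := fun s => (hcon2 s).2
      have h3 : ∀ z, F z = ⋃ s : W, F z ∩ b s := by
        intro z
        rw [← inter_iUnion, ← hBdef, hF, inter_assoc, inter_self]
      rw [h3 x, h3 y]
      exact iUnion_congr h2
  choose e he using hdiff
  have hreg : (succ γ).IsRegular := isRegular_succ hγ
  obtain ⟨β, hβ, hβ'⟩ := sup_lt_cof (a := (succ γ).ord) (ι := (F '' Y) × (F '' Y)) (by
    rw [hreg.cof_ord, Cardinal.mk_prod, Cardinal.lift_id]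
    refine lt_succ_iff.2 ((mul_le_mul' hY' hY').trans ?_)
    rw [Cardinal.mul_eq_self hγ]) (f := fun ab => ((e ab).toOrd : Ordinal)) (fun ab => (e ab).toOrd.2)
  obtain ⟨x, hx, y, hy, hxy, hfxy⟩ := hb2 (ToType.mk ⟨β, hβ⟩) Y hY
  have hbB : ∀ s, b s ⊆ B := fun s => subset_iUnion b s
  have h5 : ∀ z s, F z ∩ b s = d z ∩ b s := by
    intro z s
    rw [hF]
    simp only
    rw [inter_assoc, inter_eq_right.2 (hbB s)]
  have hne2 : F x ≠ F y := by
    intro h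
    apply hfxy
    rw [← h5, ← h5, h]
  have h3 := he (⟨F x, mem_image_of_mem F hx⟩, ⟨F y, mem_image_of_mem F hy⟩) hne2
  have h4 := hβ' (⟨F x, mem_image_of_mem F hx⟩, ⟨F y, mem_image_of_mem F hy⟩)
  simp only [h5] at h3
  refine h3 (hxy _ ?_)
  rw [← toOrd_lt_toOrd, toOrd_mk]
  exact h4

/-- Amalgamation for lists. -/
theorem branch_of_small {κ lam : Cardinal.{u}} (hκ : AlmostStronglyCompact κ)
    (hreg : κ.IsRegular) (hsl : ∀ c < κ, 2 ^ c < κ)
    (d : PK κ lam → Set lam.ord.ToType) {U : Ultrafilter (PK κ lam)}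
    (hfine : ∀ s : Set lam.ord.ToType, #s < κ → ∀ᶠ e : PK κ lam in (U : Filter (PK κ lam)),
      s ⊆ e.1)
    {γ : Cardinal.{u}} (hγκ : γ < κ)
    (hU : ∀ b : Set lam.ord.ToType, #b < κ → ∃ Y ∈ U, #((fun x => d x ∩ b) '' Y) ≤ γ) :
    ∃ D, IsCofinalBranch d D := by
  classical
  have h0 : ℵ₀ < κ := aleph0_lt_aleph_one.trans hκ.1
  set γ' := max ℵ₀ γ with hγ'
  have hγ'κ : γ' < κ := max_lt h0 hγκ
  have hsγ : succ γ' < κ := (succ_le_of_lt (cantor _)).trans_lt (hsl _ hγ'κ)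
  obtain ⟨b₀, hb₀, hfac⟩ := silver_list hreg d (le_max_left ℵ₀ γ) hsγ (fun b hb => by
    obtain ⟨Y, hY, hY'⟩ := hU b hb
    exact ⟨Y, hY, hY'.trans (le_max_right _ _)⟩)
  -- the type of traces on `b₀`
  let p : PK κ lam → Set b₀ := fun x => {s | s.1 ∈ d x}
  have hp : ∀ x y, p x = p y → d x ∩ b₀ = d y ∩ b₀ := by
    intro x y h
    ext s
    constructor
    · rintro ⟨h1, h2⟩
      have : (⟨s, h2⟩ : b₀) ∈ p x := h1
      rw [h] at this
      exact ⟨this, h2⟩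
    · rintro ⟨h1, h2⟩
      have : (⟨s, h2⟩ : b₀) ∈ p y := h1
      rw [← h] at this
      exact ⟨this, h2⟩
  have hG : #(Set b₀) < κ := by rw [mk_set]; exact hsl _ hb₀
  have hδ : max ℵ₁ (succ (2 ^ #(Set b₀))) < κ := by
    refine max_lt hκ.1 ?_
    exact (succ_le_of_lt (cantor _)).trans_lt (hsl _ (hsl _ hG))
  obtain ⟨W, hW, hWfine⟩ := exists_fine_strong hreg
    (hκ.2 _ (aleph0_lt_aleph_one.trans_le (le_max_left _ _)) hδ) lam.ord.ToType
  set D : Ultrafilter (Set b₀) := U.map p with hD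
  have hq : ∀ b : PK κ lam, ∃ (q : Set b₀ → Set lam.ord.ToType) (Y : Set (PK κ lam)), Y ∈ U ∧
      ∀ x ∈ Y, q (p x) = d x ∩ b.1 := by
    intro b
    obtain ⟨Y, hY, hY'⟩ := hfac b.1 b.2
    refine ⟨fun g => if h : ∃ x ∈ Y, p x = g then d h.choose ∩ b.1 else ∅, Y, hY, fun x hx => ?_⟩
    have h : ∃ x' ∈ Y, p x' = p x := ⟨x, hx, rfl⟩
    simp only [h, dite_true]
    exact hY' _ h.choose_spec.1 x hx (hp _ _ h.choose_spec.2)
  choose q Y hY hqY using hq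
  let Q : PK κ lam → PK κ lam → Set b₀ → Prop := fun b c g =>
    q c g ∩ b.1 = q b g ∧ q b g ∈ traces d b
  have hQ : ∀ b c : PK κ lam, b.1 ⊆ c.1 → {g | Q b c g} ∈ D := by
    intro b c hbc
    rw [hD, Ultrafilter.mem_map]
    filter_upwards [hY b, hY c, hfine b.1 b.2] with x hxb hxc hbx
    refine ⟨?_, ?_⟩
    · rw [hqY b x hxb, hqY c x hxc, inter_assoc, inter_eq_right.2 hbc]
    · exact ⟨x, hbx, hqY b x hxb⟩
  have h1 : ∀ b : PK κ lam, ∃ A : Set (Set b₀), ∀ᶠ c : PK κ lam in (W : Filter (PK κ lam)),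
      {g | Q b c g} = A := fun b =>
    ultra_const hW (by rw [mk_set]; exact (lt_succ _).trans_le (le_max_right _ _))
      (fun c => {g | Q b c g})
  choose A hA using h1
  obtain ⟨A₀, hA₀⟩ := ultra_const hW (T := Set (Set b₀)) (by
    rw [mk_set]; exact (lt_succ _).trans_le (le_max_right _ _)) A
  have hAD : A₀ ∈ D := by
    obtain ⟨b, hb⟩ := hA₀.exists
    obtain ⟨c, hc1, hc2⟩ := ((hA b).and (hWfine b.1 b.2)).exists
    rw [← hb, ← hc1]
    exact hQ b c hc2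
  obtain ⟨g, hg⟩ := D.nonempty_of_mem hAD
  have h2 : ∀ b, A b = A₀ → ∀ᶠ c : PK κ lam in (W : Filter (PK κ lam)), Q b c g := by
    intro b hb
    filter_upwards [hA b] with c hc
    have : g ∈ {g | Q b c g} := by rw [hc, hb]; exact hg
    exact this
  have h3 : ∀ b, A b = A₀ → (⋃ b' ∈ {b' | A b' = A₀}, q b' g) ∩ b.1 = q b g := by
    intro b hb
    apply Subset.antisymm
    · rintro s ⟨hs1, hs2⟩
      rw [mem_iUnion₂] at hs1
      obtain ⟨b', hb', hs3⟩ := hs1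
      obtain ⟨c, hc1, hc2⟩ := ((h2 b hb).and (h2 b' hb')).exists
      rw [← hc2.1] at hs3
      rw [← hc1.1]
      exact ⟨hs3.1, hs2⟩
    · intro s hs
      refine ⟨mem_iUnion₂.2 ⟨b, hb, hs⟩, ?_⟩
      obtain ⟨c, hc⟩ := (h2 b hb).exists
      rw [← hc.1] at hs
      exact hs.2
  refine ⟨⋃ b' ∈ {b' | A b' = A₀}, q b' g, fun b => ?_⟩
  obtain ⟨c, hc1, hc2⟩ := (hA₀.and (hWfine b.1 b.2)).exists
  obtain ⟨c', hc'⟩ := (h2 c hc1).exists
  obtain ⟨a, ha1, ha2⟩ := hc'.2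
  refine ⟨a, hc2.trans ha1, ?_⟩
  have h4 := h3 c hc1
  rw [ha2] at h4
  rw [← inter_eq_right.2 hc2, ← inter_assoc, ← inter_assoc, h4]

end Pool.Agent.Helper801_ASC
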