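import Mathlib
import Pool.Agent.Helper801_ASC.Slim

open Cardinal Ordinal Filter Set Order

universe u

namespace Pool.Agent.Helper801_ASC

variable {I J T S : Type u}

/-- The sets closed under a binary function into `P_κ(lam)` form a closed unbounded subset. -/
theorem isClubPK_closed {κ lam : Cardinal.{u}} (hκ : κ.IsRegular) (h0 : ℵ₀ < κ)
    (G : lam.ord.ToType → lam.ord.ToType → PK κ lam) :
    IsClubPK {b : PK κ lam | ∀ x ∈ b.1, ∀ y ∈ b.1, (G x y).1 ⊆ b.1} := by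
  classical
  refine ⟨fun a => ?_, fun X hX hne hXκ hchain => ?_⟩
  · -- unboundedness
    let step : PK κ lam → PK κ lam := fun a => ⟨a.1 ∪ ⋃ p : a.1 × a.1, (G p.1 p.2).1, by
      refine (mk_union_le _ _).trans_lt (add_lt_of_lt hκ.aleph0_le a.2 ?_)
      refine (card_iUnion_lt_iff_forall_of_isRegular hκ ?_).2 (fun p => (G p.1 p.2).2)
      rw [mk_prod, Cardinal.lift_id]
      exact mul_lt_of_lt hκ.aleph0_le a.2 a.2⟩
    let b : ℕ → PK κ lam := fun n => Nat.rec a (fun _ x => step x) n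
    have hbs : ∀ n, b (n + 1) = step (b n) := fun n => rfl
    have hmono1 : ∀ n, (b n).1 ⊆ (b (n + 1)).1 := by
      intro n
      rw [hbs]
      exact subset_union_left
    have hmono : ∀ n m, n ≤ m → (b n).1 ⊆ (b m).1 := by
      intro n m hnm
      induction hnm with
      | refl => exact Subset.rfl
      | step _ ih => exact ih.trans (hmono1 _)
    have hU : #(⋃ n : ULift.{u} ℕ, (b n.down).1 : Set lam.ord.ToType) < κ :=
      (card_iUnion_lt_iff_forall_of_isRegular hκ (by simpa using h0)).2 (fun n => (b n.down).2)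
    refine ⟨⟨_, hU⟩, fun x hx y hy => ?_, ?_⟩
    · obtain ⟨n, hn⟩ := mem_iUnion.1 hx
      obtain ⟨m, hm⟩ := mem_iUnion.1 hy
      have h1 : x ∈ (b (max n.down m.down)).1 := hmono _ _ (le_max_left _ _) hn
      have h2 : y ∈ (b (max n.down m.down)).1 := hmono _ _ (le_max_right _ _) hm
      have h3 : (G x y).1 ⊆ (b (max n.down m.down + 1)).1 := by
        rw [hbs]
        refine Subset.trans ?_ subset_union_right
        exact subset_iUnion (fun p : (b (max n.down m.down)).1 × (b (max n.down m.down)).1 =>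
          (G p.1 p.2).1) (⟨x, h1⟩, ⟨y, h2⟩)
      exact h3.trans (subset_iUnion (fun n : ULift.{u} ℕ => (b n.down).1)
        ⟨max n.down m.down + 1⟩)
    · exact subset_iUnion (fun n : ULift.{u} ℕ => (b n.down).1) ⟨0⟩
  · -- closure
    have hU : #(⋃ a ∈ X, a.1 : Set lam.ord.ToType) < κ := by
      rw [biUnion_eq_iUnion]
      exact (card_iUnion_lt_iff_forall_of_isRegular hκ hXκ).2 (fun a => a.1.2)
    refine ⟨⟨_, hU⟩, fun x hx y hy => ?_, rfl⟩
    obtain ⟨a, ha, hxa⟩ := mem_iUnion₂.1 hx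
    obtain ⟨c, hc, hyc⟩ := mem_iUnion₂.1 hy
    rcases hchain a ha c hc with h | h
    · exact (hX hc x (h hxa) y hyc).trans (subset_biUnion_of_mem (u := fun a : PK κ lam => a.1) hc)
    · exact (hX ha x hxa y (h hyc)).trans (subset_biUnion_of_mem (u := fun a : PK κ lam => a.1) ha)

/-- Lower half of the gap. -/
theorem gap_lower {κ θ δ : Cardinal.{u}} (hlim : IsSuccLimit κ) (hθκ : θ < κ)
    (hδ : ℵ₁ ≤ δ) (hθ : ℵ₀ ≤ θ)
    (hb : ∀ ρ < θ, ∀ T : Type u, #T < κ → ∀ (X : Type u) (U : Ultrafilter X),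
          CardinalInterFilter (U : Filter X) ℵ₁ → RegUF U ρ T → #T < θ)
    (hc : (θ.IsSingular ∧ θ.ord.cof < δ) ∨ (θ.IsRegular ∧ ¬ CarriesUniform δ θ)) :
    ∀ lam, θ ≤ lam → lam < plusCard θ δ.ord → ¬ CarriesUniform δ lam := by
  intro lam hl1 hl2 hl3
  obtain ⟨I, V, hV, hd⟩ := hl3.exists_decomp
  rcases hl1.lt_or_eq with hlt | heq
  · have hdesc := descent hV hδ hθ hlt hl2 hd
    rcases hc with ⟨hs, hcof⟩ | ⟨hr, hnc⟩
    · obtain ⟨ρ, hρ, hreg⟩ := hdesc.2 hs hcof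
      have h2 := hb ρ hρ _ (by rw [mk_ord_toType]; exact hlim.succ_lt hθκ) _ V
        (cif_mono hV hδ) hreg
      rw [mk_ord_toType] at h2
      exact absurd (le_succ θ) (not_le.2 h2)
    · exact hnc ((hdesc.1 hr).carriesUniform hV)
  · rcases hc with ⟨hs, hcof⟩ | ⟨hr, hnc⟩
    · rw [← heq] at hd
      exact not_decomp_of_lt hV (one_lt_aleph0.trans_le (aleph0_le_cof_ord hθ)) hcof
        (decomp_cof hs hd)
    · exact hnc (heq ▸ hl3)

theorem exists_lt_plusCard {θ μ x : Cardinal.{u}} (hθ : ℵ₀ ≤ θ) (hlim : IsSuccLimit θ)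
    (hμ : μ < θ) (hx : x < plusCard θ θ.ord) :
    ∃ δ, μ ≤ δ ∧ δ < θ ∧ x < plusCard θ δ.ord := by
  by_contra hcon
  push Not at hcon
  have hlim' : IsSuccLimit θ.ord := isSuccLimit_ord hθ
  refine absurd hx (not_lt.2 ?_)
  set b := preAleph.symm x with hb
  have hbθ : preAleph b = x := by rw [hb, OrderIso.apply_symm_apply]
  rw [← hbθ, plusCard, preAleph_le_preAleph, add_le_iff_of_isSuccLimit hlim']
  intro c hc
  have h2 : c ≤ (max μ (succ c.card)).ord :=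
    (lt_ord_succ_card c).le.trans (ord_le_ord.2 (le_max_right _ _))
  have h3 : max μ (succ c.card) < θ := max_lt hμ (hlim.succ_lt (lt_ord.1 hc))
  have h4 := hcon _ (le_max_left _ _) h3
  rw [← hbθ, plusCard, preAleph_le_preAleph] at h4
  exact (add_le_add_right h2 _).trans h4

/-- The main theorem on lists. -/
theorem slim_main {κ : Cardinal.{u}} (hκ : AlmostStronglyCompact κ)
    (hκ1 : OmegaOneStronglyCompact κ) (hleast : ∀ μ < κ, ¬ OmegaOneStronglyCompact μ)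
    {lam : Cardinal.{u}} (hlam : κ ≤ lam) (d : PK κ lam → Set lam.ord.ToType)
    (hslim : IsStationaryPK {b : PK κ lam | ∃ θ δ : Cardinal.{u}, MeetIs b θ ∧
      ℵ₁ ≤ δ ∧ δ < θ ∧
      ((¬ CarriesUniform δ θ ∧ #(traces d b) < plusCard θ θ.ord) ∨
        ∀ μ : Cardinal.{u}, θ ≤ μ → μ ≤ #(traces d b) → ¬ CarriesUniform δ μ)}) :
    ∃ D : Set lam.ord.ToType, IsCofinalBranch d D := by
  classical
  by_contra hbr
  have h1 : ℵ₁ < κ := hκ.1
  have h0 : ℵ₀ < κ := aleph0_lt_aleph_one.trans h1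
  have hreg : κ.IsRegular := isRegular_of_least hκ hleast
  have hlim : IsSuccLimit κ := isSuccLimit_of_least hreg h1 hκ1 hleast
  have hsl := strongLimit_of_limit hκ hreg hlim
  -- the bounds
  have hb : ∀ ρ : Cardinal.{u}, ∃ b < κ, ρ < κ → ∀ (T : Type u), #T < κ → ∀ (X : Type u)
      (U : Ultrafilter X), CardinalInterFilter (U : Filter X) ℵ₁ → RegUF U ρ T → #T < b := by
    intro ρ
    by_cases hρ : ρ < κ
    · obtain ⟨b, hb, hb'⟩ := exists_bound hreg h1 hκ1 hleast ρ hρ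
      exact ⟨b, hb, fun _ => hb'⟩
    · exact ⟨0, aleph0_pos.trans h0, fun h => absurd h hρ⟩
  choose b hb1 hb2 using hb
  -- the ultrafilters
  have hU : ∀ δ : Cardinal.{u}, ∃ U : Ultrafilter (PK κ lam), (δ < κ →
      CardinalInterFilter (U : Filter (PK κ lam)) δ) ∧
        ∀ s : Set lam.ord.ToType, #s < κ →
          ∀ᶠ e : PK κ lam in (U : Filter (PK κ lam)), s ⊆ e.1 := by
    intro δ
    by_cases hδ : δ < κ
    · obtain ⟨U, hU1, hU2⟩ := exists_fine_strong hreg (hκ.2 (max ℵ₁ δ)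
        (aleph0_lt_aleph_one.trans_le (le_max_left _ _)) (max_lt h1 hδ)) lam.ord.ToType
      exact ⟨U, fun _ => cif_mono hU1 (le_max_right _ _), hU2⟩
    · obtain ⟨U, hU1, hU2⟩ := exists_fine_strong hreg hκ1 lam.ord.ToType
      exact ⟨U, fun h => absurd h hδ, hU2⟩
  choose U hU1 hU2 using hU
  have hB : ∀ δ γ : Cardinal.{u}, ∃ B : PK κ lam, γ < κ →
      ∀ Y ∈ U δ, γ < #((fun x => d x ∩ B.1) '' Y) := by
    intro δ γ
    by_cases hγ : γ < κ
    · by_contra hcon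
      refine hbr (branch_of_small hκ hreg hsl d (hU2 δ) hγ (fun B hB => ?_))
      by_contra hcon2
      refine hcon ⟨⟨B, hB⟩, fun _ Y hY => ?_⟩
      by_contra hcon3
      exact hcon2 ⟨Y, hY, not_lt.1 hcon3⟩
    · exact ⟨⟨∅, by simpa using hreg.pos⟩, fun h => absurd h hγ⟩
  choose B hB using hB
  -- the club
  let H : Ordinal.{u} → Ordinal.{u} := fun α => max (b α.card).ord (succ α.card).ord
  have hH : ∀ α < κ.ord, H α < κ.ord := fun α hα =>
    max_lt (ord_lt_ord.2 (hb1 _)) (ord_lt_ord.2 (hlim.succ_lt (lt_ord.1 hα)))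
  let G : lam.ord.ToType → lam.ord.ToType → PK κ lam := fun x y =>
    ⟨(B (x.toOrd : Ordinal).card (y.toOrd : Ordinal).card).1 ∪
      {z | (z.toOrd : Ordinal) = H (y.toOrd : Ordinal)}, by
      refine (mk_union_le _ _).trans_lt (add_lt_of_lt hreg.aleph0_le (B _ _).2 ?_)
      have hsub : Set.Subsingleton {z : lam.ord.ToType |
          (z.toOrd : Ordinal) = H (y.toOrd : Ordinal)} := by
        intro z hz z' hz'
        have hz1 : (z.toOrd : Ordinal) = (z'.toOrd : Ordinal) := Eq.trans hz (Eq.symm hz')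
        exact le_antisymm (toOrd_le_toOrd.1 hz1.le) (toOrd_le_toOrd.1 hz1.ge)
      exact (mk_le_one_iff_set_subsingleton.2 hsub).trans_lt
        (one_lt_aleph0.trans_le hreg.aleph0_le)⟩
  obtain ⟨a, ⟨θ, δ₀, ⟨hθκ, hmeet⟩, hδ₀1, hδ₀2, hcase⟩, hclosed⟩ :=
    hslim _ (isClubPK_closed hreg h0 G)
  have hκlam : κ.ord ≤ lam.ord := ord_le_ord.2 hlam
  have hmem : ∀ α (hα : α < lam.ord), α < θ.ord → (ToType.mk ⟨α, hα⟩ : lam.ord.ToType) ∈ a.1 := by
    intro α hα hαθ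
    refine (hmeet _ ?_).2 ?_
    · rw [toOrd_mk]; exact hαθ.trans (ord_lt_ord.2 hθκ)
    · rw [toOrd_mk]; exact hαθ
  have hθlam : θ.ord < lam.ord := (ord_lt_ord.2 hθκ).trans_le hκlam
  have hθinf : ℵ₀ ≤ θ := (aleph0_lt_aleph_one.trans_le (hδ₀1.trans hδ₀2.le)).le
  have hθ0 : (0 : Ordinal) < θ.ord := (isSuccLimit_ord hθinf).bot_lt
  have hclos : ∀ α < θ.ord, H α < θ.ord := by
    intro α hα
    have hα' : α < lam.ord := hα.trans hθlam
    have hx := hmem α hα' hα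
    have h2 := hclosed _ hx _ hx
    have hHκ : H α < κ.ord := hH α (hα.trans (ord_lt_ord.2 hθκ))
    have h3 : (ToType.mk ⟨H α, hHκ.trans_le hκlam⟩ : lam.ord.ToType) ∈ a.1 := by
      refine h2 (Or.inr ?_)
      change (((ToType.mk ⟨H α, hHκ.trans_le hκlam⟩ : lam.ord.ToType).toOrd :
        Iio lam.ord) : Ordinal) = H _
      rw [toOrd_mk, toOrd_mk]
    have h4 := (hmeet _ (by rw [toOrd_mk]; exact hHκ)).1 h3
    rwa [toOrd_mk] at h4
  have hθlim : IsSuccLimit θ := by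
    have h5 : ∀ c < θ, succ c < θ := by
      intro c hc
      have h2 := hclos c.ord (ord_lt_ord.2 hc)
      have h3 := (le_max_right _ _).trans_lt h2
      rw [card_ord] at h3
      exact ord_lt_ord.1 h3
    refine ⟨fun hmin => ?_, fun c hc => ?_⟩
    · have := hmin (bot_le : (⊥ : Cardinal) ≤ θ)
      exact absurd (this.trans_lt (aleph0_pos.trans_le hθinf)) (lt_irrefl _)
    · exact (h5 c hc.lt).not_ge (succ_le_of_lt hc.lt |>.antisymm (hc.succ_eq ▸ le_rfl) |>.ge)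
  have hbd : ∀ ρ < θ, ∀ T : Type u, #T < κ → ∀ (X : Type u) (V : Ultrafilter X),
      CardinalInterFilter (V : Filter X) ℵ₁ → RegUF V ρ T → #T < θ := by
    intro ρ hρ T hT X V hV hr
    have h2 := hclos ρ.ord (ord_lt_ord.2 hρ)
    have h3 := (le_max_left _ _).trans_lt h2
    rw [card_ord] at h3
    exact (hb2 ρ (hρ.trans hθκ) T hT X V hV hr).trans (ord_lt_ord.1 h3)
  -- the size of the ultrafilters on the traces
  have key : ∀ δ < θ, ∃ σ, θ ≤ σ ∧ σ ≤ #(traces d a) ∧ CarriesUniform δ σ := by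
    intro δ hδ2
    obtain ⟨σ, hσ, ⟨Y, hY, hYσ⟩, hσmin⟩ := exists_decomp (U δ) (fun x => d x ∩ a.1)
    have hσ1 : θ ≤ σ := by
      by_contra hcon
      rw [not_le] at hcon
      have hBa : (B δ σ).1 ⊆ a.1 := by
        have hx := hmem δ.ord ((ord_lt_ord.2 hδ2).trans hθlam) (ord_lt_ord.2 hδ2)
        have hy := hmem σ.ord ((ord_lt_ord.2 hcon).trans hθlam) (ord_lt_ord.2 hcon)
        have h2 := hclosed _ hx _ hy
        have h3 := subset_union_left.trans h2
        rw [toOrd_mk, toOrd_mk, card_ord, card_ord] at h3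
        exact h3
      have h4 := hB δ σ (hcon.trans hθκ) Y hY
      refine absurd h4 (not_lt.2 ?_)
      refine le_trans ?_ hYσ.le
      have : (fun x => d x ∩ (B δ σ).1) '' Y =
          (fun t => t ∩ (B δ σ).1) '' ((fun x => d x ∩ a.1) '' Y) := by
        rw [image_image]
        refine image_congr (fun x _ => ?_)
        rw [inter_assoc, inter_eq_right.2 hBa]
      rw [this]
      exact mk_image_le
    have hσ2 : σ ≤ #(traces d a) := by
      refine (hσmin _ (hU2 δ a.1 a.2)).trans (mk_le_mk_of_subset ?_)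
      rintro _ ⟨x, hx, rfl⟩
      exact ⟨x, hx, rfl⟩
    exact ⟨σ, hσ1, hσ2, hσ.carriesUniform (hU1 δ (hδ2.trans hθκ))⟩
  rcases hcase with ⟨hnc, htr⟩ | hnc
  · -- the choice of `δ`
    have hex : ∃ μ, ℵ₁ ≤ μ ∧ μ < θ ∧ ∀ δ, μ ≤ δ → δ < θ →
        ((θ.IsSingular ∧ θ.ord.cof < δ) ∨ (θ.IsRegular ∧ ¬ CarriesUniform δ θ)) := by
      rcases isRegular_or_isSingular hθinf with hr | hs
      · exact ⟨δ₀, hδ₀1, hδ₀2, fun δ hδ1 _ => Or.inr ⟨hr, fun h => hnc (h.mono hδ1)⟩⟩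
      · refine ⟨max ℵ₁ (succ θ.ord.cof), le_max_left _ _, max_lt (hδ₀1.trans_lt hδ₀2)
          (hθlim.succ_lt (lt_of_le_of_ne (cof_ord_le θ) hs.cof_ord_ne)), fun δ hδ1 _ =>
          Or.inl ⟨hs, (lt_succ _).trans_le ((le_max_right _ _).trans hδ1)⟩⟩
    obtain ⟨μ, hμ1, hμ2, hμ3⟩ := hex
    obtain ⟨δ, hδ1, hδ2, hδ3⟩ := exists_lt_plusCard hθinf hθlim hμ2 htr
    have hgap := gap_lower hlim hθκ (hμ1.trans hδ1) hθinf hbd (hμ3 δ hδ1 hδ2)
    obtain ⟨σ, hσ1, hσ2, hσ3⟩ := key δ hδ2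
    exact hgap σ hσ1 (hσ2.trans_lt hδ3) hσ3
  · obtain ⟨σ, hσ1, hσ2, hσ3⟩ := key δ₀ hδ₀2
    exact hnc σ hσ1 hσ2 hσ3

end Pool.Agent.Helper801_ASC
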