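import Mathlib
import Pool.Agent.Helper801_ASC.Slim2
import Pool.Agent.Helper801_ASC.GapDefs

open Cardinal Ordinal Filter Set Order

universe u

namespace Pool.Agent.Helper801_ASC

variable {I J T S : Type u}

/-- Kunen–Prikry at successors of singular cardinals, for countably complete ultrafilters: an
`η⁺`-decomposable ultrafilter is `(ρ, η⁺)`-regular for some `ρ < η` or `cf(η)`-decomposable. -/
theorem reg_or_decomp_cof {U : Ultrafilter I}
    (hU1 : CardinalInterFilter (U : Filter I) ℵ₁)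
    {η : Cardinal.{u}} (hη : η.IsSingular) (h : Decomp U (succ η)) :
    (∃ ρ < η, RegUF U ρ (succ η).ord.ToType) ∨ Decomp U η.ord.cof := by
  classical
  have hreg : (succ η).IsRegular := isRegular_succ hη.aleph0_le
  obtain ⟨f, hf, hwn⟩ := exists_wn hU1 (unb_of_decomp h)
  have hne : ∀ o : Ordinal.{u}, o.cof ≠ η := by
    intro o ho
    refine hη.cof_ord_ne ?_
    rw [← ho]
    exact cof_ord_cof o
  have hlt : ∀ᶠ x in U, (f x).cof < η := by
    filter_upwards [hf.1] with x hx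
    exact lt_of_le_of_ne (cof_le_of_lt_succ hx) (hne _)
  by_cases hb : ∃ ρ < η, ∀ᶠ x in U, (f x).cof < ρ
  · obtain ⟨ρ, hρ, hρ'⟩ := hb
    exact Or.inl ⟨ρ, hρ, reg_of_cof hreg hf hwn hρ'⟩
  · right
    push Not at hb
    obtain ⟨C, c, hC, hc1, hc2⟩ := exists_cofinal_fun η.ord
    have hη0 : IsSuccLimit η.ord := isSuccLimit_ord hη.aleph0_le
    have hk : ∀ x, ∃ i : C, (f x).cof < η → (f x).cof.ord < c i := by
      intro x
      by_cases hx : (f x).cof < η
      · obtain ⟨i, hi⟩ := hc2 (succ (f x).cof.ord) (hη0.succ_lt (ord_lt_ord.2 hx))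
        exact ⟨i, fun _ => succ_le_iff.1 hi⟩
      · obtain ⟨i, -⟩ := hc2 0 hη0.bot_lt
        exact ⟨i, fun h => absurd h hx⟩
    choose k hk using hk
    refine ⟨C, k, hC, fun A hA hmem => ?_⟩
    obtain ⟨β, hβ, hβ'⟩ := sup_lt_cof (a := η.ord) (ι := A) hA (f := fun a => c a.1)
      (fun a => hc1 _)
    have h1 := hb (succ β.card) (hη.isSuccLimit.succ_lt (lt_ord.1 hβ))
    obtain ⟨x, hx1, hx2, hx3⟩ := (h1.and (hlt.and hmem)).exists
    have h2 := (hk x hx2).trans (hβ' ⟨k x, hx3⟩)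
    have h3 : (f x).cof ≤ β.card := by
      have := Ordinal.card_le_card h2.le
      rwa [card_ord] at this
    exact absurd (lt_succ_iff.2 h3) (not_lt.2 hx1)

theorem firstUniform_of_least {δ θ lam : Cardinal.{u}} (hδ : ℵ₁ ≤ δ) (hθ : ℵ₀ ≤ θ)
    (hlt' : succ θ < lam)
    (h : IsLeast {μ : Cardinal.{u} | θ ≤ μ ∧ CarriesUniform δ μ} lam) :
    FirstUniform δ θ lam := by
  classical
  refine ⟨h, ?_⟩
  have hlt : θ < lam := (lt_succ θ).trans hlt'
  have hmin : ∀ μ, θ ≤ μ → μ < lam → ¬ CarriesUniform δ μ := fun μ h1 h2 h3 =>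
    absurd (h.2 ⟨h1, h3⟩) (not_le.2 h2)
  obtain ⟨I, V, hV, hd⟩ := h.1.2.exists_decomp
  have hV1 : CardinalInterFilter (V : Filter I) ℵ₁ := cif_mono hV hδ
  have hinf : ℵ₀ ≤ lam := hθ.trans hlt.le
  have hge : ∀ μ : Cardinal.{u}, ℵ₀ ≤ μ → Decomp V μ → δ ≤ μ := fun μ h1 h2 => by
    by_contra hcon
    exact not_decomp_of_lt hV (one_lt_aleph0.trans_le h1) (not_le.1 hcon) h2
  have hsmall : ∀ μ < lam, Decomp V μ → μ < θ := fun μ h1 h2 => by
    by_contra hcon
    exact hmin μ (not_lt.1 hcon) h1 (h2.carriesUniform hV)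
  by_cases hlim : IsSuccLimit lam
  · rcases isRegular_or_isSingular hinf with hr | hs
    · exact Or.inl ⟨hr, hlim⟩
    · refine Or.inr ⟨lam, hs, ?_, ?_, ?_, Or.inl rfl⟩
      · exact hge _ (aleph0_le_cof_ord hinf) (decomp_cof hs hd)
      · exact hsmall _ (lt_of_le_of_ne (cof_ord_le lam) hs.cof_ord_ne) (decomp_cof hs hd)
      · exact (decomp_cof hs hd).carriesUniform hV
  · obtain ⟨η, hη⟩ : ∃ η, lam = succ η := by
      have h2 : ¬ IsSuccPrelimit lam := by
        intro h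
        refine hlim ⟨?_, h⟩
        intro hmin
        have := hmin (bot_le : (⊥ : Cardinal) ≤ lam)
        exact absurd (this.trans_lt (aleph0_pos.trans_le hinf)) (lt_irrefl _)
      obtain ⟨τ, hτ⟩ := mem_range_succ_of_not_isSuccPrelimit h2
      exact ⟨τ, hτ.symm⟩
    have hηl : η < lam := by rw [hη]; exact lt_succ η
    have hθη : θ ≤ η := by rw [hη] at hlt; exact lt_succ_iff.1 hlt
    have hηinf : ℵ₀ ≤ η := hθ.trans hθη
    rw [hη] at hd
    rcases isRegular_or_isSingular hηinf with hr | hs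
    · exact absurd ((decomp_of_decomp_succ hV1 hr hd).carriesUniform hV) (hmin η hθη hηl)
    · have hθη' : θ < η ∨ θ = η := hθη.lt_or_eq
      rcases reg_or_decomp_cof hV1 hs hd with ⟨ρ, hρ, hρ'⟩ | hdc
      · rcases hθη' with h1 | h1
        · exfalso
          have hm : max ρ θ < η := max_lt hρ h1
          have hd2 : Decomp V (succ (max ρ θ)) := by
            refine hρ'.decomp (isRegular_succ (hθ.trans (le_max_right _ _)))
              ((le_max_left _ _).trans (le_succ _)) ?_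
            rw [mk_ord_toType]
            exact succ_le_succ hm.le
          exact absurd (hsmall _ ((hs.isSuccLimit.succ_lt hm).trans hηl) hd2)
            (not_lt.2 ((le_max_right _ _).trans (le_succ _)))
        · rw [hη, ← h1] at hlt'
          exact absurd hlt' (lt_irrefl _)
      · refine Or.inr ⟨η, hs, hge _ (aleph0_le_cof_ord hηinf) hdc, ?_,
          hdc.carriesUniform hV, Or.inr hη⟩
        exact hsmall _ ((lt_of_le_of_ne (cof_ord_le η) hs.cof_ord_ne).trans hηl) hdc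

theorem succ_lt_plusCard {δ θ : Cardinal.{u}} (hδ : ℵ₀ ≤ δ) : succ θ < plusCard θ δ.ord := by
  have h1 : succ θ = preAleph (preAleph.symm θ + 1) := by
    rw [← succ_preAleph, OrderIso.apply_symm_apply]
  rw [h1, plusCard, preAleph_lt_preAleph]
  have h2 : (1 : Ordinal) < δ.ord := by
    have h3 := (isSuccLimit_ord hδ)
    have := h3.succ_lt h3.bot_lt
    simpa using this
  exact (add_lt_add_iff_left _).2 h2

/-- The least cardinal `lam ≥ θ` carrying a uniform `δ`-complete ultrafilter, in the case of a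
gap. -/
theorem exists_firstUniform {δ θ : Cardinal.{u}} (hδ : ℵ₁ ≤ δ) (hθ : ℵ₀ ≤ θ)
    (h1 : ∀ lam, θ ≤ lam → lam < plusCard θ δ.ord → ¬ CarriesUniform δ lam)
    (h2 : ∃ lam, plusCard θ δ.ord ≤ lam ∧ lam ≤ 2 ^ θ ∧ CarriesUniform δ lam) :
    ∃ lam, FirstUniform δ θ lam ∧ plusCard θ δ.ord ≤ lam ∧ lam ≤ 2 ^ θ := by
  have hδ0 : ℵ₀ ≤ δ := (aleph0_lt_aleph_one.trans_le hδ).le
  obtain ⟨lam₀, hl1, hl2, hl3⟩ := h2
  have hθ0 : θ ≤ lam₀ := (le_succ θ).trans ((succ_lt_plusCard hδ0).le.trans hl1)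
  obtain ⟨lam, hlam, hmin⟩ := (wellFounded_lt (α := Cardinal.{u})).has_min
    {μ : Cardinal.{u} | θ ≤ μ ∧ CarriesUniform δ μ} ⟨lam₀, hθ0, hl3⟩
  have hleast : IsLeast {μ : Cardinal.{u} | θ ≤ μ ∧ CarriesUniform δ μ} lam :=
    ⟨hlam, fun μ hμ => not_lt.1 (hmin μ hμ)⟩
  have h3 : plusCard θ δ.ord ≤ lam := not_lt.1 (fun h => h1 lam hlam.1 h hlam.2)
  exact ⟨lam, firstUniform_of_least hδ hθ ((succ_lt_plusCard hδ0).trans_le h3) hleast, h3,
    (hleast.2 ⟨hθ0, hl3⟩).trans hl2⟩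

end Pool.Agent.Helper801_ASC
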