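import Mathlib
import Pool.Agent.Helper801_ASC.Main

open Cardinal Ordinal Filter Set Order

universe u

namespace Pool.Agent.Helper801_ASC

/-- Every closed unbounded set contains ordinals `θ.ord` for infinite cardinals `θ < κ`. -/
theorem club_has_card {κ : Cardinal.{u}} (hreg : κ.IsRegular) (h0 : ℵ₀ < κ)
    (hlim : IsSuccLimit κ) {C : Set Ordinal.{u}} (hC : IsClubBelow κ C)
    (n : Cardinal.{u} → Cardinal.{u}) (hn : ∀ c < κ, n c < κ) :
    ∃ θ : Cardinal.{u}, θ.ord ∈ C ∧ ℵ₀ < θ ∧ θ < κ ∧ ∀ c < θ, n c < θ := by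
  classical
  obtain ⟨hC1, hC2, hC3⟩ := hC
  choose! s hs1 hs2 using hC2
  have hH : ∀ ε < κ.ord, ∀ α < κ.ord,
      (fun _ α => max (s α) (max (max (succ α.card) (succ ℵ₀)).ord (n α.card).ord) :
        Ordinal.{u} → Ordinal.{u} → Ordinal.{u}) ε α < κ.ord := by
    intro ε _ α hα
    refine max_lt (hC1 _ (hs1 α hα)) (max_lt (ord_lt_ord.2 (max_lt ?_ ?_)) (ord_lt_ord.2 (hn _ ?_)))
    · exact hlim.succ_lt (lt_ord.1 hα)
    · exact hlim.succ_lt h0
    · exact lt_ord.1 hα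
  obtain ⟨-, hcl, -⟩ := isClubBelow_closedUnder hreg h0 hH
  obtain ⟨β, ⟨hβ1, hβ2, hβ3⟩, -⟩ := hcl 0 (ord_pos.2 hreg.pos)
  have hβ0 : 0 < β := pos_iff_ne_zero.2 hβ2
  have hcard : β.card.ord = β := by
    refine le_antisymm (ord_card_le β) (not_lt.1 fun hlt => ?_)
    have h1 := hβ3 0 hβ0 _ hlt
    have h2 : (succ β.card).ord < β := by
      refine lt_of_le_of_lt ?_ h1
      simp only [card_ord]
      exact ((ord_le_ord.2 (le_max_left _ _)).trans (le_max_left _ _)).trans (le_max_right _ _)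
    exact absurd (lt_ord_succ_card β) (not_lt.2 h2.le)
  refine ⟨β.card, ?_, ?_, ?_, fun c hc => ?_⟩
  · rw [hcard]
    refine hC3 β hβ1 hβ2 (fun α hα => ⟨s α, hs1 α (hα.trans hβ1), hs2 α (hα.trans hβ1), ?_⟩)
    exact (le_max_left _ _).trans_lt (hβ3 0 hβ0 α hα)
  · have h1 := hβ3 0 hβ0 0 hβ0
    have h2 : (succ ℵ₀ : Cardinal.{u}).ord < β := lt_of_le_of_lt
      (((ord_le_ord.2 (le_max_right _ _)).trans (le_max_left _ _)).trans (le_max_right _ _)) h1
    rw [← hcard] at h2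
    exact (lt_succ _).trans (ord_lt_ord.1 h2)
  · rw [← hcard] at hβ1
    exact ord_lt_ord.1 hβ1
  · have h1 : c.ord < β := by rw [← hcard]; exact ord_lt_ord.2 hc
    have h2 := hβ3 0 hβ0 _ h1
    have h3 : (n c).ord < β := by
      refine lt_of_le_of_lt ?_ h2
      simp only [card_ord]
      exact (le_max_right _ _).trans (le_max_right _ _)
    rw [← hcard] at h3
    exact ord_lt_ord.1 h3

end Pool.Agent.Helper801_ASC
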