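import Mathlib
import Pool.Agent.Helper801_ASC.Classify

/-!
# The gap theorem, uniformly for regular and singular cardinals
-/

open Cardinal Ordinal Filter Set Order

universe u

namespace Pool.Agent.Helper801_ASC

variable {I J T : Type u}

/-- Descent: a `δ`-complete ultrafilter which is `lam`-decomposable for some `lam` strictly
between `θ` and `θ^{+δ}` is `cf(θ)`-decomposable or `(ρ, θ⁺)`-regular for some `ρ < θ`. -/
theorem descent' {U : Ultrafilter I} {δ θ lam : Cardinal.{u}}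
    (hU : CardinalInterFilter (U : Filter I) δ) (hδ : ℵ₁ ≤ δ) (hθ : ℵ₀ ≤ θ)
    (h1 : θ < lam) (h2 : lam < plusCard θ δ.ord) (h : Decomp U lam) :
    Decomp U θ.ord.cof ∨ ∃ ρ < θ, RegUF U ρ (succ θ).ord.ToType := by
  classical
  have hU1 : CardinalInterFilter (U : Filter I) ℵ₁ := cif_mono hU hδ
  obtain ⟨lam', ⟨h1', h2', h'⟩, hmin⟩ := (wellFounded_lt (α := Cardinal.{u})).has_min
    {μ | θ < μ ∧ μ < plusCard θ δ.ord ∧ Decomp U μ} ⟨lam, h1, h2, h⟩
  clear h1 h2 h lam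
  have hmin' : ∀ μ, θ < μ → μ < lam' → ¬ Decomp U μ := by
    intro μ hμ1 hμ2 hμ3
    exact hmin μ ⟨hμ1, hμ2.trans h2', hμ3⟩ hμ2
  clear hmin
  set o := preAleph.symm θ with ho
  have hθo : preAleph o = θ := by rw [ho, OrderIso.apply_symm_apply]
  obtain ⟨a, ha⟩ : ∃ a, preAleph a = lam' := ⟨preAleph.symm lam', OrderIso.apply_symm_apply _ _⟩
  have hoa : o < a := by
    rw [← preAleph_lt_preAleph, hθo, ha]; exact h1'
  have hao : a < o + δ.ord := by
    rw [← preAleph_lt_preAleph, ha]; exact h2'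
  obtain ⟨ε, hε⟩ : ∃ ε, o + ε = a := ⟨a - o, Ordinal.add_sub_cancel_of_le hoa.le⟩
  have hεδ : ε < δ.ord := by
    rw [← hε] at hao
    exact (add_lt_add_iff_left o).1 hao
  have hε0 : ε ≠ 0 := by
    rintro rfl
    rw [add_zero] at hε
    exact hoa.ne hε
  rcases zero_or_succ_or_isSuccLimit ε with h0 | ⟨ε', hε'⟩ | hlim
  · exact absurd h0 hε0
  · -- successor case
    have hlam : lam' = succ (preAleph (o + ε')) := by
      rw [succ_preAleph, ← ha, ← hε, ← hε', add_assoc]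
      rfl
    by_cases hz : ε' = 0
    · have hη : lam' = succ θ := by rw [hlam, hz, add_zero, hθo]
      rw [hη] at h'
      rcases isRegular_or_isSingular hθ with hr | hs
      · left
        rw [hr.cof_ord]
        exact decomp_of_decomp_succ hU1 hr h'
      · exact (reg_or_decomp_cof hU1 hs h').symm
    · exfalso
      set η := preAleph (o + ε') with hη
      have hθη : θ < η := by
        rw [hη, ← hθo, preAleph_lt_preAleph]
        exact lt_add_of_pos_right o (pos_iff_ne_zero.2 hz)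
      have hηl : η < lam' := by rw [hlam]; exact lt_succ η
      have hηi : ℵ₀ ≤ η := hθ.trans hθη.le
      rcases isRegular_or_isSingular hηi with hr | hs
      · refine hmin' η hθη hηl (decomp_of_decomp_succ hU1 hr ?_)
        rwa [← hlam]
      · have hlim' : IsSuccLimit (o + ε') := isSuccLimit_of_preAleph hs.isSuccLimit
        have hcof : η.ord.cof < δ := by
          rw [hη, cof_preAleph_add hz hlim']
          refine (cof_le_card _).trans_lt (lt_ord.1 (lt_of_le_of_lt ?_ hεδ))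
          rw [← hε']
          exact le_succ ε'
        rw [hlam] at h'
        obtain ⟨ρ, hρ, hreg⟩ := reg_of_decomp_succ hU hU1 hs hcof h'
        have hm : max ρ θ < η := max_lt hρ hθη
        refine hmin' (succ (max ρ θ)) (lt_succ_iff.2 (le_max_right _ _))
          ((hs.isSuccLimit.succ_lt hm).trans hηl)
          (hreg.decomp (isRegular_succ (hθ.trans (le_max_right _ _)))
            ((le_max_left _ _).trans (le_succ _)) ?_)
        rw [mk_ord_toType]
        exact succ_le_succ hm.le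
  · -- limit case
    exfalso
    have hlim' : IsSuccLimit (o + ε) := isSuccLimit_add o hlim
    have hcof : lam'.ord.cof < δ := by
      rw [← ha, ← hε, cof_preAleph_add hε0 hlim']
      exact (cof_le_card _).trans_lt (lt_ord.1 hεδ)
    have hi : ℵ₀ ≤ lam' := hθ.trans h1'.le
    exact not_decomp_of_lt hU (one_lt_aleph0.trans_le (aleph0_le_cof_ord hi)) hcof
      (decomp_ord_cof hi h')

/-- Lower half of the gap. -/
theorem gap_lower' {κ θ δ : Cardinal.{u}} (hlim : IsSuccLimit κ) (hθκ : θ < κ)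
    (hδ : ℵ₁ ≤ δ) (hθ : ℵ₀ ≤ θ)
    (hb : ∀ ρ < θ, ∀ T : Type u, #T < κ → ∀ (X : Type u) (U : Ultrafilter X),
          CardinalInterFilter (U : Filter X) ℵ₁ → RegUF U ρ T → #T < θ)
    (hc : ¬ CarriesUniform δ θ.ord.cof) :
    ∀ lam, θ ≤ lam → lam < plusCard θ δ.ord → ¬ CarriesUniform δ lam := by
  intro lam hl1 hl2 hl3
  obtain ⟨I, V, hV, hd⟩ := hl3.exists_decomp
  rcases hl1.lt_or_eq with hlt | heq
  · rcases descent' hV hδ hθ hlt hl2 hd with h1 | ⟨ρ, hρ, hreg⟩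
    · exact hc (h1.carriesUniform hV)
    · have h2 := hb ρ hρ _ (by rw [mk_ord_toType]; exact hlim.succ_lt hθκ) _ V
        (cif_mono hV hδ) hreg
      rw [mk_ord_toType] at h2
      exact absurd (le_succ θ) (not_le.2 h2)
  · rw [← heq] at hd
    exact hc ((decomp_ord_cof hθ hd).carriesUniform hV)

/-- The gap at `θ` for `δ`-complete uniform ultrafilters. -/
theorem gap_of_structure' {κ θ δ : Cardinal.{u}} (hlim : IsSuccLimit κ) (hθκ : θ < κ)
    (hδ : ℵ₁ ≤ δ) (hθ : ℵ₀ ≤ θ)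
    (hb : ∀ ρ < θ, ∀ T : Type u, #T < κ → ∀ (X : Type u) (U : Ultrafilter X),
          CardinalInterFilter (U : Filter X) ℵ₁ → RegUF U ρ T → #T < θ)
    (hU : ∃ (K : Type u) (U : Ultrafilter K), CardinalInterFilter (U : Filter K) δ ∧
          ∀ ν < θ, ∃ lam, ν < lam ∧ lam < θ ∧ Decomp U lam)
    (hc : ¬ CarriesUniform δ θ.ord.cof) :
    ∃ lam, FirstUniform δ θ lam ∧ plusCard θ δ.ord ≤ lam ∧ lam ≤ 2 ^ θ := by
  have h1 := gap_lower' hlim hθκ hδ hθ hb hc
  obtain ⟨K, U, hU1, hU2⟩ := hU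
  obtain ⟨lam, hl1, hl2, hl3⟩ := exists_decomp_between hθ hU2
  have hl4 := hl3.carriesUniform hU1
  exact exists_firstUniform hδ hθ h1 ⟨lam, not_lt.1 (fun h => h1 lam hl1 h hl4), hl2, hl4⟩

/-- Below the completeness there are no uniform ultrafilters. -/
theorem not_carriesUniform_of_lt {δ lam : Cardinal.{u}} (h1 : ℵ₀ ≤ lam) (h2 : lam < δ) :
    ¬ CarriesUniform δ lam := by
  intro h
  obtain ⟨I, V, hV, hd⟩ := h.exists_decomp
  exact not_decomp_of_lt hV (one_lt_aleph0.trans_le h1) h2 hd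

/-- The full gap theorem. -/
theorem gap_main {κ : Cardinal.{u}} (hκ : AlmostStronglyCompact κ)
    (hκ1 : OmegaOneStronglyCompact κ)
    (hleast : ∀ μ < κ, ¬ OmegaOneStronglyCompact μ) (hns : ¬ StronglyCompact κ) :
    κ.IsInaccessible ∧ ∃ H : Ordinal.{u} → Ordinal.{u} → Ordinal.{u},
      (∀ ε < κ.ord, ∀ α < κ.ord, H ε α < κ.ord) ∧ ∀ θ : Cardinal.{u},
        θ.ord ∈ ClosedUnder κ H → θ.IsStrongLimit ∧ (θ.IsSingular → plusCard θ θ.ord < 2 ^ θ) ∧
          ∀ δ : Cardinal.{u}, ℵ₁ ≤ δ → δ < θ → ¬ CarriesUniform δ θ.ord.cof →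
            plusCard θ θ.ord < 2 ^ θ ∧
            ∃ lam : Cardinal.{u}, FirstUniform δ θ lam ∧
              plusCard θ δ.ord ≤ lam ∧ lam ≤ 2 ^ θ := by
  classical
  obtain ⟨hinac, H, hH, hst⟩ := structure_thm hκ hleast hns
  have hreg : κ.IsRegular := hinac.isRegular
  have hlim : Order.IsSuccLimit κ := isSuccLimit_of_least hreg hκ.1 hκ1 hleast
  refine ⟨hinac, fun ε α => max (H ε α) (ord ℵ₁), fun ε hε α hα =>
    max_lt (hH ε hε α hα) (ord_lt_ord.2 hκ.1), fun θ hθ => ?_⟩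
  have hθH : θ.ord ∈ ClosedUnder κ H := ClosedUnder.mono (fun _ _ => le_max_left _ _) hθ
  have h1θ : ℵ₁ < θ := by
    have h0 : (0 : Ordinal) < θ.ord := pos_iff_ne_zero.2 hθ.2.1
    exact ord_lt_ord.1 ((le_max_right _ _).trans_lt (hθ.2.2 0 h0 0 h0))
  have hθκ : θ < κ := ord_lt_ord.1 hθ.1
  have hθinf : ℵ₀ ≤ θ := (aleph0_lt_aleph_one.trans h1θ).le
  obtain ⟨ha, hb, hc⟩ := hst θ hθH
  have hsl : θ.IsStrongLimit := ⟨(aleph0_pos.trans_le hθinf).ne', fun c hc => ha c hc⟩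
  have hlimθ : IsSuccLimit θ := IsStrongLimit.isSuccLimit hsl
  have hgap : ∀ δ : Cardinal.{u}, ℵ₁ ≤ δ → δ < θ → ¬ CarriesUniform δ θ.ord.cof →
      ∃ lam : Cardinal.{u}, FirstUniform δ θ lam ∧ plusCard θ δ.ord ≤ lam ∧ lam ≤ 2 ^ θ := by
    intro δ hδ1 hδ2 hnc
    obtain ⟨U, hU⟩ := hc δ hδ2
    exact gap_of_structure' hlim hθκ hδ1 hθinf hb ⟨_, U, hU⟩ hnc
  have hpow : ∀ δ : Cardinal.{u}, ℵ₁ ≤ δ → δ < θ → ¬ CarriesUniform δ θ.ord.cof →
      plusCard θ θ.ord < 2 ^ θ := by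
    intro δ hδ1 hδ2 hnc
    refine plusCard_lt_two_power hθinf hlimθ hδ2 (fun δ' hδ1' hδ2' => ?_)
    obtain ⟨lam, -, hl1, hl2⟩ := hgap δ' (hδ1.trans hδ1') hδ2' (fun h => hnc (h.mono hδ1'))
    exact hl1.trans hl2
  refine ⟨hsl, fun hs => ?_, fun δ hδ1 hδ2 hnc => ⟨hpow δ hδ1 hδ2 hnc, hgap δ hδ1 hδ2 hnc⟩⟩
  have hcof : succ θ.ord.cof < θ :=
    hlimθ.succ_lt (lt_of_le_of_ne (cof_ord_le θ) hs.cof_ord_ne)
  exact hpow (max ℵ₁ (succ θ.ord.cof)) (le_max_left _ _) (max_lt h1θ hcof)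
    (not_carriesUniform_of_lt (aleph0_le_cof_ord hθinf)
      ((lt_succ _).trans_le (le_max_right _ _)))

end Pool.Agent.Helper801_ASC
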