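import Mathlib
import Pool.Agent.Helper801_ASC.KMin

/-!
# Minimal `δ`-complete ultrafilters on `κ`
-/

open Cardinal Ordinal Filter Set Order

universe u

namespace Pool.Agent.Helper801_ASC

variable {I J T : Type u}

/-- The ordinal `o` carries a cofinal `δ`-complete ultrafilter. -/
def CarriesCofD (δ : Cardinal.{u}) (o : Ordinal.{u}) : Prop :=
  ∃ (J : Type u) (V : Ultrafilter J) (g : J → Ordinal.{u}),
    CardinalInterFilter (V : Filter J) δ ∧ (∀ᶠ j in V, g j < o) ∧ ∀ α < o, ∀ᶠ j in V, α ≤ g j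

/-- Cofinal `δ`-complete ultrafilters on the well-order `K`. -/
def CofUFD (δ : Cardinal.{u}) {K : Type u} [LinearOrder K] (U : Ultrafilter K) : Prop :=
  CardinalInterFilter (U : Filter K) δ ∧ ∀ a : K, ∀ᶠ x in (U : Filter K), a ≤ x

/-- Existence of minimal cofinal `δ`-complete ultrafilters. -/
theorem exists_ketonen_minD {K : Type u} [LinearOrder K] [WellFoundedLT K] {δ : Cardinal.{u}}
    (hδ : ℵ₁ ≤ δ) (h : ∃ U : Ultrafilter K, CofUFD δ U) : ∃ U : Ultrafilter K, CofUFD δ U ∧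
      ∀ w : K → Ultrafilter K, (∀ᶠ x in U, CardinalInterFilter (w x : Filter K) δ ∧
        ∀ᶠ y in w x, y < x) → ¬ CofUFD δ (U.bind w) := by
  obtain ⟨U, hU, hmin⟩ := (krel_wf (K := K)).has_min {U | CofUFD δ U} h
  refine ⟨U, hU, fun w hw hcof => hmin _ hcof ⟨⟨cif_mono hU.1 hδ, hU.2⟩, w, ?_, rfl⟩⟩
  filter_upwards [hw] with x hx
  exact ⟨cif_mono hx.1 hδ, hx.2⟩

/-- A limit ordinal whose cofinality carries a `δ`-complete uniform ultrafilter carries
a cofinal `δ`-complete ultrafilter. -/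
theorem carriesCofD_of_cof {δ : Cardinal.{u}} {o : Ordinal.{u}} (ho : ℵ₀ ≤ o.cof)
    (h : CarriesUniform δ o.cof) : CarriesCofD δ o := by
  classical
  obtain ⟨J, V, hJ, hV, hun⟩ := h
  obtain ⟨C, c, hC, hc1, hc2⟩ := exists_cofinal_fun o
  have hlim : IsSuccLimit o := aleph0_le_cof.1 ho
  have hreg : o.cof.IsRegular := isRegular_cof hlim
  obtain ⟨e⟩ : Nonempty (J ≃ o.cof.ord.ToType) := by
    rw [← Cardinal.eq, hJ, mk_ord_toType]
  obtain ⟨d⟩ : Nonempty (o.cof.ord.ToType ≃ C) := by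
    rw [← Cardinal.eq, hC, mk_ord_toType]
  have h1 : ∀ i : o.cof.ord.ToType, ∃ β < o, ∀ s : Iio i, c (d s.1) < β := fun i =>
    sup_lt_cof (mk_Iio_toType_ord_lt i) (fun s => hc1 _)
  choose g hg1 hg2 using h1
  refine ⟨J, V, fun j => g (e j), hV, Filter.Eventually.of_forall fun j => hg1 _,
    fun α hα => ?_⟩
  by_contra hcon
  have hcon' : ∀ᶠ j in V, ¬ α ≤ g (e j) := Ultrafilter.eventually_not.2 hcon
  obtain ⟨i, hi⟩ := hc2 α hα
  have h2 : {j | ¬ α ≤ g (e j)} ⊆ {j | ((e j).toOrd : Ordinal) < succ ((d.symm i).toOrd : Ordinal)} := by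
    intro j hj
    by_contra hj2
    refine hj ?_
    have h3 : d.symm i < e j := by
      rw [← ToType.mk.symm.lt_iff_lt]
      have h4 : succ ((d.symm i).toOrd : Ordinal) ≤ ((e j).toOrd : Ordinal) := not_lt.1 hj2
      have h5 : ((d.symm i).toOrd : Ordinal) < ((e j).toOrd : Ordinal) := succ_le_iff.1 h4
      exact h5
    have := hg2 (e j) ⟨d.symm i, h3⟩
    simp only [Equiv.apply_symm_apply] at this
    exact hi.trans this.le
  have h5 := hun _ hcon'
  have h6 : #{j | ¬ α ≤ g (e j)} < o.cof := by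
    refine ((mk_le_mk_of_subset h2).trans (mk_initial_le e.injective _)).trans_lt ?_
    rw [← lt_ord]
    have h7 : ((d.symm i).toOrd : Ordinal) < o.cof.ord := (d.symm i).toOrd.2
    exact (isSuccLimit_ord hreg.aleph0_le).succ_lt h7
  exact h6.ne h5

/-- Properties of the minimal cofinal `δ`-complete ultrafilters on `κ`. -/
theorem ketonen_propsD {δ κ : Cardinal.{u}} (hδ : ℵ₁ ≤ δ) (hreg : κ.IsRegular)
    (hκ : DeltaStronglyCompact δ κ) :
    ∃ U : Ultrafilter κ.ord.ToType, CardinalInterFilter (U : Filter κ.ord.ToType) δ ∧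
      Unb U κ (fun x => (x.toOrd : Ordinal)) ∧ WN U κ (fun x => (x.toOrd : Ordinal)) ∧
      ∀ᶠ x in (U : Filter κ.ord.ToType), ¬ CarriesCofD δ (x.toOrd : Ordinal) := by
  classical
  have hlim : IsSuccLimit κ.ord := isSuccLimit_ord hreg.aleph0_le
  obtain ⟨U₀, hU₀, hU₀'⟩ := exists_uniform hreg hκ κ.ord.ToType (mk_ord_toType κ)
  have hex : ∃ U : Ultrafilter κ.ord.ToType, CofUFD δ U := by
    refine ⟨U₀, hU₀, fun a => ?_⟩
    by_contra hcon
    have hcon' : ∀ᶠ x in (U₀ : Filter κ.ord.ToType), ¬ a ≤ x := Ultrafilter.eventually_not.2 hcon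
    refine hU₀' {x | ¬ a ≤ x} ?_ hcon'
    have h1 : {x : κ.ord.ToType | ¬ a ≤ x} ⊆ {x | ((id x).toOrd : Ordinal) < (a.toOrd : Ordinal)} :=
      fun x hx => toOrd_lt_toOrd.2 (not_le.1 hx)
    exact ((mk_le_mk_of_subset h1).trans (mk_initial_le Function.injective_id _)).trans_lt
      (lt_ord.1 a.toOrd.2)
  obtain ⟨U, hU, hmin⟩ := exists_ketonen_minD hδ hex
  have hunb : Unb U κ (fun x => (x.toOrd : Ordinal)) := by
    refine ⟨Filter.Eventually.of_forall fun x => x.toOrd.2, fun α hα => ?_⟩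
    filter_upwards [hU.2 (ToType.mk ⟨α, hα⟩)] with x hx
    have := toOrd_le_toOrd.2 hx
    rwa [toOrd_mk] at this
  refine ⟨U, hU.1, hunb, fun g hg => ?_, ?_⟩
  · -- weak normality
    let h : κ.ord.ToType → κ.ord.ToType := fun x =>
      if hx : g x < κ.ord then ToType.mk ⟨g x, hx⟩ else x
    have h1 : ∀ᶠ x in (U : Filter κ.ord.ToType), h x < x := by
      filter_upwards [hg] with x hx
      have hx' : g x < κ.ord := hx.trans x.toOrd.2
      simp only [h, hx', dite_true]
      rw [← toOrd_lt_toOrd, toOrd_mk]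
      exact hx
    have h2 := hmin (fun x => pure (h x)) (by
      filter_upwards [h1] with x hx
      exact ⟨cif_pure _ _, hx⟩)
    have h3 : ∃ a, ¬ ∀ᶠ y in ((U.bind fun x => pure (h x) : Ultrafilter κ.ord.ToType) :
        Filter κ.ord.ToType), a ≤ y := by
      by_contra hcon
      push Not at hcon
      exact h2 ⟨cif_bind hU.1 (Filter.Eventually.of_forall fun x => cif_pure _ _), hcon⟩
    obtain ⟨a, ha⟩ := h3
    have h4 : ∀ᶠ x in (U : Filter κ.ord.ToType), ¬ a ≤ h x := by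
      refine Ultrafilter.eventually_not.2 (fun hcon => ha ?_)
      exact hcon
    refine ⟨a.toOrd, a.toOrd.2, ?_⟩
    filter_upwards [h4, hg] with x hx1 hx2
    have hx' : g x < κ.ord := hx2.trans x.toOrd.2
    simp only [h, hx', dite_true, not_le] at hx1
    have := toOrd_lt_toOrd.2 hx1
    rwa [toOrd_mk] at this
  · -- no cofinal ultrafilters below
    by_contra hcon
    have hcon' : ∀ᶠ x in (U : Filter κ.ord.ToType), CarriesCofD δ (x.toOrd : Ordinal) := by
      have := Ultrafilter.eventually_not.2 hcon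
      filter_upwards [this] with x hx
      exact not_not.1 hx
    have hw : ∀ x : κ.ord.ToType, ∃ w : Ultrafilter κ.ord.ToType,
        CarriesCofD δ (x.toOrd : Ordinal) →
        CardinalInterFilter (w : Filter κ.ord.ToType) δ ∧
        (∀ᶠ y in (w : Filter κ.ord.ToType), y < x) ∧
        ∀ a : κ.ord.ToType, a < x → ∀ᶠ y in (w : Filter κ.ord.ToType), a ≤ y := by
      intro x
      by_cases hx : CarriesCofD δ (x.toOrd : Ordinal)
      · obtain ⟨J, V, g, hV, hg1, hg2⟩ := hx
        let h : J → κ.ord.ToType := fun j => if hj : g j < κ.ord then ToType.mk ⟨g j, hj⟩ else x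
        have hh : ∀ᶠ j in (V : Filter J), ((h j).toOrd : Ordinal) = g j := by
          filter_upwards [hg1] with j hj
          have hj' : g j < κ.ord := hj.trans x.toOrd.2
          simp only [h, hj', dite_true]
          exact toOrd_mk hj'
        refine ⟨V.map h, fun _ => ⟨cif_map hV h, ?_, fun a ha => ?_⟩⟩
        · change ∀ᶠ j in (V : Filter J), h j < x
          filter_upwards [hh, hg1] with j hj1 hj2
          rw [← toOrd_lt_toOrd, hj1]
          exact hj2
        · change ∀ᶠ j in (V : Filter J), a ≤ h j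
          filter_upwards [hh, hg2 _ (toOrd_lt_toOrd.2 ha)] with j hj1 hj2
          rw [← toOrd_le_toOrd, hj1]
          exact hj2
      · exact ⟨U, fun h => absurd h hx⟩
    choose w hw using hw
    refine hmin w ?_ ⟨cif_bind hU.1 ?_, fun a => ?_⟩
    · filter_upwards [hcon'] with x hx
      exact ⟨(hw x hx).1, (hw x hx).2.1⟩
    · filter_upwards [hcon'] with x hx
      exact (hw x hx).1
    · change ∀ᶠ x in (U : Filter κ.ord.ToType), ∀ᶠ y in (w x : Filter κ.ord.ToType), a ≤ y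
      filter_upwards [hcon', hunb.2 (succ (a.toOrd : Ordinal)) (hlim.succ_lt a.toOrd.2)]
        with x hx1 hx2
      exact (hw x hx1).2.2 a (toOrd_lt_toOrd.1 (succ_le_iff.1 hx2))

/-- The minimal `δ`-complete ultrafilter on the least `ω₁`-strongly compact cardinal concentrates
on regular cardinals without uniform `δ`-complete ultrafilters. -/
theorem ketonen_regularD {δ κ : Cardinal.{u}} (hδ : ℵ₁ ≤ δ) (hreg : κ.IsRegular) (h1 : ℵ₁ < κ)
    (hκ : OmegaOneStronglyCompact κ) (hleast : ∀ μ < κ, ¬ OmegaOneStronglyCompact μ)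
    (hδκ : DeltaStronglyCompact δ κ) :
    ∃ U : Ultrafilter κ.ord.ToType, CardinalInterFilter (U : Filter κ.ord.ToType) δ ∧
      Unb U κ (fun x => (x.toOrd : Ordinal)) ∧ WN U κ (fun x => (x.toOrd : Ordinal)) ∧
      ∀ᶠ x in (U : Filter κ.ord.ToType), ∃ θ : Cardinal.{u}, θ.IsRegular ∧
        (x.toOrd : Ordinal) = θ.ord ∧ ¬ CarriesUniform δ θ := by
  classical
  have hlim : IsSuccLimit κ := isSuccLimit_of_least hreg h1 hκ hleast
  have hlim' : IsSuccLimit κ.ord := isSuccLimit_ord hreg.aleph0_le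
  obtain ⟨U, hU1, hU2, hU3, hU4⟩ := ketonen_propsD hδ hreg hδκ
  refine ⟨U, hU1, hU2, hU3, ?_⟩
  have hcof : ∀ᶠ x in (U : Filter κ.ord.ToType),
      ¬ (x.toOrd : Ordinal).cof.ord < (x.toOrd : Ordinal) := by
    refine Ultrafilter.eventually_not.2 (fun hcon => ?_)
    obtain ⟨β, hβ, hβ'⟩ := hU3 (fun x => (x.toOrd : Ordinal).cof.ord) hcon
    have h2 : ∀ᶠ x in (U : Filter κ.ord.ToType), (x.toOrd : Ordinal).cof < succ β.card := by
      filter_upwards [hβ'] with x hx
      rw [lt_succ_iff]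
      have := Ordinal.card_le_card hx.le
      rwa [card_ord] at this
    have hr := reg_of_cof hreg hU2 hU3 h2
    refine hleast _ (max_lt (hlim.succ_lt (lt_ord.1 hβ)) h1) (omegaOne_of_reg hreg hκ fun T hT =>
      ⟨_, U, cif_mono hU1 hδ, hr.mono (by rw [mk_ord_toType]; exact hT.le)⟩)
  filter_upwards [hcof, hU4, hU2.2 ω (by
    have := ord_lt_ord.2 ((aleph0_lt_aleph_one).trans h1)
    rwa [ord_aleph0] at this)] with x hx1 hx2 hx3
  have hle : (x.toOrd : Ordinal).cof.ord ≤ (x.toOrd : Ordinal) :=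
    (ord_le_ord.2 (cof_le_card _)).trans (ord_card_le _)
  have heq : (x.toOrd : Ordinal).cof.ord = (x.toOrd : Ordinal) :=
    le_antisymm hle (not_lt.1 hx1)
  have hinf : ℵ₀ ≤ (x.toOrd : Ordinal).cof := by
    rw [← heq] at hx3
    have := Ordinal.card_le_card hx3
    rwa [card_omega0, card_ord] at this
  refine ⟨(x.toOrd : Ordinal).cof, isRegular_cof (aleph0_le_cof.1 hinf), heq.symm, fun h => ?_⟩
  exact hx2 (carriesCofD_of_cof hinf h)

end Pool.Agent.Helper801_ASC
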