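import Mathlib
import Pool.Agent.Helper801_ASC.KMinD

/-!
# Stationary reflection
-/

open Cardinal Ordinal Filter Set Order

universe u

namespace Pool.Agent.Helper801_ASC

variable {I J T : Type u}

/-- A function which is unbounded in the ordinal `o` modulo `U` witnesses that `U` is
`cof o`-decomposable. -/
theorem decomp_of_unb_ord {U : Ultrafilter I} {o : Ordinal.{u}} {g : I → Ordinal.{u}}
    (h1 : ∀ᶠ x in (U : Filter I), g x < o) (h2 : ∀ α < o, ∀ᶠ x in (U : Filter I), α ≤ g x) :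
    Decomp U o.cof := by
  classical
  obtain ⟨C, c, hC, hc1, hc2⟩ := exists_cofinal_fun o
  obtain ⟨x₀, hx₀⟩ := h1.exists
  obtain ⟨i₀, -⟩ := hc2 _ hx₀
  have h3 : ∀ x, ∃ i : C, g x < o → g x ≤ c i := by
    intro x
    by_cases hx : g x < o
    · obtain ⟨i, hi⟩ := hc2 _ hx
      exact ⟨i, fun _ => hi⟩
    · exact ⟨i₀, fun h => absurd h hx⟩
  choose f hf using h3
  refine ⟨C, f, hC, fun A hA hmem => ?_⟩
  obtain ⟨β, hβ, hβ'⟩ := sup_lt_cof (a := o) (ι := A) hA (f := fun i => c i.1) (fun i => hc1 _)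
  obtain ⟨x, ⟨hx1, hx2⟩, hx3⟩ := ((h1.and (h2 β hβ)).and hmem).exists
  exact absurd (hx2.trans (hf x hx1)) (not_le.2 (hβ' ⟨f x, hx3⟩))

/-- Reflection of one stationary set: if the cofinalities of the members of the stationary set `X`
carry no uniform `δ`-complete ultrafilters, then `X` reflects almost everywhere with respect to a
weakly normal `δ`-complete ultrafilter. -/
theorem reflect_one {δ κ : Cardinal.{u}} (hreg : κ.IsRegular) (h0 : ℵ₀ < κ)
    {U : Ultrafilter κ.ord.ToType} (hU1 : CardinalInterFilter (U : Filter κ.ord.ToType) δ)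
    (hU2 : Unb U κ (fun x => (x.toOrd : Ordinal))) (hU3 : WN U κ (fun x => (x.toOrd : Ordinal)))
    {X : Set Ordinal.{u}} (hX : IsStationaryBelow κ X)
    (hX' : ∀ α ∈ X, ¬ CarriesUniform δ α.cof) :
    ∀ᶠ x in (U : Filter κ.ord.ToType), ∀ θ : Cardinal.{u}, θ.ord = (x.toOrd : Ordinal) →
      IsStationaryBelow θ X := by
  classical
  by_contra hcon
  have hcon' : ∀ᶠ x in (U : Filter κ.ord.ToType), ¬ ∀ θ : Cardinal.{u},
      θ.ord = (x.toOrd : Ordinal) → IsStationaryBelow θ X := Ultrafilter.eventually_not.2 hcon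
  have he : ∀ x : κ.ord.ToType, ∃ e : Set Ordinal.{u}, (¬ ∀ θ : Cardinal.{u},
      θ.ord = (x.toOrd : Ordinal) → IsStationaryBelow θ X) →
      (∀ β < (x.toOrd : Ordinal), ∃ γ ∈ e, β < γ ∧ γ < (x.toOrd : Ordinal)) ∧
      (∀ γ < (x.toOrd : Ordinal), γ ≠ 0 → (∀ α < γ, ∃ β ∈ e, α < β ∧ β < γ) → γ ∈ e) ∧
      ¬ (X ∩ e).Nonempty := by
    intro x
    by_cases h : ∀ θ : Cardinal.{u}, θ.ord = (x.toOrd : Ordinal) → IsStationaryBelow θ X
    · exact ⟨∅, fun h' => absurd h h'⟩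
    · have h' := h
      push Not at h'
      obtain ⟨θ, hθ, hst⟩ := h'
      unfold IsStationaryBelow at hst
      push Not at hst
      obtain ⟨C, hC, hCX⟩ := hst
      refine ⟨C, fun _ => ⟨fun β hβ => ?_, fun γ hγ => ?_, ?_⟩⟩
      · rw [← hθ] at hβ ⊢
        obtain ⟨γ, hγ, hγ'⟩ := hC.2.1 β hβ
        exact ⟨γ, hγ, hγ', hC.1 γ hγ⟩
      · rw [← hθ] at hγ
        exact hC.2.2 γ hγ
      · rw [hCX]
        exact not_nonempty_empty
  choose e he using he
  have hs : ∀ β < κ.ord, ∃ s < κ.ord, ∀ᶠ x in (U : Filter κ.ord.ToType),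
      ∃ γ ∈ e x, β < γ ∧ γ < s := by
    intro β hβ
    have h1 : ∀ x : κ.ord.ToType, ∃ γ : Ordinal.{u}, (¬ ∀ θ : Cardinal.{u},
        θ.ord = (x.toOrd : Ordinal) → IsStationaryBelow θ X) → β < (x.toOrd : Ordinal) →
        γ ∈ e x ∧ β < γ ∧ γ < (x.toOrd : Ordinal) := by
      intro x
      by_cases h : (¬ ∀ θ : Cardinal.{u}, θ.ord = (x.toOrd : Ordinal) → IsStationaryBelow θ X) ∧
        β < (x.toOrd : Ordinal)
      · obtain ⟨γ, h2, h3⟩ := (he x h.1).1 β h.2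
        exact ⟨γ, fun _ _ => ⟨h2, h3⟩⟩
      · exact ⟨0, fun h2 h3 => absurd ⟨h2, h3⟩ h⟩
    choose g hg using h1
    have h2 : ∀ᶠ x in (U : Filter κ.ord.ToType), β < (x.toOrd : Ordinal) := by
      have hlim : IsSuccLimit κ.ord := isSuccLimit_ord hreg.aleph0_le
      filter_upwards [hU2.2 (succ β) (hlim.succ_lt hβ)] with x hx using succ_le_iff.1 hx
    obtain ⟨s, hs, hs'⟩ := hU3 g (by
      filter_upwards [hcon', h2] with x hx1 hx2 using (hg x hx1 hx2).2.2)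
    refine ⟨s, hs, ?_⟩
    filter_upwards [hcon', h2, hs'] with x hx1 hx2 hx3
    exact ⟨g x, (hg x hx1 hx2).1, (hg x hx1 hx2).2.1, hx3⟩
  choose! s hs1 hs2 using hs
  have hclub : IsClubBelow κ (ClosedUnder κ fun _ α => s α) :=
    isClubBelow_closedUnder hreg h0 fun _ _ α hα => hs1 α hα
  obtain ⟨α, hαX, hα1, hα2, hα3⟩ := hX _ hclub
  have hα0 : 0 < α := pos_iff_ne_zero.2 hα2
  have hlim : IsSuccLimit κ.ord := isSuccLimit_ord hreg.aleph0_le
  have hαx : ∀ᶠ x in (U : Filter κ.ord.ToType), α < (x.toOrd : Ordinal) := by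
    filter_upwards [hU2.2 (succ α) (hlim.succ_lt hα1)] with x hx using succ_le_iff.1 hx
  have hmem : ∀ᶠ x in (U : Filter κ.ord.ToType), α ∈ e x := by
    by_contra hcon2
    have hcon2' : ∀ᶠ x in (U : Filter κ.ord.ToType), α ∉ e x := Ultrafilter.eventually_not.2 hcon2
    have hg : ∀ x : κ.ord.ToType, ∃ a : Ordinal.{u}, (¬ ∀ θ : Cardinal.{u},
        θ.ord = (x.toOrd : Ordinal) → IsStationaryBelow θ X) → α < (x.toOrd : Ordinal) →
        α ∉ e x → a < α ∧ ∀ β ∈ e x, a < β → ¬ β < α := by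
      intro x
      by_cases h : (¬ ∀ θ : Cardinal.{u}, θ.ord = (x.toOrd : Ordinal) → IsStationaryBelow θ X) ∧
        α < (x.toOrd : Ordinal) ∧ α ∉ e x
      · have h2 : ¬ ∀ a < α, ∃ β ∈ e x, a < β ∧ β < α := fun h3 =>
          h.2.2 ((he x h.1).2.1 α h.2.1 hα2 h3)
        push Not at h2
        obtain ⟨a, ha, ha'⟩ := h2
        exact ⟨a, fun _ _ _ => ⟨ha, fun β hβ hβ' => not_lt.2 (ha' β hβ hβ')⟩⟩
      · exact ⟨0, fun h2 h3 h4 => absurd ⟨h2, h3, h4⟩ h⟩
    choose g hg using hg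
    have hd := decomp_of_unb_ord (U := U) (o := α) (g := g) (by
        filter_upwards [hcon', hαx, hcon2'] with x h1 h2 h3 using (hg x h1 h2 h3).1) (by
        intro β hβ
        filter_upwards [hcon', hαx, hcon2', hs2 β (hβ.trans hα1)] with x h1 h2 h3 h4
        obtain ⟨γ, hγ1, hγ2, hγ3⟩ := h4
        have h5 : γ < α := hγ3.trans (hα3 0 hα0 β hβ)
        have h6 : ¬ g x < γ := fun h => (hg x h1 h2 h3).2 γ hγ1 h h5
        exact (hγ2.trans_le (not_lt.1 h6)).le)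
    exact hX' α hαX (hd.carriesUniform hU1)
  obtain ⟨x, hx1, hx2⟩ := (hmem.and hcon').exists
  exact (he x hx2).2.2 ⟨α, hαX, hx1⟩

end Pool.Agent.Helper801_ASC
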